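import Pool.Agent.Work.MP_1ce445_low.Interface

namespace Pool.Agent.Work.MP_1ce445_low

open Finset Pool.Agent.Work.MP_1ce445_co_56 Pool.Agent.Work.MP_1ce445_lin

theorem bas0_ex {C : Type} [Fintype C] [DecidableEq C] (g : C → ℕ) (h : ∑ b, g b = 1) :
    ∃ b, ∀ c, g c = if c = b then 1 else 0 := by
  have h0 : ∃ b ∈ (univ : Finset C), g b ≠ 0 := by
    by_contra hc
    push Not at hc
    rw [Finset.sum_eq_zero hc] at h
    exact absurd h (by norm_num)
  obtain ⟨b, _, hb⟩ := h0
  refine ⟨b, ?_⟩
  rw [← Finset.add_sum_erase univ g (Finset.mem_univ b)] at h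
  have h2 : g b = 1 := by omega
  have h3 : ∑ c ∈ univ.erase b, g c = 0 := by omega
  intro c
  by_cases hc : c = b
  · rw [hc, h2]; simp
  · rw [if_neg hc]
    exact (Finset.sum_eq_zero_iff.mp h3) c (Finset.mem_erase.mpr ⟨hc, Finset.mem_univ c⟩)

theorem stmt_BAS0 : Stmt_BAS0 := by
  intro C _ _ k η M hO h1
  have hrow : ∀ i a, ∃ b, ∀ c, M i a c = if c = b then 1 else 0 := by
    intro i a
    apply bas0_ex
    rw [hO.row i a, h1 a]
  choose μ hμ using hrow
  have hself : ∀ i a, M i a (μ i a) = 1 := by
    intro i a
    rw [hμ i a]; simp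
  have heq : ∀ i a c, M i a c ≠ 0 → c = μ i a := by
    intro i a c hc
    by_contra hne
    rw [hμ i a c, if_neg hne] at hc
    exact hc rfl
  refine ⟨μ, ?_, ?_, ?_, ?_, ?_⟩
  · intro a
    rw [h1 a]
    have : univ.filter (fun v : C => (id : C → C) v = a) = {a} := by
      ext v; simp
    rw [this]; simp
  · intro i v
    symm
    apply heq
    rw [hO.symm i (μ i v) v, hself i v]
    exact one_ne_zero
  · intro i v hv
    have h2 := hO.diag v
    rw [h1 v] at h2
    have h3 : ∑ i, M i v v = 0 := by omega
    have h4 := (Finset.sum_eq_zero_iff.mp h3) i (Finset.mem_univ i)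
    have h5 := hself i v
    rw [hv, h4] at h5
    exact absurd h5 (by norm_num)
  · intro i j v hij
    by_contra hne
    have hv : v ≠ μ i v := by
      intro hv
      have h2 := hO.diag v
      rw [h1 v] at h2
      have h3 : ∑ i, M i v v = 0 := by omega
      have h4 := (Finset.sum_eq_zero_iff.mp h3) i (Finset.mem_univ i)
      have h5 := hself i v
      rw [← hv, h4] at h5
      exact absurd h5 (by norm_num)
    have h2 := hO.off v (μ i v) hv
    rw [h1, h1] at h2
    have h3 : M i v (μ i v) + M j v (μ i v) ≤ ∑ i', M i' v (μ i v) := by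
      have : ∑ i' ∈ ({i, j} : Finset (Fin k)), M i' v (μ i v) ≤ ∑ i', M i' v (μ i v) :=
        Finset.sum_le_sum_of_subset (Finset.subset_univ _)
      rw [Finset.sum_pair hne] at this
      exact this
    have h4 := hself i v
    have h5 : M j v (μ i v) = 1 := by rw [hij]; exact hself j v
    omega
  · intro a b
    apply Finset.sum_congr rfl
    intro i _
    rw [hμ i a b]
    by_cases hb : b = μ i a
    · rw [if_pos hb]
      have : univ.filter (fun v : C => (id : C → C) v = a ∧ (id : C → C) (μ i v) = b) = {a} := by
        ext v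
        simp only [id, mem_filter, mem_univ, true_and, mem_singleton]
        constructor
        · exact fun h => h.1
        · intro h; subst h; exact ⟨rfl, hb.symm⟩
      rw [this]; simp
    · rw [if_neg hb]
      have : univ.filter (fun v : C => (id : C → C) v = a ∧ (id : C → C) (μ i v) = b) = ∅ := by
        ext v
        simp only [id, mem_filter, mem_univ, true_and, notMem_empty, iff_false, not_and]
        intro h h'
        subst h
        exact hb h'.symm
      rw [this]; simp

end Pool.Agent.Work.MP_1ce445_low
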