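import Pool.Agent.Work.MP_1ce445_low.Interface

namespace Pool.Agent.Work.MP_1ce445_low

open Finset Pool.Agent.Work.MP_1ce445_co_56 Pool.Agent.Work.MP_1ce445_lin

theorem det_card {V : Type} [Fintype V] (p q : V → Prop) [DecidablePred p] [DecidablePred q] :
    (univ.filter (fun v => p v ∧ q v)).card =
      ∑ v, (if p v then 1 else 0) * (if q v then 1 else 0) := by
  rw [Finset.card_filter]
  apply Finset.sum_congr rfl
  intro v _
  by_cases h1 : p v <;> by_cases h2 : q v <;> simp [h1, h2]

theorem det_getD_self {C : Type} [DecidableEq C] (a : C) (x : Option C) :
    (if x.getD a = a then 1 else 0 : ℕ) = (if x = none then 1 else 0) + (if x = some a then 1 else 0) := by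
  cases x with
  | none => simp
  | some c => simp

theorem det_getD_ne {C : Type} [DecidableEq C] (a b : C) (hb : b ≠ a) (x : Option C) :
    (if x.getD a = b then 1 else 0 : ℕ) = (if x = some b then 1 else 0) := by
  cases x with
  | none => simp [Ne.symm hb]
  | some c => simp

theorem stmt_DET (hSTE : Stmt_STE) (hBAS : Stmt_BAS0) : Stmt_DET := by
  have main : ∀ N : ℕ, ∀ (C : Type) [Fintype C] [DecidableEq C] (k : ℕ) (η : C → ℕ) (M : Fin k → C → C → ℕ),
      ∑ a, (η a - 1) = N → Outline k η M →
      ∃ (V : Type) (_ : Fintype V) (_ : DecidableEq V) (cl : V → C) (μ : Fin k → V → V), Realz k η M cl μ := by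
    intro N
    induction N with
    | zero =>
      intro C _ _ k η M hN hO
      have h1 : ∀ a, η a = 1 := by
        intro a
        have h2 := (Finset.sum_eq_zero_iff.mp hN) a (Finset.mem_univ a)
        have h3 := hO.pos a
        omega
      obtain ⟨μ, hμ⟩ := hBAS C k η M hO h1
      exact ⟨C, inferInstance, inferInstance, id, μ, hμ⟩
    | succ N ih =>
      intro C _ _ k η M hN hO
      obtain ⟨a, ha⟩ : ∃ a, 2 ≤ η a := by
        by_contra hcon
        push Not at hcon
        have : ∑ a, (η a - 1) = 0 := by
          apply Finset.sum_eq_zero
          intro a _
          have := hcon a
          omega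
        omega
      obtain ⟨f, hO', hf1, hf2⟩ := hSTE C k η M a hO ha
      have hsum : ∑ o, (etaS a η o - 1) = N := by
        rw [Fintype.sum_option]
        have e1 : etaS a η none - 1 = 0 := rfl
        rw [e1, zero_add]
        have e2 : ∀ b : C, etaS a η (some b) - 1 + (if b = a then 1 else 0) = η b - 1 := by
          intro b
          by_cases hb : b = a
          · subst hb
            simp only [etaS, if_true]
            omega
          · simp only [etaS, if_neg hb]
            omega
        have e3 : ∑ b, (etaS a η (some b) - 1) + 1 = N + 1 := by
          rw [← hN, ← Finset.sum_congr rfl (fun b _ => e2 b), Finset.sum_add_distrib]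
          simp
        omega
      obtain ⟨V, iV, dV, cl', μ, hR⟩ := ih (Option C) k (etaS a η) (MS a f M) hsum hO'
      letI := iV
      letI := dV
      refine ⟨V, iV, dV, fun v => (cl' v).getD a, μ, ?_⟩
      -- counts
      have hc : ∀ o o' : Option C, ∑ i, ∑ v, (if cl' v = o then 1 else 0) * (if cl' (μ i v) = o' then 1 else 0)
          = ∑ i, MS a f M i o o' := by
        intro o o'
        rw [← hR.cnt o o']
        apply Finset.sum_congr rfl
        intro i _
        rw [det_card]
      have hc1 : ∀ o : Option C, ∑ v, (if cl' v = o then 1 else 0) = etaS a η o := by
        intro o
        rw [← hR.card o, Finset.card_filter]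
      refine ⟨?_, hR.inv, hR.ne, hR.dis, ?_⟩
      · intro b
        rw [Finset.card_filter]
        by_cases hb : b = a
        · subst hb
          rw [Finset.sum_congr rfl (fun v _ => det_getD_self b (cl' v)), Finset.sum_add_distrib, hc1, hc1]
          simp only [etaS, if_true]
          omega
        · rw [Finset.sum_congr rfl (fun v _ => det_getD_ne a b hb (cl' v)), hc1]
          simp only [etaS, if_neg hb]
      · intro b b'
        have hstart : ∑ i, (univ.filter (fun v => (cl' v).getD a = b ∧ (cl' (μ i v)).getD a = b')).card
            = ∑ i, ∑ v, (if (cl' v).getD a = b then 1 else 0) * (if (cl' (μ i v)).getD a = b' then 1 else 0) := by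
          apply Finset.sum_congr rfl
          intro i _
          rw [det_card]
        rw [hstart]
        by_cases hb : b = a
        · subst hb
          by_cases hb' : b' = b
          · subst hb'
            have h1 : ∀ i v, (if (cl' v).getD b' = b' then 1 else 0 : ℕ) * (if (cl' (μ i v)).getD b' = b' then 1 else 0)
                = (if cl' v = none then 1 else 0) * (if cl' (μ i v) = none then 1 else 0)
                + (if cl' v = none then 1 else 0) * (if cl' (μ i v) = some b' then 1 else 0)
                + (if cl' v = some b' then 1 else 0) * (if cl' (μ i v) = none then 1 else 0)
                + (if cl' v = some b' then 1 else 0) * (if cl' (μ i v) = some b' then 1 else 0) := by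
              intro i v
              rw [det_getD_self, det_getD_self]
              ring
            rw [Finset.sum_congr rfl (fun i _ => Finset.sum_congr rfl (fun v _ => h1 i v))]
            simp only [Finset.sum_add_distrib]
            rw [hc, hc, hc, hc]
            simp only [← Finset.sum_add_distrib]
            apply Finset.sum_congr rfl
            intro i _
            have h2 := hf2 i
            simp only [MS, if_true]
            by_cases h3 : f i = b'
            · have := h2 h3
              simp only [if_pos h3]
              omega
            · simp only [if_neg h3]
              omega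
          · have h1 : ∀ i v, (if (cl' v).getD b = b then 1 else 0 : ℕ) * (if (cl' (μ i v)).getD b = b' then 1 else 0)
                = (if cl' v = none then 1 else 0) * (if cl' (μ i v) = some b' then 1 else 0)
                + (if cl' v = some b then 1 else 0) * (if cl' (μ i v) = some b' then 1 else 0) := by
              intro i v
              rw [det_getD_self, det_getD_ne b b' hb']
              ring
            rw [Finset.sum_congr rfl (fun i _ => Finset.sum_congr rfl (fun v _ => h1 i v))]
            simp only [Finset.sum_add_distrib]
            rw [hc, hc]
            simp only [← Finset.sum_add_distrib]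
            apply Finset.sum_congr rfl
            intro i _
            have h2 := hf1 i
            simp only [MS, if_true, if_neg hb']
            by_cases h3 : f i = b'
            · rw [h3] at h2
              simp only [if_pos h3]
              omega
            · simp only [if_neg h3]
              omega
        · by_cases hb' : b' = a
          · subst hb'
            have h1 : ∀ i v, (if (cl' v).getD b' = b then 1 else 0 : ℕ) * (if (cl' (μ i v)).getD b' = b' then 1 else 0)
                = (if cl' v = some b then 1 else 0) * (if cl' (μ i v) = none then 1 else 0)
                + (if cl' v = some b then 1 else 0) * (if cl' (μ i v) = some b' then 1 else 0) := by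
              intro i v
              rw [det_getD_self, det_getD_ne b' b hb]
              ring
            rw [Finset.sum_congr rfl (fun i _ => Finset.sum_congr rfl (fun v _ => h1 i v))]
            simp only [Finset.sum_add_distrib]
            rw [hc, hc]
            simp only [← Finset.sum_add_distrib]
            apply Finset.sum_congr rfl
            intro i _
            have h2 := hf1 i
            have h4 := hO.symm i b b'
            simp only [MS, if_true, if_neg hb]
            by_cases h3 : f i = b
            · rw [h3] at h2
              simp only [if_pos h3]
              omega
            · simp only [if_neg h3]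
              omega
          · have h1 : ∀ i v, (if (cl' v).getD a = b then 1 else 0 : ℕ) * (if (cl' (μ i v)).getD a = b' then 1 else 0)
                = (if cl' v = some b then 1 else 0) * (if cl' (μ i v) = some b' then 1 else 0) := by
              intro i v
              rw [det_getD_ne a b hb, det_getD_ne a b' hb']
            rw [Finset.sum_congr rfl (fun i _ => Finset.sum_congr rfl (fun v _ => h1 i v))]
            rw [hc]
            apply Finset.sum_congr rfl
            intro i _
            simp only [MS, if_neg hb, if_neg hb']
  intro C _ _ k η M hO
  exact main _ C k η M rfl hO

end Pool.Agent.Work.MP_1ce445_low
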