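import Pool.Agent.Work.MP_1ce445_low.Interface

/-! # Block INT: integral choice with lower and upper bounds -/

namespace Pool.Agent.Work.MP_1ce445_low

open Finset Pool.Agent.Work.MP_1ce445_co_56 Pool.Agent.Work.MP_1ce445_lin

theorem INT_comb {X Y : Type} (Y0 : Y → Prop) (R : X → Y → Prop) (f1 : X → Y)
    (g1 : {y // Y0 y} → X) (hf : Function.Injective f1) (hfR : ∀ x, R x (f1 x))
    (hg : Function.Injective g1) (hgR : ∀ y, R (g1 y) y.1) :
    ∃ h : X → Y, Function.Injective h ∧ (∀ x, R x (h x)) ∧ ∀ y, Y0 y → ∃ x, h x = y := by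
  classical
  let F : X ⊕ ({y : Y // ¬ Y0 y} × ℕ) → Y ⊕ ({y : Y // ¬ Y0 y} × ℕ) := fun a =>
    match a with
    | Sum.inl x => Sum.inl (f1 x)
    | Sum.inr p => Sum.inr p
  let G : Y ⊕ ({y : Y // ¬ Y0 y} × ℕ) → X ⊕ ({y : Y // ¬ Y0 y} × ℕ) := fun b =>
    match b with
    | Sum.inl y => if h : Y0 y then Sum.inl (g1 ⟨y, h⟩) else Sum.inr (⟨y, h⟩, 0)
    | Sum.inr p => Sum.inr (p.1, p.2 + 1)
  let Q : X ⊕ ({y : Y // ¬ Y0 y} × ℕ) → Y ⊕ ({y : Y // ¬ Y0 y} × ℕ) → Prop := fun a b =>
    match a, b with
    | Sum.inl x, Sum.inl y => R x y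
    | Sum.inr p, Sum.inl y => p.1.1 = y
    | Sum.inr p, Sum.inr p' => p.1 = p'.1
    | Sum.inl _, Sum.inr _ => False
  have hF : Function.Injective F := by
    rintro (x | p) (x' | p') hab
    · simp only [F, Sum.inl.injEq] at hab
      rw [hf hab]
    · simp [F] at hab
    · simp [F] at hab
    · simpa [F] using hab
  have hG : Function.Injective G := by
    rintro (y | p) (y' | p') hab
    · by_cases h : Y0 y <;> by_cases h' : Y0 y'
      · simp only [G, h, h', dif_pos, Sum.inl.injEq] at hab
        have := hg hab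
        simp only [Subtype.mk.injEq] at this
        rw [this]
      · simp [G, h, h'] at hab
      · simp [G, h, h'] at hab
      · simp only [G, h, h', not_false_eq_true, dif_neg, Sum.inr.injEq, Prod.mk.injEq,
          Subtype.mk.injEq, and_true] at hab
        rw [hab]
    · by_cases h : Y0 y
      · simp [G, h] at hab
      · simp [G, h] at hab
    · by_cases h : Y0 y'
      · simp [G, h] at hab
      · simp [G, h] at hab
    · simp only [G, Sum.inr.injEq, Prod.mk.injEq, Nat.add_right_cancel_iff] at hab
      rw [Sum.inr.injEq]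
      exact Prod.ext hab.1 hab.2
  have h1 : ∀ a, Q a (F a) := by
    rintro (x | p)
    · exact hfR x
    · exact rfl
  have h2 : ∀ b, Q (G b) b := by
    rintro (y | p)
    · by_cases h : Y0 y
      · have e : G (Sum.inl y) = Sum.inl (g1 ⟨y, h⟩) := by simp [G, h]
        rw [e]
        exact hgR ⟨y, h⟩
      · have e : G (Sum.inl y) = Sum.inr (⟨y, h⟩, 0) := by simp [G, h]
        rw [e]
    · exact rfl
  obtain ⟨H, hH, hQ⟩ := Function.Embedding.schroeder_bernstein_of_rel hF hG Q h1 h2
  have h3 : ∀ x, ∃ y, H (Sum.inl x) = Sum.inl y ∧ R x y := by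
    intro x
    have h4 := hQ (Sum.inl x)
    rcases hx : H (Sum.inl x) with y | p
    · rw [hx] at h4
      exact ⟨y, rfl, h4⟩
    · rw [hx] at h4
      exact h4.elim
  choose h h4 h5 using h3
  refine ⟨h, ?_, h5, ?_⟩
  · intro x x' hxx
    have h6 : H (Sum.inl x) = H (Sum.inl x') := by rw [h4, h4, hxx]
    exact Sum.inl_injective (hH.1 h6)
  · intro y hy
    obtain ⟨a, ha⟩ := hH.2 (Sum.inl y)
    rcases a with x | p
    · refine ⟨x, ?_⟩
      rw [h4 x] at ha
      exact Sum.inl_injective ha
    · exfalso
      have h6 := hQ (Sum.inr p)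
      rw [ha] at h6
      have h7 : p.1.1 = y := h6
      exact p.1.2 (h7 ▸ hy)

theorem INT_div (a η : ℕ) (h : 0 < η) : a ≤ η * ((a + η - 1) / η) := by
  have h1 := Nat.div_add_mod (a + η - 1) η
  have h2 := Nat.mod_lt (a + η - 1) h
  omega

theorem p_INT : Stmt_INT := by
  classical
  intro C _ _ k η N hη hN
  set S : C → ℕ := fun b => ∑ i, N i b with hS
  -- (1)
  have hall1 : ∃ f1 : Fin k → (Σ b : C, Fin ((S b + η - 1) / η)), Function.Injective f1 ∧
      ∀ i, f1 i ∈ (univ.filter (fun y : (Σ b : C, Fin ((S b + η - 1) / η)) => 0 < N i y.1)) := by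
    rw [← Finset.all_card_le_biUnion_card_iff_exists_injective]
    intro I
    set B : Finset C := univ.filter (fun b => ∃ i ∈ I, 0 < N i b) with hB
    have hU : (I.biUnion fun i => univ.filter
        (fun y : (Σ b : C, Fin ((S b + η - 1) / η)) => 0 < N i y.1))
        = B.sigma (fun b => (univ : Finset (Fin ((S b + η - 1) / η)))) := by
      ext y
      simp [hB]
    rw [hU, Finset.card_sigma]
    simp only [Finset.card_univ, Fintype.card_fin]
    have h1 : η * I.card = ∑ i ∈ I, ∑ b ∈ B, N i b := by
      have h2 : ∀ i ∈ I, ∑ b ∈ B, N i b = η := by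
        intro i hi
        rw [← hN i]
        apply Finset.sum_subset (Finset.subset_univ _)
        intro b _ hb
        by_contra h0
        exact hb (by simp only [hB, Finset.mem_filter, Finset.mem_univ, true_and]
                     exact ⟨i, hi, Nat.pos_of_ne_zero h0⟩)
      rw [Finset.sum_congr rfl h2, Finset.sum_const, smul_eq_mul, mul_comm]
    have h3 : ∑ i ∈ I, ∑ b ∈ B, N i b ≤ ∑ b ∈ B, S b := by
      rw [Finset.sum_comm]
      apply Finset.sum_le_sum
      intro b _
      exact Finset.sum_le_sum_of_subset (Finset.subset_univ _)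
    have h4 : ∑ b ∈ B, S b ≤ η * ∑ b ∈ B, (S b + η - 1) / η := by
      rw [Finset.mul_sum]
      exact Finset.sum_le_sum (fun b _ => INT_div _ _ hη)
    exact Nat.le_of_mul_le_mul_left (h1 ▸ (h3.trans h4)) hη
  obtain ⟨f1, hf1, hf1R⟩ := hall1
  -- (2)
  let Y0 : (Σ b : C, Fin ((S b + η - 1) / η)) → Prop := fun y => y.2.val < S y.1 / η
  have hall2 : ∃ g1 : {y // Y0 y} → Fin k, Function.Injective g1 ∧
      ∀ y, g1 y ∈ (univ.filter (fun i => 0 < N i y.1.1)) := by
    rw [← Finset.all_card_le_biUnion_card_iff_exists_injective]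
    intro J
    set B : Finset C := J.image (fun y => y.1.1) with hB
    set I : Finset (Fin k) := J.biUnion fun y => univ.filter (fun i => 0 < N i y.1.1) with hI
    have h1 : J.card ≤ ∑ b ∈ B, S b / η := by
      rw [Finset.card_eq_sum_card_image (fun y : {y // Y0 y} => y.1.1) J]
      apply Finset.sum_le_sum
      intro b _
      have h2 : (J.filter (fun y => y.1.1 = b)).card ≤ (Finset.range (S b / η)).card := by
        apply Finset.card_le_card_of_injOn (fun y => y.1.2.val)
        · intro y hy
          simp only [Finset.coe_filter, Set.mem_setOf_eq] at hy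
          have h3 := y.2
          simp only [Finset.coe_range, Set.mem_Iio]
          have h4 : y.1.2.val < S y.1.1 / η := h3
          have h4' : S y.1.1 / η = S b / η := by rw [hy.2]
          exact lt_of_lt_of_eq h4 h4'
        · intro y hy y' hy' hyy
          simp only [Finset.coe_filter, Set.mem_setOf_eq] at hy hy'
          obtain ⟨⟨b1, j1⟩, q1⟩ := y
          obtain ⟨⟨b2, j2⟩, q2⟩ := y'
          obtain ⟨_, e1⟩ := hy
          obtain ⟨_, e2⟩ := hy'
          simp only at e1 e2 hyy
          subst e1
          subst e2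
          have e3 : j1 = j2 := Fin.ext hyy
          subst e3
          rfl
      simpa using h2
    have h5 : η * ∑ b ∈ B, S b / η ≤ ∑ b ∈ B, S b := by
      rw [Finset.mul_sum]
      exact Finset.sum_le_sum (fun b _ => Nat.mul_div_le _ _)
    have h6 : ∑ b ∈ B, S b ≤ ∑ i ∈ I, ∑ b ∈ B, N i b := by
      rw [Finset.sum_comm (s := I) (t := B)]
      apply Finset.sum_le_sum
      intro b hb
      have h7 : S b = ∑ i ∈ I, N i b := by
        rw [hS]
        symm
        apply Finset.sum_subset (Finset.subset_univ _)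
        intro i _ hi
        by_contra h0
        obtain ⟨y, hy, hyb⟩ := Finset.mem_image.1 (hB ▸ hb)
        apply hi
        rw [hI, Finset.mem_biUnion]
        refine ⟨y, hy, ?_⟩
        simp only [Finset.mem_filter, Finset.mem_univ, true_and]
        rw [hyb]
        exact Nat.pos_of_ne_zero h0
      exact h7.le
    have h8 : ∑ i ∈ I, ∑ b ∈ B, N i b ≤ η * I.card := by
      have h9 : ∀ i ∈ I, ∑ b ∈ B, N i b ≤ η := by
        intro i _
        rw [← hN i]
        exact Finset.sum_le_sum_of_subset (Finset.subset_univ _)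
      calc ∑ i ∈ I, ∑ b ∈ B, N i b ≤ ∑ _i ∈ I, η := Finset.sum_le_sum h9
        _ = η * I.card := by rw [Finset.sum_const, smul_eq_mul, mul_comm]
    have h10 : η * J.card ≤ η * I.card :=
      (Nat.mul_le_mul_left η h1).trans (h5.trans (h6.trans h8))
    exact Nat.le_of_mul_le_mul_left h10 hη
  obtain ⟨g1, hg1, hg1R⟩ := hall2
  obtain ⟨h, hinj, hR, hsur⟩ := INT_comb Y0 (fun i y => 0 < N i y.1) f1 g1 hf1
    (fun i => by simpa using hf1R i) hg1 (fun y => by simpa using hg1R y)
  refine ⟨fun i => (h i).1, hR, ?_⟩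
  intro b
  constructor
  · have h1 : (Finset.range (S b / η)).card ≤ (univ.filter (fun i => (h i).1 = b)).card := by
      have hlt : ∀ j, j < S b / η → j < (S b + η - 1) / η := by
        intro j hj
        refine lt_of_lt_of_le hj (Nat.div_le_div_right ?_)
        omega
      have h2 : ∀ j ∈ Finset.range (S b / η), ∃ i, ∃ q : j < (S b + η - 1) / η,
          h i = ⟨b, ⟨j, q⟩⟩ := by
        intro j hj
        have hj' := Finset.mem_range.1 hj
        obtain ⟨i, hi⟩ := hsur ⟨b, ⟨j, hlt j hj'⟩⟩ hj'
        exact ⟨i, hlt j hj', hi⟩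
      by_cases hk : k = 0
      · subst hk
        have h3 : S b = 0 := by simp [hS]
        simp [h3]
      · have : Nonempty (Fin k) := ⟨⟨0, Nat.pos_of_ne_zero hk⟩⟩
        choose! u hu1 hu2 using h2
        apply Finset.card_le_card_of_injOn u
        · intro j hj
          have e := hu2 j hj
          simp only [Finset.coe_filter, Finset.mem_univ, true_and, Set.mem_setOf_eq]
          rw [e]
        · intro j hj j' hj' hjj
          have e := hu2 j hj
          have e' := hu2 j' hj'
          rw [hjj] at e
          rw [e] at e'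
          simpa using e'
    simpa using h1
  · have h1 : (univ.filter (fun i => (h i).1 = b)).card
        ≤ (univ : Finset (Fin ((S b + η - 1) / η))).card := by
      have h2 : ∀ i ∈ univ.filter (fun i => (h i).1 = b), ∃ j : Fin ((S b + η - 1) / η),
          h i = ⟨b, j⟩ := by
        intro i hi
        simp only [Finset.mem_filter, Finset.mem_univ, true_and] at hi
        rcases hh : h i with ⟨b1, j1⟩
        rw [hh] at hi
        simp only at hi
        subst hi
        exact ⟨j1, rfl⟩
      by_cases hne : (univ.filter (fun i => (h i).1 = b)).Nonempty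
      · obtain ⟨i0, hi0⟩ := hne
        obtain ⟨j0, _⟩ := h2 i0 hi0
        have : Nonempty (Fin ((S b + η - 1) / η)) := ⟨j0⟩
        choose! u hu using h2
        apply Finset.card_le_card_of_injOn u
        · intro i _
          exact Finset.mem_coe.2 (Finset.mem_univ _)
        · intro i hi i' hi' hii
          have e := hu i hi
          have e' := hu i' hi'
          rw [hii] at e
          exact hinj (e.trans e'.symm)
      · rw [Finset.not_nonempty_iff_eq_empty] at hne
        rw [hne]
        simp
    simpa using h1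

end Pool.Agent.Work.MP_1ce445_low
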