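import Pool.Agent.Work.MP_1ce445_low.Interface

/-!
Block STE: one step of the detachment (one vertex is split off a class).
-/

namespace Pool.Agent.Work.MP_1ce445_low

open Finset Pool.Agent.Work.MP_1ce445_co_56 Pool.Agent.Work.MP_1ce445_lin

lemma STE_num1 (S e m : ℕ) (he : 0 < e) (h : S ≤ e * m) : (S + e - 1) / e ≤ m := by
  have h1 : (S + e - 1) / e < m + 1 := by
    rw [Nat.div_lt_iff_lt_mul he]
    have : (m + 1) * e = e * m + e := by ring
    omega
  omega

lemma STE_num2 (S e g Z : ℕ) (he : 1 ≤ e) (h : S ≤ e * g) (hz : S / e ≤ Z) : S ≤ Z + (e - 1) * g := by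
  obtain ⟨m, rfl⟩ : ∃ m, e = m + 1 := ⟨e - 1, by omega⟩
  have hm : m + 1 - 1 = m := by omega
  rw [hm]
  by_contra hcon
  push Not at hcon
  have h1 : Z + 1 ≤ S / (m + 1) := by
    rw [Nat.le_div_iff_mul_le (by omega)]
    nlinarith
  omega

lemma STE_num3 (S e Z : ℕ) (he : 2 ≤ e) (h : S ≤ e * (e - 1)) (hev : Even S) (hz : S / e ≤ Z) :
    S ≤ 2 * Z + (e - 1) * (e - 2) := by
  obtain ⟨m, rfl⟩ : ∃ m, e = m + 2 := ⟨e - 2, by omega⟩
  have hm1 : m + 2 - 1 = m + 1 := by omega
  have hm2 : m + 2 - 2 = m := by omega
  rw [hm1] at h ⊢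
  rw [hm2]
  obtain ⟨s, hs⟩ := hev
  obtain ⟨u, hu⟩ : Even ((m + 1) * m) := by
    rw [mul_comm]
    exact Nat.even_mul_succ_self m
  by_contra hcon
  push Not at hcon
  have h1 : Z + 1 ≤ S / (m + 2) := by
    rw [Nat.le_div_iff_mul_le (by omega)]
    have hs1 : Z + u + 1 ≤ s := by omega
    obtain ⟨t, ht⟩ : ∃ t, s = t + u := ⟨s - u, by omega⟩
    have ht1 : Z + 1 ≤ t := by omega
    have h2 : m * S ≤ m * ((m + 2) * (m + 1)) := Nat.mul_le_mul_left m h
    have h3 : (m + 2) * t ≤ S := by
      subst hs
      subst ht
      nlinarith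
    calc (Z + 1) * (m + 2) ≤ t * (m + 2) := Nat.mul_le_mul_right _ ht1
      _ = (m + 2) * t := by ring
      _ ≤ S := h3
  omega

section

variable {C : Type} [Fintype C] [DecidableEq C]

lemma STE_sumind (k : ℕ) (f : Fin k → C) (b : C) :
    ∑ i, (if f i = b then 1 else 0) = (univ.filter (fun i => f i = b)).card := by
  rw [Finset.card_filter]

lemma STE_row_a (k : ℕ) (η : C → ℕ) (M : Fin k → C → C → ℕ) (a : C) (f : Fin k → C)
    (hO : Outline k η M) (hpos : ∀ i, 1 ≤ M i a (f i)) (hdia : ∀ i, f i = a → 2 ≤ M i a a) (i : Fin k) :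
    ∑ o, MS a f M i (some a) o = η a - 1 := by
  rw [Fintype.sum_option]
  have e1 : MS a f M i (some a) none = if f i = a then 1 else 0 := rfl
  have e2 : ∀ b', MS a f M i (some a) (some b') + (if f i = b' then 1 else 0) +
      (if b' = a then (if f i = a then 1 else 0) else 0) = M i a b' := by
    intro b'
    have e3 : MS a f M i (some a) (some b') =
        if b' = a then M i a a - 2 * (if f i = a then 1 else 0) else M i a b' - (if f i = b' then 1 else 0) := by
      simp [MS]
    rw [e3]
    by_cases hb : b' = a
    · subst hb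
      by_cases hfa : f i = b'
      · have := hdia i hfa
        simp [hfa]
        omega
      · simp [hfa]
    · simp only [hb, if_false]
      by_cases hfa : f i = b'
      · have := hpos i
        rw [hfa] at this
        simp [hfa]
        omega
      · simp [hfa]
  have e4 : ∑ b', MS a f M i (some a) (some b') + 1 + (if f i = a then 1 else 0) = η a := by
    rw [← hO.row i a, ← Finset.sum_congr rfl (fun b' _ => e2 b')]
    rw [Finset.sum_add_distrib, Finset.sum_add_distrib]
    simp
  rw [e1]
  omega

lemma STE_row_b (k : ℕ) (η : C → ℕ) (M : Fin k → C → C → ℕ) (a : C) (f : Fin k → C)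
    (hO : Outline k η M) (hpos : ∀ i, 1 ≤ M i a (f i)) (i : Fin k) (b : C) (hb : b ≠ a) :
    ∑ o, MS a f M i (some b) o = η b := by
  rw [Fintype.sum_option]
  have e1 : MS a f M i (some b) none = if f i = b then 1 else 0 := rfl
  have e2 : ∀ b', MS a f M i (some b) (some b') +
      (if b' = a then (if f i = b then 1 else 0) else 0) = M i b b' := by
    intro b'
    have e3 : MS a f M i (some b) (some b') =
        if b' = a then M i b a - (if f i = b then 1 else 0) else M i b b' := by
      simp [MS, hb]
    rw [e3]
    by_cases hb' : b' = a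
    · subst hb'
      by_cases hfa : f i = b
      · have := hpos i
        rw [hfa, hO.symm i b' b] at this
        simp [hfa]
        omega
      · simp [hfa]
    · simp [hb']
  have e4 : ∑ b', MS a f M i (some b) (some b') + (if f i = b then 1 else 0) = η b := by
    rw [← hO.row i b, ← Finset.sum_congr rfl (fun b' _ => e2 b')]
    rw [Finset.sum_add_distrib]
    simp
  rw [e1]
  omega

lemma STE_off_ab (k : ℕ) (η : C → ℕ) (M : Fin k → C → C → ℕ) (a : C) (f : Fin k → C)
    (hpos : ∀ i, 1 ≤ M i a (f i)) (b : C) (hb : b ≠ a) :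
    ∑ i, MS a f M i (some a) (some b) + (univ.filter (fun i => f i = b)).card = ∑ i, M i a b := by
  rw [← STE_sumind, ← Finset.sum_add_distrib]
  apply Finset.sum_congr rfl
  intro i _
  have e3 : MS a f M i (some a) (some b) = M i a b - (if f i = b then 1 else 0) := by
    simp [MS, hb]
  rw [e3]
  by_cases hfa : f i = b
  · have := hpos i
    rw [hfa] at this
    simp [hfa]
    omega
  · simp [hfa]

lemma STE_off_aa (k : ℕ) (M : Fin k → C → C → ℕ) (a : C) (f : Fin k → C)
    (hdia : ∀ i, f i = a → 2 ≤ M i a a) :
    ∑ i, MS a f M i (some a) (some a) + 2 * (univ.filter (fun i => f i = a)).card = ∑ i, M i a a := by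
  rw [← STE_sumind, Finset.mul_sum, ← Finset.sum_add_distrib]
  apply Finset.sum_congr rfl
  intro i _
  have e3 : MS a f M i (some a) (some a) = M i a a - 2 * (if f i = a then 1 else 0) := by
    simp [MS]
  rw [e3]
  by_cases hfa : f i = a
  · have := hdia i hfa
    simp [hfa]
    omega
  · simp [hfa]

lemma STE_symm (k : ℕ) (η : C → ℕ) (M : Fin k → C → C → ℕ) (a : C) (f : Fin k → C)
    (hO : Outline k η M) (i : Fin k) (o o' : Option C) : MS a f M i o o' = MS a f M i o' o := by
  rcases o with _ | b <;> rcases o' with _ | b'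
  · rfl
  · rfl
  · rfl
  · by_cases hb : b = a <;> by_cases hb' : b' = a
    · simp [MS, hb, hb']
    · simp [MS, hb, hb', hO.symm i a b']
    · simp [MS, hb, hb', hO.symm i b a]
    · simp [MS, hb, hb', hO.symm i b b']

end

theorem stmt_STE (hINT : Stmt_INT) : Stmt_STE := by
  intro C _ _ k η M a hO h2
  obtain ⟨f, hf1, hf2⟩ := hINT C k (η a) (fun i b => M i a b) (by omega) (fun i => hO.row i a)
  have hpos : ∀ i, 1 ≤ M i a (f i) := hf1
  have hdia : ∀ i, f i = a → 2 ≤ M i a a := by
    intro i hi
    have h1 := hpos i
    rw [hi] at h1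
    obtain ⟨c, hc⟩ := hO.even i a
    omega
  have hsymm := STE_symm k η M a f hO
  refine ⟨f, ?_, hpos, hdia⟩
  have hSa : ∑ i, M i a a ≤ η a * (η a - 1) := hO.diag a
  have hZa : (univ.filter (fun i => f i = a)).card ≤ η a - 1 :=
    (hf2 a).2.trans (STE_num1 _ _ _ (by omega) hSa)
  have hZb : ∀ b, b ≠ a → (univ.filter (fun i => f i = b)).card ≤ η b := fun b hb =>
    (hf2 b).2.trans (STE_num1 _ _ _ (by omega) (hO.off a b hb.symm))
  -- the pairs of the new vertex
  have hoffn : ∀ b, ∑ i, MS a f M i none (some b) ≤ etaS a η (some b) := by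
    intro b
    have e1 : ∑ i, MS a f M i none (some b) = (univ.filter (fun i => f i = b)).card := by
      rw [← STE_sumind]
      rfl
    rw [e1]
    by_cases hb : b = a
    · subst hb
      simpa [etaS] using hZa
    · simpa [etaS, hb] using hZb b hb
  -- the pairs of the old class
  have hoffa : ∀ b, b ≠ a → ∑ i, MS a f M i (some a) (some b) ≤ (η a - 1) * η b := by
    intro b hb
    have h3 := STE_off_ab k η M a f hpos b hb
    have h4 := STE_num2 (∑ i, M i a b) (η a) (η b) _ (by omega) (hO.off a b hb.symm) (hf2 b).1
    omega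
  refine ⟨?_, ?_, ?_, ?_, ?_, ?_⟩
  · -- pos
    rintro (_ | b)
    · exact le_refl 1
    · by_cases hb : b = a
      · subst hb
        simp only [etaS, if_true]
        omega
      · simp only [etaS, hb, if_false]
        exact hO.pos b
  · exact hsymm
  · -- even
    rintro i (_ | b)
    · exact ⟨0, rfl⟩
    · by_cases hb : b = a
      · subst hb
        have e3 : MS b f M i (some b) (some b) = M i b b - 2 * (if f i = b then 1 else 0) := by
          simp [MS]
        rw [e3]
        obtain ⟨c, hc⟩ := hO.even i b
        exact ⟨c - (if f i = b then 1 else 0), by omega⟩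
      · have e3 : MS a f M i (some b) (some b) = M i b b := by
          simp [MS, hb]
        rw [e3]
        exact hO.even i b
  · -- row
    rintro i (_ | b)
    · rw [Fintype.sum_option]
      have e1 : MS a f M i none none = 0 := rfl
      have e2 : ∀ b, MS a f M i none (some b) = if f i = b then 1 else 0 := fun b => rfl
      simp [e1, e2, etaS]
    · by_cases hb : b = a
      · subst hb
        rw [STE_row_a k η M b f hO hpos hdia i]
        simp [etaS]
      · rw [STE_row_b k η M a f hO hpos i b hb]
        simp [etaS, hb]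
  · -- off
    rintro (_ | b) (_ | b') hne
    · exact absurd rfl hne
    · have : etaS a η none = 1 := rfl
      rw [this, one_mul]
      exact hoffn b'
    · have : etaS a η none = 1 := rfl
      rw [this, mul_one]
      calc ∑ i, MS a f M i (some b) none = ∑ i, MS a f M i none (some b) :=
            Finset.sum_congr rfl (fun i _ => hsymm i _ _)
        _ ≤ etaS a η (some b) := hoffn b
    · have hbb : b ≠ b' := fun h => hne (by rw [h])
      by_cases hb : b = a
      · subst hb
        simpa [etaS, hbb.symm] using hoffa b' hbb.symm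
      · by_cases hb' : b' = a
        · subst hb'
          have h5 : ∑ i, MS b' f M i (some b) (some b') = ∑ i, MS b' f M i (some b') (some b) :=
            Finset.sum_congr rfl (fun i _ => hsymm i _ _)
          rw [h5]
          have h6 := hoffa b hb
          simp only [etaS, hb, if_false, if_true]
          rw [mul_comm]
          exact h6
        · have h5 : ∀ i, MS a f M i (some b) (some b') = M i b b' := fun i => by simp [MS, hb, hb']
          simp only [h5, etaS, hb, hb', if_false]
          exact hO.off b b' hbb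
  · -- diag
    rintro (_ | b)
    · have : ∀ i, MS a f M i none none = 0 := fun i => rfl
      simp [this]
    · by_cases hb : b = a
      · subst hb
        have h3 := STE_off_aa k M b f hdia
        have h4 := STE_num3 (∑ i, M i b b) (η b) _ h2 hSa
          (Finset.even_sum _ (fun i _ => hO.even i b)) (hf2 b).1
        simp only [etaS, if_true]
        have h5 : η b - 1 - 1 = η b - 2 := by omega
        rw [h5]
        omega
      · have h5 : ∀ i, MS a f M i (some b) (some b) = M i b b := fun i => by simp [MS, hb]
        simp only [h5, etaS, hb, if_false]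
        exact hO.diag b

end Pool.Agent.Work.MP_1ce445_low
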