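import Pool.Agent.Work.MP_1ce445_low.Interface2

/-!
MP_1ce445_co, block K4: an explicit type system with ten types (helper4).
-/

namespace Pool.Agent.Work.MP_1ce445_low

open Finset Pool.Agent.Work.MP_1ce445_co_56 Pool.Agent.Work.MP_1ce445_lin

/-- the types: the 2-sets and the 3-sets -/
def K4_T : Fin 10 → Finset (Fin 4) :=
  ![{0, 1}, {0, 2}, {0, 3}, {1, 2}, {1, 3}, {2, 3}, {0, 1, 2}, {0, 1, 3}, {0, 2, 3}, {1, 2, 3}]

/-- the weights -/
noncomputable def K4_w (x : ℝ) : Fin 10 → ℝ :=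
  ![x, x, x, x, x, x, (1 - 6 * x) / 4, (1 - 6 * x) / 4, (1 - 6 * x) / 4, (1 - 6 * x) / 4]

/-- disjoint pairs -/
def K4_dis (s t : Fin 10) : Bool := (s == 0 && t == 5) || (s == 5 && t == 0) || (s == 1 && t == 4) ||
  (s == 4 && t == 1) || (s == 2 && t == 3) || (s == 3 && t == 2)

/-- the 3-sets -/
def K4_inn (s : Fin 10) : Bool := s == 6 || s == 7 || s == 8 || s == 9

/-- the density -/
noncomputable def K4_d (ξ κ : ℝ) (s t : Fin 10) : ℝ :=
  if K4_dis s t = true then 0 else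
    if K4_inn s = true then (if K4_inn t = true then κ else ξ)
    else (if K4_inn t = true then ξ else 1)

theorem K4_dis_symm : ∀ s t, K4_dis s t = K4_dis t s := by decide

theorem K4_disj : ∀ s t, Disjoint (K4_T s) (K4_T t) → K4_dis s t = true := by decide

theorem K4_ne : ∀ s, (K4_T s).Nonempty := by decide

theorem K4_d_symm (ξ κ : ℝ) (s t : Fin 10) : K4_d ξ κ s t = K4_d ξ κ t s := by
  unfold K4_d
  rw [K4_dis_symm s t]
  split_ifs <;> rfl

theorem K4_d_nonneg {ξ κ : ℝ} (h0 : 0 ≤ ξ) (h1 : 0 ≤ κ) (s t : Fin 10) : 0 ≤ K4_d ξ κ s t := by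
  unfold K4_d
  split_ifs
  · exact le_rfl
  · exact h1
  · exact h0
  · exact h0
  · exact zero_le_one

theorem K4_d_le {ξ κ : ℝ} (h0 : ξ ≤ 1) (h1 : κ ≤ 1) (s t : Fin 10) : K4_d ξ κ s t ≤ 1 := by
  unfold K4_d
  split_ifs
  · exact zero_le_one
  · exact h1
  · exact h0
  · exact h0
  · exact le_rfl

theorem K4_w_pos {x : ℝ} (h0 : 0 < x) (h1 : x < 1 / 6) (s : Fin 10) : 0 < K4_w x s := by
  fin_cases s <;> simp [K4_w] <;> linarith

theorem K4_w_sum (x : ℝ) : ∑ s, K4_w x s = 1 := by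
  simp [K4_w, Fin.sum_univ_succ]
  ring

theorem K4_row {x D ξ κ : ℝ} (h2 : 5 * x + ξ * (1 - 6 * x) = D)
    (h3 : 6 * x * ξ + κ * (1 - 6 * x) = D) (s : Fin 10) :
    ∑ t, K4_d ξ κ s t * (K4_w x s * K4_w x t) = D * K4_w x s := by
  unfold K4_d
  fin_cases s <;> simp [K4_dis, K4_inn, K4_w, Fin.sum_univ_succ]
  · linear_combination x * h2
  · linear_combination x * h2
  · linear_combination x * h2
  · linear_combination x * h2
  · linear_combination x * h2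
  · linear_combination x * h2
  · linear_combination ((1 - 6 * x) / 4) * h3
  · linear_combination ((1 - 6 * x) / 4) * h3
  · linear_combination ((1 - 6 * x) / 4) * h3
  · linear_combination ((1 - 6 * x) / 4) * h3

/-- the type system -/
noncomputable def K4_S {x D ξ κ : ℝ} (h0 : 0 < x) (h1 : x < 1 / 6)
    (h2 : 5 * x + ξ * (1 - 6 * x) = D) (h3 : 6 * x * ξ + κ * (1 - 6 * x) = D)
    (h4 : 0 ≤ ξ) (h5 : ξ ≤ 1) (h6 : 0 ≤ κ) (h7 : κ ≤ 1) : TSys (Fin 10) 4 D where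
  T := K4_T
  w := K4_w x
  x := fun s t => K4_d ξ κ s t * (K4_w x s * K4_w x t)
  ne := K4_ne
  w_pos := K4_w_pos h0 h1
  w_sum := K4_w_sum x
  symm := fun s t => by rw [K4_d_symm ξ κ s t, mul_comm (K4_w x s)]
  nonneg := fun s t => mul_nonneg (K4_d_nonneg h4 h6 s t)
    (mul_nonneg (K4_w_pos h0 h1 s).le (K4_w_pos h0 h1 t).le)
  le := fun s t => by
    have h8 := mul_pos (K4_w_pos h0 h1 s) (K4_w_pos h0 h1 t)
    have h9 := mul_le_mul_of_nonneg_right (K4_d_le h5 h7 s t) h8.le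
    linarith
  zero := fun s t h => by
    unfold K4_d
    rw [if_pos (K4_disj s t h), zero_mul]
  row := K4_row h2 h3

/-- Block K4. -/
theorem stmt_K4 : Stmt_K4 := by
  intro x D h0 h1 hD hD1 hx h
  have hpos : 0 < 1 - 6 * x := by linarith
  have hne : 1 - 6 * x ≠ 0 := hpos.ne'
  obtain ⟨ξ, hξ⟩ : ∃ ξ : ℝ, ξ = (D - 5 * x) / (1 - 6 * x) := ⟨_, rfl⟩
  obtain ⟨κ, hκ⟩ : ∃ κ : ℝ, κ = (D - 6 * x * ξ) / (1 - 6 * x) := ⟨_, rfl⟩
  have e1 : ξ * (1 - 6 * x) = D - 5 * x := by rw [hξ]; exact div_mul_cancel₀ _ hne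
  have e2 : κ * (1 - 6 * x) = D - 6 * x * ξ := by rw [hκ]; exact div_mul_cancel₀ _ hne
  have hξ0 : 0 ≤ ξ := by
    rw [hξ]
    exact div_nonneg (by linarith) hpos.le
  have hξ1 : ξ ≤ 1 := by
    rw [hξ, div_le_one hpos]
    linarith
  have hκ0 : 0 ≤ κ := by
    rw [hκ]
    refine div_nonneg ?_ hpos.le
    have h8 : 0 ≤ (D - 6 * x * ξ) * (1 - 6 * x) := by
      have : (D - 6 * x * ξ) * (1 - 6 * x) = D * (1 - 6 * x) - 6 * x * (ξ * (1 - 6 * x)) := by ring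
      rw [this, e1]
      linarith
    exact nonneg_of_mul_nonneg_left h8 hpos
  have hκ1 : κ ≤ 1 := by
    rw [hκ, div_le_one hpos]
    have h8 : 0 ≤ (1 - 6 * x - (D - 6 * x * ξ)) * (1 - 6 * x) := by
      have : (1 - 6 * x - (D - 6 * x * ξ)) * (1 - 6 * x) =
          (1 - 6 * x - D) * (1 - 6 * x) + 6 * x * (ξ * (1 - 6 * x)) := by ring
      rw [this, e1]
      nlinarith [mul_nonneg h0.le (sub_nonneg.2 hx), mul_self_nonneg (1 - D - x),
        mul_nonneg (sub_nonneg.2 hD) (sub_nonneg.2 hD1.le)]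
    have h9 := nonneg_of_mul_nonneg_left h8 hpos
    linarith
  refine ⟨Fin 10, inferInstance, inferInstance, 4,
    K4_S h0 h1 (by rw [e1]; ring) (by rw [e2]; ring) hξ0 hξ1 hκ0 hκ1, ?_⟩
  have h2 : (K4_S (D := D) h0 h1 (by rw [e1]; ring) (by rw [e2]; ring) hξ0 hξ1 hκ0 hκ1).p =
      fun a => ∑ s, if a ∈ K4_T s then K4_w x s else 0 := rfl
  unfold TSys.val
  rw [h2]
  simp [Fin.prod_univ_succ, Fin.sum_univ_succ, K4_T, K4_w]
  ring

end Pool.Agent.Work.MP_1ce445_low
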