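import Pool.Agent.Work.MP_1ce445_low.Interface2

/-!
# Block K4A (MP_1ce445_co, lower bound): the six 2-sets of a 4-set (helper88)
-/

namespace Pool.Agent.Work.MP_1ce445_low

open Finset Pool.Agent.Work.MP_1ce445_co_56 Pool.Agent.Work.MP_1ce445_lin

/-- the six 2-sets -/
def K4A_T : Fin 6 → Finset (Fin 4) := ![{0, 1}, {0, 2}, {0, 3}, {1, 2}, {1, 3}, {2, 3}]

theorem K4A_ne : ∀ s, (K4A_T s).Nonempty := by decide

theorem K4A_row : ∀ s, (univ.filter (fun t => ¬ Disjoint (K4A_T s) (K4A_T t))).card = 5 := by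
  decide

theorem K4A_deg : ∀ a : Fin 4, (univ.filter (fun s => a ∈ K4A_T s)).card = 3 := by decide

/-- the type system -/
noncomputable def K4A_S : TSys (Fin 6) 4 (5 / 6) where
  T := K4A_T
  w := fun _ => 1 / 6
  x := fun s t => if ¬ Disjoint (K4A_T s) (K4A_T t) then 1 / 36 else 0
  ne := K4A_ne
  w_pos := fun _ => by norm_num
  w_sum := by simp
  symm := fun s t => by simp only [disjoint_comm]
  nonneg := fun s t => by split_ifs <;> norm_num
  le := fun s t => by split_ifs <;> norm_num
  zero := fun s t h => by rw [if_neg (not_not.2 h)]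
  row := fun s => by
    rw [← Finset.sum_filter, Finset.sum_const, K4A_row]
    norm_num

theorem stmt_K4A : Stmt_K4A := by
  refine ⟨Fin 6, inferInstance, inferInstance, 4, K4A_S, ?_⟩
  have h : ∀ a, K4A_S.p a = 1 / 2 := by
    intro a
    show (∑ s, if a ∈ K4A_T s then (1 / 6 : ℝ) else 0) = 1 / 2
    rw [← Finset.sum_filter, Finset.sum_const, K4A_deg]
    norm_num
  unfold TSys.val
  rw [Finset.prod_congr rfl (fun a _ => by rw [h a])]
  rw [Finset.prod_const, Finset.card_univ, Fintype.card_fin]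
  norm_num

end Pool.Agent.Work.MP_1ce445_low
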