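import Pool.Agent.Work.MP_1ce445_low.Interface2

/-!
MP_1ce445_co, block PH: an explicit type system with seven types.
-/

namespace Pool.Agent.Work.MP_1ce445_low

open Finset Pool.Agent.Work.MP_1ce445_co_56 Pool.Agent.Work.MP_1ce445_lin

/-- the types -/
def PH_T : Fin 7 → Finset (Fin 4) := ![{0, 1}, {0, 2}, {0, 3}, {1, 2}, {1, 3}, {0, 2, 3}, {1, 2, 3}]

/-- the weights -/
noncomputable def PH_w (c : ℝ) : Fin 7 → ℝ := ![1 / 2 - c, c, c, c, c, (1 - 6 * c) / 4, (1 - 6 * c) / 4]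

/-- disjoint pairs -/
def PH_dis (s t : Fin 7) : Bool := (s == 1 && t == 4) || (s == 4 && t == 1) || (s == 2 && t == 3) ||
  (s == 3 && t == 2)

/-- inner types -/
def PH_inn (s : Fin 7) : Bool := s == 0 || s == 5 || s == 6

/-- the density -/
noncomputable def PH_d (c : ℝ) (s t : Fin 7) : ℝ :=
  if PH_dis s t = true then 0 else
    if PH_inn s = true ∧ PH_inn t = true then (1 - 5 * c) / (1 - 4 * c) else 1

theorem PH_dis_symm : ∀ s t, PH_dis s t = PH_dis t s := by decide

theorem PH_disj : ∀ s t, Disjoint (PH_T s) (PH_T t) → PH_dis s t = true := by decide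

theorem PH_ne : ∀ s, (PH_T s).Nonempty := by decide

theorem PH_d_nonneg (c : ℝ) (h0 : 0 < c) (h1 : c < 1 / 6) (s t : Fin 7) : 0 ≤ PH_d c s t := by
  unfold PH_d
  split_ifs
  · exact le_rfl
  · exact div_nonneg (by linarith) (by linarith)
  · exact zero_le_one

theorem PH_d_le (c : ℝ) (h0 : 0 < c) (h1 : c < 1 / 6) (s t : Fin 7) : PH_d c s t ≤ 1 := by
  unfold PH_d
  split_ifs
  · exact zero_le_one
  · rw [div_le_one (by linarith)]
    linarith
  · exact le_rfl

theorem PH_w_pos (c : ℝ) (h0 : 0 < c) (h1 : c < 1 / 6) (s : Fin 7) : 0 < PH_w c s := by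
  fin_cases s <;> simp [PH_w] <;> linarith

theorem PH_row (c : ℝ) (h0 : 0 < c) (h1 : c < 1 / 6) (s : Fin 7) :
    ∑ t, PH_d c s t * (PH_w c s * PH_w c t) = (1 - c) * PH_w c s := by
  have h : (1 - 4 * c) ≠ 0 := by
    have : 0 < 1 - 4 * c := by linarith
    exact this.ne'
  have hk : (1 - 5 * c) / (1 - 4 * c) * (1 - 4 * c) = 1 - 5 * c := div_mul_cancel₀ _ h
  have h5 : ∀ t, PH_d c s t = if PH_dis s t = true then 0 else
    if PH_inn s = true ∧ PH_inn t = true then (1 - 5 * c) / (1 - 4 * c) else 1 := fun t => rfl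
  simp only [h5]
  generalize (1 - 5 * c) / (1 - 4 * c) = κ at hk
  fin_cases s <;> simp [PH_dis, PH_inn, PH_w, Fin.sum_univ_succ]
  · linear_combination (1 / 2 - c) * hk
  · ring
  · ring
  · ring
  · ring
  · linear_combination ((1 - 6 * c) / 4) * hk
  · linear_combination ((1 - 6 * c) / 4) * hk

/-- the type system -/
noncomputable def PH_S (c : ℝ) (h0 : 0 < c) (h1 : c < 1 / 6) : TSys (Fin 7) 4 (1 - c) where
  T := PH_T
  w := PH_w c
  x := fun s t => PH_d c s t * (PH_w c s * PH_w c t)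
  ne := PH_ne
  w_pos := PH_w_pos c h0 h1
  w_sum := by
    simp [PH_w, Fin.sum_univ_succ]
    ring
  symm := fun s t => by
    have h2 : PH_d c s t = PH_d c t s := by
      unfold PH_d
      rw [PH_dis_symm s t]
      simp only [and_comm]
    show PH_d c s t * (PH_w c s * PH_w c t) = PH_d c t s * (PH_w c t * PH_w c s)
    rw [h2]
    ring
  nonneg := fun s t => mul_nonneg (PH_d_nonneg c h0 h1 s t)
    (mul_nonneg (PH_w_pos c h0 h1 s).le (PH_w_pos c h0 h1 t).le)
  le := fun s t => by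
    have h2 := mul_pos (PH_w_pos c h0 h1 s) (PH_w_pos c h0 h1 t)
    have h3 := mul_le_mul_of_nonneg_right (PH_d_le c h0 h1 s t) h2.le
    show PH_d c s t * (PH_w c s * PH_w c t) ≤ PH_w c s * PH_w c t
    linarith
  zero := fun s t h => by
    show PH_d c s t * (PH_w c s * PH_w c t) = 0
    unfold PH_d
    rw [if_pos (PH_disj s t h), zero_mul]
  row := PH_row c h0 h1

/-- Block PH. -/
theorem stmt_PH : Stmt_PH := by
  intro c h0 h1
  refine ⟨Fin 7, inferInstance, inferInstance, 4, PH_S c h0 h1, ?_⟩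
  have h2 : (PH_S c h0 h1).p = fun a => ∑ s, if a ∈ PH_T s then PH_w c s else 0 := rfl
  unfold TSys.val
  rw [h2]
  simp [Fin.prod_univ_succ, Fin.sum_univ_succ, PH_T, PH_w]
  ring

end Pool.Agent.Work.MP_1ce445_low
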