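import Pool.Agent.Work.MP_1ce445_low.Interface2

/-!
MP_1ce445_co, block PS: an explicit type system with ten types for `1/7 ≤ c < 1/6`.

With `M = √(c (1 - 6c))`: the pairs `{j,3}` of weight `c`, the other pairs of weight `(1 - 3c - M)/3`, three triples of weight
`1/6 - c + M/12` and the triple `{0,1,2}` of weight `3c - 1/2 + 3M/4`. Graph: empty between the triples, the density
`(2c + M)/(3c)` between the pairs `{j,3}` and the triples, full between all other types which meet. Value `((2 - M)/4)^4`.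
-/

namespace Pool.Agent.Work.MP_1ce445_low

open Finset Pool.Agent.Work.MP_1ce445_co_56 Pool.Agent.Work.MP_1ce445_lin

/-- The statement of the block PS. -/
def Stmt_PS : Prop :=
  ∀ c : ℝ, 1 / 7 ≤ c → c < 1 / 6 → HasVal (1 - c) (((2 - √(c * (1 - 6 * c))) / 4) ^ 4)

/-- the types: the 2-sets and the 3-sets -/
def PS_T : Fin 10 → Finset (Fin 4) :=
  ![{0, 3}, {1, 3}, {2, 3}, {1, 2}, {0, 2}, {0, 1}, {1, 2, 3}, {0, 2, 3}, {0, 1, 3}, {0, 1, 2}]

/-- the weights -/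
noncomputable def PS_w (c M : ℝ) : Fin 10 → ℝ :=
  ![c, c, c, (1 - 3 * c - M) / 3, (1 - 3 * c - M) / 3, (1 - 3 * c - M) / 3, 1 / 6 - c + M / 12,
    1 / 6 - c + M / 12, 1 / 6 - c + M / 12, 3 * c - 1 / 2 + 3 * M / 4]

/-- disjoint pairs -/
def PS_dis (s t : Fin 10) : Bool := (s == 0 && t == 3) || (s == 3 && t == 0) || (s == 1 && t == 4) ||
  (s == 4 && t == 1) || (s == 2 && t == 5) || (s == 5 && t == 2)

/-- the 3-sets -/
def PS_inn (s : Fin 10) : Bool := s == 6 || s == 7 || s == 8 || s == 9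

/-- the full pairs -/
def PS_ful (s : Fin 10) : Bool := s == 0 || s == 1 || s == 2

/-- the density -/
noncomputable def PS_d (ξ : ℝ) (s t : Fin 10) : ℝ :=
  if PS_dis s t = true then 0 else
    if PS_inn s = true then (if PS_inn t = true then 0 else (if PS_ful t = true then ξ else 1))
    else (if PS_inn t = true then (if PS_ful s = true then ξ else 1) else 1)

theorem PS_dis_symm : ∀ s t, PS_dis s t = PS_dis t s := by decide

theorem PS_disj : ∀ s t, Disjoint (PS_T s) (PS_T t) → PS_dis s t = true := by decide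

theorem PS_ne : ∀ s, (PS_T s).Nonempty := by decide

theorem PS_d_symm (ξ : ℝ) (s t : Fin 10) : PS_d ξ s t = PS_d ξ t s := by
  unfold PS_d
  rw [PS_dis_symm s t]
  split_ifs <;> rfl

theorem PS_d_nonneg {ξ : ℝ} (h0 : 0 ≤ ξ) (s t : Fin 10) : 0 ≤ PS_d ξ s t := by
  unfold PS_d
  split_ifs <;> first | exact le_rfl | exact h0 | exact zero_le_one

theorem PS_d_le {ξ : ℝ} (h0 : ξ ≤ 1) (s t : Fin 10) : PS_d ξ s t ≤ 1 := by
  unfold PS_d
  split_ifs <;> first | exact zero_le_one | exact h0 | exact le_rfl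

theorem PS_w_pos {c M : ℝ} (h0 : 0 < c) (h1 : 0 < 1 - 3 * c - M) (h2 : 0 < 1 / 6 - c + M / 12)
    (h3 : 0 < 3 * c - 1 / 2 + 3 * M / 4) (s : Fin 10) : 0 < PS_w c M s := by
  fin_cases s <;> simp [PS_w] <;> linarith

theorem PS_w_sum (c M : ℝ) : ∑ s, PS_w c M s = 1 := by
  simp [PS_w, Fin.sum_univ_succ]
  ring

theorem PS_row {c M ξ : ℝ} (h2 : 3 * c * ξ = 2 * c + M) (h3 : M * ξ = 2 / 3 * M + 1 / 3 - 2 * c)
    (s : Fin 10) :
    ∑ t, PS_d ξ s t * (PS_w c M s * PS_w c M t) = (1 - c) * PS_w c M s := by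
  unfold PS_d
  fin_cases s <;> simp [PS_dis, PS_inn, PS_ful, PS_w, Fin.sum_univ_succ]
  · linear_combination c * h3
  · linear_combination c * h3
  · linear_combination c * h3
  · ring
  · ring
  · ring
  · linear_combination (1 / 6 - c + M / 12) * h2
  · linear_combination (1 / 6 - c + M / 12) * h2
  · linear_combination (1 / 6 - c + M / 12) * h2
  · linear_combination (3 * c - 1 / 2 + 3 * M / 4) * h2

/-- the type system -/
noncomputable def PS_S {c M ξ : ℝ} (h0 : 0 < c) (h1 : 0 < 1 - 3 * c - M) (h2 : 0 < 1 / 6 - c + M / 12)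
    (h3 : 0 < 3 * c - 1 / 2 + 3 * M / 4) (h4 : 3 * c * ξ = 2 * c + M)
    (h5 : M * ξ = 2 / 3 * M + 1 / 3 - 2 * c)
    (h6 : 0 ≤ ξ) (h7 : ξ ≤ 1) : TSys (Fin 10) 4 (1 - c) where
  T := PS_T
  w := PS_w c M
  x := fun s t => PS_d ξ s t * (PS_w c M s * PS_w c M t)
  ne := PS_ne
  w_pos := PS_w_pos h0 h1 h2 h3
  w_sum := PS_w_sum c M
  symm := fun s t => by rw [PS_d_symm ξ s t, mul_comm (PS_w c M s)]
  nonneg := fun s t => mul_nonneg (PS_d_nonneg h6 s t)
    (mul_nonneg (PS_w_pos h0 h1 h2 h3 s).le (PS_w_pos h0 h1 h2 h3 t).le)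
  le := fun s t => by
    have h8 := mul_pos (PS_w_pos h0 h1 h2 h3 s) (PS_w_pos h0 h1 h2 h3 t)
    have h9 := mul_le_mul_of_nonneg_right (PS_d_le h7 s t) h8.le
    linarith
  zero := fun s t h => by
    unfold PS_d
    rw [if_pos (PS_disj s t h), zero_mul]
  row := PS_row h4 h5

/-- Block PS. -/
theorem stmt_PS : Stmt_PS := by
  intro c h1 h2
  obtain ⟨M, hM⟩ : ∃ M : ℝ, M = √(c * (1 - 6 * c)) := ⟨_, rfl⟩
  have hc : 0 < c := by linarith
  have hc6 : 0 < 1 - 6 * c := by linarith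
  have hM2 : M * M = c * (1 - 6 * c) := by
    rw [hM]; exact Real.mul_self_sqrt (mul_pos hc hc6).le
  have hM0 : 0 < M := by
    rw [hM]; exact Real.sqrt_pos.2 (mul_pos hc hc6)
  have hMc : M ≤ c := by
    by_contra h
    have h' : c < M := not_le.1 h
    nlinarith
  have hM3 : 1 - 6 * c < 3 * M / 2 := by
    by_contra h
    have h' : 3 * M / 2 ≤ 1 - 6 * c := not_lt.1 h
    nlinarith
  obtain ⟨ξ, hξ⟩ : ∃ ξ : ℝ, ξ = (2 * c + M) / (3 * c) := ⟨_, rfl⟩
  have h3c : 3 * c ≠ 0 := by positivity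
  have e1 : 3 * c * ξ = 2 * c + M := by rw [hξ]; field_simp
  have e2 : M * ξ = 2 / 3 * M + 1 / 3 - 2 * c := by
    have h : M * ξ = (2 * c * M + M * M) / (3 * c) := by rw [hξ]; ring
    rw [h, hM2, div_eq_iff h3c]
    ring
  have hξ0 : 0 ≤ ξ := by rw [hξ]; positivity
  have hξ1 : ξ ≤ 1 := by
    rw [hξ, div_le_one (by positivity)]
    linarith
  have g1 : 0 < 1 - 3 * c - M := by linarith
  have g2 : 0 < 1 / 6 - c + M / 12 := by linarith
  have g3 : 0 < 3 * c - 1 / 2 + 3 * M / 4 := by linarith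
  refine ⟨Fin 10, inferInstance, inferInstance, 4, PS_S hc g1 g2 g3 e1 e2 hξ0 hξ1, ?_⟩
  have h3 : (PS_S hc g1 g2 g3 e1 e2 hξ0 hξ1).p =
      fun a => ∑ s, if a ∈ PS_T s then PS_w c M s else 0 := rfl
  unfold TSys.val
  rw [h3, ← hM]
  simp [Fin.prod_univ_succ, Fin.sum_univ_succ, PS_T, PS_w]
  ring

end Pool.Agent.Work.MP_1ce445_low
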