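import Pool.Agent.Work.MP_1ce445_low.Interface2

/-!
Block SQ of MP_1ce445_co: an explicit type system with value `c ^ 2`.
-/

namespace Pool.Agent.Work.MP_1ce445_low

open Finset Pool.Agent.Work.MP_1ce445_co_56 Pool.Agent.Work.MP_1ce445_lin

/-- the types -/
def SQ_T : Fin 3 → Finset (Fin 2) := ![{0}, {1}, {0, 1}]

/-- the weights -/
noncomputable def SQ_w (c : ℝ) : Fin 3 → ℝ := ![c, c, 1 - 2 * c]

/-- the graph -/
noncomputable def SQ_x (c : ℝ) : Fin 3 → Fin 3 → ℝ :=
  ![![c * c, 0, c * (1 - 2 * c)], ![0, c * c, c * (1 - 2 * c)],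
    ![c * (1 - 2 * c), c * (1 - 2 * c), (1 - 3 * c) * (1 - 2 * c)]]

/-- the type system -/
noncomputable def SQ_S (c : ℝ) (h0 : 0 < c) (h1 : c ≤ 1 / 3) : TSys (Fin 3) 2 (1 - c) where
  T := SQ_T
  w := SQ_w c
  x := SQ_x c
  ne := by
    intro s
    fin_cases s
    · exact ⟨0, by decide⟩
    · exact ⟨1, by decide⟩
    · exact ⟨0, by decide⟩
  w_pos := by
    intro s
    fin_cases s <;> simp [SQ_w] <;> linarith
  w_sum := by
    simp [SQ_w, Fin.sum_univ_three]
    ring
  symm := by
    intro s t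
    fin_cases s <;> fin_cases t <;> simp [SQ_x]
  nonneg := by
    have a1 : 0 ≤ c * c := mul_nonneg h0.le h0.le
    have a2 : 0 ≤ c * (1 - 2 * c) := mul_nonneg h0.le (by linarith)
    have a3 : 0 ≤ (1 - 3 * c) * (1 - 2 * c) := mul_nonneg (by linarith) (by linarith)
    intro s t
    fin_cases s <;> fin_cases t <;>
      first
        | exact a1
        | exact le_refl (0 : ℝ)
        | exact a2
        | exact a3
  le := by
    have a1 : (0 : ℝ) ≤ c * c := mul_nonneg h0.le h0.le
    have a3 : (1 - 3 * c) * (1 - 2 * c) ≤ (1 - 2 * c) * (1 - 2 * c) :=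
      mul_le_mul_of_nonneg_right (by linarith) (by linarith)
    have a4 : c * (1 - 2 * c) ≤ (1 - 2 * c) * c := by linarith [mul_comm c (1 - 2 * c)]
    intro s t
    fin_cases s <;> fin_cases t <;>
      first
        | exact le_refl (c * c)
        | exact a1
        | exact le_refl (c * (1 - 2 * c))
        | exact a4
        | exact a3
  zero := by
    intro s t
    fin_cases s <;> fin_cases t <;>
      first
        | (intro _; rfl)
        | (intro h; exact absurd h (by decide))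
  row := by
    intro s
    fin_cases s <;> simp [SQ_x, SQ_w, Fin.sum_univ_three] <;> ring

theorem stmt_SQ : Stmt_SQ := by
  intro c h0 h1
  refine ⟨Fin 3, inferInstance, inferInstance, 2, SQ_S c h0 h1, ?_⟩
  have hp0 : (SQ_S c h0 h1).p 0 = 1 - c := by
    have e0 : (0 : Fin 2) ∈ SQ_T 0 := by decide
    have e1 : (0 : Fin 2) ∉ SQ_T 1 := by decide
    have e2 : (0 : Fin 2) ∈ SQ_T 2 := by decide
    change (∑ s : Fin 3, if (0 : Fin 2) ∈ SQ_T s then SQ_w c s else 0) = 1 - c
    rw [Fin.sum_univ_three, if_pos e0, if_neg e1, if_pos e2]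
    simp [SQ_w]
    ring
  have hp1 : (SQ_S c h0 h1).p 1 = 1 - c := by
    have e0 : (1 : Fin 2) ∉ SQ_T 0 := by decide
    have e1 : (1 : Fin 2) ∈ SQ_T 1 := by decide
    have e2 : (1 : Fin 2) ∈ SQ_T 2 := by decide
    change (∑ s : Fin 3, if (1 : Fin 2) ∈ SQ_T s then SQ_w c s else 0) = 1 - c
    rw [Fin.sum_univ_three, if_neg e0, if_pos e1, if_pos e2]
    simp [SQ_w]
    ring
  unfold TSys.val
  rw [Fin.prod_univ_two, hp0, hp1]
  ring

end Pool.Agent.Work.MP_1ce445_low
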