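import Pool.Agent.Work.MP_1ce445_low.Interface2
import Pool.Agent.Work.MP_1ce445_lin.Interface2

/-!
THEOREM LIM for MP_1ce445_co: for every `c` in `(0, 1)` the leading constant exists,
`P n k = (FF c + o(1)) (2 ⌊n/2⌋) ^ k` as `k / n → c`, and `FF c` is the supremum of the values of the finite type systems with
parameter `D = 1 - c`. Blocks: SCL VAL MRG ABS UPS LIMU LIML LIM CNT UNF.
-/

namespace Pool.Agent.Work.MP_1ce445_low

open Finset Pool.Agent.Work.MP_1ce445_co_56 Pool.Agent.Work.MP_1ce445_lin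

/-- the leading constant at `k / n = c`: supremum of the values of the type systems with parameter `1 - c` -/
noncomputable def FF (c : ℝ) : ℝ := sSup {v : ℝ | HasVal (1 - c) v}

/-- SCL (30 lines): multiply `x` by `D' / D`. -/
def Stmt_SCL : Prop := ∀ D D' v : ℝ, 0 < D' → D' ≤ D → HasVal D v → HasVal D' v

/-- VAL (30 lines): `0 ≤ p a ≤ ∑ w = 1`. -/
def Stmt_VAL : Prop := ∀ D v : ℝ, HasVal D v → 0 ≤ v ∧ v ≤ 1

/-- MRG (200 lines). Elements with small frequency are merged. Big elements (`j ∈ M`, `θ ≤ q j`): at most `5 / θ` of them,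
each is alone in its group. Small elements: `g j = ⌊(∑ i ∈ M small, i < j, q i) / θ⌋`, at most `5 / θ + 1` groups, the sum
`s` of a group is `≤ 2θ` (the partial sums before its elements lie in an interval of length `θ`, the last element is `< θ`).
(Elements outside `M` go anywhere.) `m ≤ 10 / θ + 2`. For a group with sum `s` of small elements
`∏ (1 - q j) ≤ exp (-s) ≤ 1 - s + s²/2 ≤ (1 - s) + θ s`, for a group with one element equality. The product over all groups: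
both factors in `[0, 1]`, so the difference of the products is at most the sum of the differences, `≤ θ ∑ s ≤ 5θ`. -/
def Stmt_MRG : Prop :=
  ∀ (θ : ℝ) (κ : ℕ) (M : Finset (Fin κ)) (q : Fin κ → ℝ), 0 < θ → θ ≤ 1 → (∀ j, 0 ≤ q j) → (∀ j, q j ≤ 1) →
    ∑ j ∈ M, q j ≤ 5 →
    ∃ (m : ℕ) (g : Fin κ → Fin m), (m : ℝ) ≤ 10 / θ + 2 ∧
      ∏ j ∈ M, (1 - q j) ≤ ∏ x : Fin m, max 0 (1 - ∑ j ∈ M.filter (fun j => g j = x), q j) + 5 * θ

open Classical in
/-- ABS (200 lines; the computation of PER). A nearly regular graph becomes a type system. Index set `Option V`, weights `e`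
for `none` (type `univ`) and `(1 - e)/N` for `v : V`, `N = card V`. `D v = deg v / N ∈ [D - s, D + s]`.
`x (some v) (some w) = ((1 - e)/N)²` if `W v w`, else `0`; `x (some v) none = ((1 - e)/N) e β v`,
`β v = (D - (1 - e) D v)/e = D v + (D - D v)/e ∈ [0, 1]` as `s (1 + 1/e) ≤ min D (1 - D)`; `x none none = e (D - (1 - e) β)`,
`β` = mean of `β v = (D - (1 - e) D1)/e`, `D1` = mean of `D v`; `D - (1 - e) β = D1 e - (1 - 2e)(D - D1)/e ∈ [0, e]` as
`s (1 + e²) ≤ min D (1 - D) e²`. `T v` is nonempty because `deg v > 0`. (`W` need not be irreflexive.)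
Value `∏ (1 - (1 - e) p x - e) = (1 - e)^m ∏ (1 - p x) ≥ ∏ (1 - p x) - m e`. -/
def Stmt_ABS : Prop :=
  ∀ (D e s : ℝ) (V : Type) [Fintype V] [DecidableEq V] (m : ℕ) (T : V → Finset (Fin m)) (W : V → V → Prop),
    0 < D → D < 1 → 0 < e → e ≤ 1 / 2 → 0 ≤ s → 2 * s ≤ D * e ^ 2 → 2 * s ≤ (1 - D) * e ^ 2 →
    0 < Fintype.card V → (∀ v w, W v w → W w v) → (∀ v w, W v w → (T v ∩ T w).Nonempty) →
    (∀ v, |((univ.filter (fun w => W v w)).card : ℝ) - D * Fintype.card V| ≤ s * Fintype.card V) →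
    ∃ v : ℝ, HasVal D v ∧
      ∏ x : Fin m, (1 - ((univ.filter (fun u => x ∈ T u)).card : ℝ) / Fintype.card V) - m * e ≤ v

open Classical in
/-- UPS (120 lines; uses VAL MRG ABS). `θ = ε / 10`, then `e ≤ 1/2` with `(10/θ + 2) e ≤ ε / 4`, then
`s = min D (1 - D) e² / 2`. `T' v = (T v).image g`; `x ∈ T' v` implies `j ∈ T v` for some `j ∈ M`, `g j = x`, so the frequency
`p' x ≤ min 1 (∑ q j)` and `max 0 (1 - ∑ q j) ≤ 1 - p' x`. `(T' v ∩ T' w)` is nonempty if `T v ∩ T w` is.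
`v ≤ FF (1 - D)` by `le_csSup` (bounded above by VAL). -/
def Stmt_UPS : Prop :=
  ∀ (D ε : ℝ), 0 < D → D < 1 → 0 < ε → ∃ s : ℝ, 0 < s ∧
    ∀ (V : Type) [Fintype V] [DecidableEq V] (κ : ℕ) (M : Finset (Fin κ)) (T : V → Finset (Fin κ))
      (W : V → V → Prop), 0 < Fintype.card V → (∀ v, T v ⊆ M) → (∀ v w, W v w → W w v) →
      (∀ v w, W v w → (T v ∩ T w).Nonempty) →
      (∀ v, |((univ.filter (fun w => W v w)).card : ℝ) - D * Fintype.card V| ≤ s * Fintype.card V) →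
      ∑ j ∈ M, ((univ.filter (fun u => j ∈ T u)).card : ℝ) / Fintype.card V ≤ 5 →
      ∏ j ∈ M, (1 - ((univ.filter (fun u => j ∈ T u)).card : ℝ) / Fintype.card V) ≤ FF (1 - D) + ε

/-- LIMU (300 lines; uses COR2 (MP_1ce445_lin) A27 VAL UPS; copy of `UP2.lean` (b) in MP_1ce445_lin with UPS instead of ALL).
`D = 1 - c`. `FF c ≥ 1/27 > e^{-4}` by A27. `s₁` from UPS for `ε / 8`; then `s`, `δ` small (`δ + 20 s ≤ s₁ / 2`), then `R`, `t`
(with `t |M|` small), then `n` large. First alternative of COR2: `≤ e^{-4}`. Second: `V = {v // v ∈ Vg}`, `(1 - s) n ≤ |V|`;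
for `v ∈ Vg` the degree inside `Vg` lies between `n - 1 - k - 2 s n` and `n - 1 - k + |M|`, so it differs from `D |V|` by at
most `s₁ |V|` (`|k - c n| ≤ δ n`). If `∑_M q_j > 5`: `∏_M (1 - p_j + t) ≤ exp (-5 (1 - s) + t |M|) ≤ e^{-4}`. Otherwise UPS
gives `∏_M (1 - q_j) ≤ FF c + ε / 8`, and `∏ (1 - p_j + t) ≤ ∏ (1 - q_j) + 5 s + ((1 + t)^|M| - 1)` as in `UP2.lean`. -/
def Stmt_LIMU : Prop :=
  ∀ c ε : ℝ, 0 < c → c < 1 → 0 < ε → ∃ (δ : ℝ) (n0 : ℕ), 0 < δ ∧ ∀ n k : ℕ, n0 ≤ n → |(k : ℝ) - c * n| ≤ δ * n →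
    (P n k : ℝ) ≤ (FF c + ε) * (NN n : ℝ) ^ k

/-- LIML (40 lines; uses GEN A27 VAL): choose a type system with value `≥ FF c - ε / 2` (`exists_lt_of_lt_csSup`). -/
def Stmt_LIML : Prop :=
  ∀ c ε : ℝ, 0 < c → c < 1 → 0 < ε → ∃ (δ : ℝ) (n0 : ℕ), 0 < δ ∧ ∀ n k : ℕ, n0 ≤ n → |(k : ℝ) - c * n| ≤ δ * n →
    (FF c - ε) * (NN n : ℝ) ^ k ≤ (P n k : ℝ)

/-- CNT (120 lines; uses LIMU LIML SCL A27 VAL): `FF` is continuous and monotone on `(0, 1)`. Monotone by SCL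
(`csSup_le_csSup`). Continuity at `c`: `δ` from LIMU, LIML for `c` and `ε / 4`; for `|c' - c| < δ / 2`, `c' ∈ (0, 1)`, take `n`
large (also for `c'` and `ε / 4`) and `k = ⌊c' n⌋`: `|P n k / NN^k - FF c| ≤ ε/4` and `|P n k / NN^k - FF c'| ≤ ε/4`
(`NN n > 0`). -/
def Stmt_CNT : Prop := MonotoneOn FF (Set.Ioo 0 1) ∧ ContinuousOn FF (Set.Ioo 0 1)

/-- UNF (120 lines; uses LIMU LIML CNT): uniform convergence on compact intervals, as in `Stmt_UNI`. -/
def Stmt_UNF : Prop :=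
  ∀ a b ε : ℝ, 0 < a → b < 1 → 0 < ε → ∃ n0 : ℕ, ∀ n k : ℕ, n0 ≤ n → a * n ≤ k → (k : ℝ) ≤ b * n →
    |(P n k : ℝ) - FF ((k : ℝ) / n) * (NN n : ℝ) ^ k| ≤ ε * (NN n : ℝ) ^ k

end Pool.Agent.Work.MP_1ce445_low
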