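import Pool.Agent.Work.MP_1ce445_low.Interface2

namespace Pool.Agent.Work.MP_1ce445_low

open Finset

theorem A27_nd : ∀ s t : Fin 3, ¬ Disjoint ((univ : Finset (Fin 3)).erase s) (univ.erase t) := by
  decide

theorem A27_ne : ∀ s : Fin 3, ((univ : Finset (Fin 3)).erase s).Nonempty := by
  decide

/-- Block A27. -/
theorem stmt_A27 : Stmt_A27 := by
  intro D h0 h1
  refine ⟨Fin 3, inferInstance, inferInstance, 3,
    { T := fun s => (univ : Finset (Fin 3)).erase s
      w := fun _ => 1 / 3
      x := fun _ _ => D / 9
      ne := A27_ne
      w_pos := fun _ => by norm_num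
      w_sum := by
        rw [Finset.sum_const, Finset.card_univ, Fintype.card_fin]
        norm_num
      symm := fun _ _ => rfl
      nonneg := fun _ _ => by positivity
      le := fun _ _ => by linarith
      zero := fun s t h => absurd h (A27_nd s t)
      row := fun _ => by
        rw [Finset.sum_const, Finset.card_univ, Fintype.card_fin]
        simp only [nsmul_eq_mul]
        push_cast
        ring }, ?_⟩
  have hp : ∀ a : Fin 3, (∑ s : Fin 3, if a ∈ (univ : Finset (Fin 3)).erase s then (1 / 3 : ℝ) else 0)
      = 2 / 3 := by
    intro a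
    fin_cases a <;> simp [Fin.sum_univ_succ] <;> norm_num
  unfold TSys.val TSys.p
  simp only [hp]
  rw [Finset.prod_const, Finset.card_univ, Fintype.card_fin]
  norm_num

end Pool.Agent.Work.MP_1ce445_low
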