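import Pool.Agent.Work.MP_1ce445_low.Interface3

/-!
Block ABS of THEOREM LIM (MP_1ce445_co).
-/

namespace Pool.Agent.Work.MP_1ce445_low

open Finset Pool.Agent.Work.MP_1ce445_co_56 Pool.Agent.Work.MP_1ce445_lin

open Classical in
/-- The relative degree. -/
noncomputable def ABS_d (V : Type) [Fintype V] (W : V → V → Prop) (v : V) : ℝ :=
  ((univ.filter (fun w => W v w)).card : ℝ) / Fintype.card V

/-- The weight between `v` and the universal type. -/
noncomputable def ABS_c (D e : ℝ) (V : Type) [Fintype V] (W : V → V → Prop) (v : V) : ℝ :=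
  (1 - e) / Fintype.card V * (D - (1 - e) * ABS_d V W v)

open Classical in
/-- The weighted graph. -/
noncomputable def ABS_x (D e : ℝ) (V : Type) [Fintype V] (W : V → V → Prop) :
    Option V → Option V → ℝ
  | some v, some w => if W v w then (1 - e) / Fintype.card V * ((1 - e) / Fintype.card V) else 0
  | some v, none => ABS_c D e V W v
  | none, some v => ABS_c D e V W v
  | none, none => e * D - ∑ v, ABS_c D e V W v

/-- The weights. -/
noncomputable def ABS_w (e : ℝ) (V : Type) [Fintype V] : Option V → ℝ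
  | some _ => (1 - e) / Fintype.card V
  | none => e

/-- The types. -/
def ABS_T (V : Type) {m : ℕ} (T : V → Finset (Fin m)) : Option V → Finset (Fin m)
  | some v => T v
  | none => univ

section
variable {D e s : ℝ} {V : Type} [Fintype V] {W : V → V → Prop}

open Classical in
theorem ABS_dbound (hN : 0 < Fintype.card V)
    (hdeg : ∀ v, |((univ.filter (fun w => W v w)).card : ℝ) - D * Fintype.card V| ≤
      s * Fintype.card V) (v : V) : D - s ≤ ABS_d V W v ∧ ABS_d V W v ≤ D + s := by
  have hN' : (0 : ℝ) < Fintype.card V := by exact_mod_cast hN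
  have h := abs_le.1 (hdeg v)
  unfold ABS_d
  constructor
  · rw [le_div_iff₀ hN']
    linarith [h.1]
  · rw [div_le_iff₀ hN']
    linarith [h.2]

open Classical in
theorem ABS_rowsum (hN : 0 < Fintype.card V) (v : V) :
    ∑ w, ABS_x D e V W (some v) (some w) =
      (1 - e) / Fintype.card V * ((1 - e) * ABS_d V W v) := by
  have hN' : (Fintype.card V : ℝ) ≠ 0 := by
    have : (0 : ℝ) < Fintype.card V := by exact_mod_cast hN
    exact this.ne'
  have h1 : ∑ w, ABS_x D e V W (some v) (some w) =
      ∑ w, if W v w then (1 - e) / Fintype.card V * ((1 - e) / Fintype.card V) else 0 := rfl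
  rw [h1, ← Finset.sum_filter, Finset.sum_const, nsmul_eq_mul]
  unfold ABS_d
  field_simp

theorem ABS_sumc (hN : 0 < Fintype.card V) :
    e * D - ∑ v, ABS_c D e V W v =
      e ^ 2 * D + (1 - e) ^ 2 * ((∑ v, (ABS_d V W v - D)) / Fintype.card V) := by
  have hN' : (Fintype.card V : ℝ) ≠ 0 := by
    have : (0 : ℝ) < Fintype.card V := by exact_mod_cast hN
    exact this.ne'
  have h1 : ∑ v, ABS_c D e V W v = (1 - e) / Fintype.card V *
      (Fintype.card V * D - (1 - e) * ∑ v, ABS_d V W v) := by
    unfold ABS_c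
    rw [← Finset.mul_sum, Finset.sum_sub_distrib, Finset.sum_const, card_univ, nsmul_eq_mul,
      Finset.mul_sum]
  rw [h1, Finset.sum_sub_distrib, Finset.sum_const, card_univ, nsmul_eq_mul]
  field_simp
  ring

end

/-- The type system. -/
noncomputable def ABS_S (D e s : ℝ) (V : Type) [Fintype V] [DecidableEq V] (m : ℕ)
    (T : V → Finset (Fin m)) (W : V → V → Prop) (hD0 : 0 < D) (hD1 : D < 1) (he0 : 0 < e)
    (he1 : e ≤ 1 / 2) (hs : 0 ≤ s) (hs1 : 2 * s ≤ D * e ^ 2) (hs2 : 2 * s ≤ (1 - D) * e ^ 2)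
    (hN : 0 < Fintype.card V) (hsym : ∀ v w, W v w → W w v)
    (hT : ∀ v w, W v w → (T v ∩ T w).Nonempty)
    (hdb : ∀ v, D - s ≤ ABS_d V W v ∧ ABS_d V W v ≤ D + s) (hTne : ∀ v, (T v).Nonempty) :
    TSys (Option V) m D where
  T := ABS_T V T
  w := ABS_w e V
  x := ABS_x D e V W
  ne := by
    rintro (_ | v)
    · show (univ : Finset (Fin m)).Nonempty
      obtain ⟨v⟩ : Nonempty V := Fintype.card_pos_iff.1 hN
      obtain ⟨x, _⟩ := hTne v
      exact ⟨x, mem_univ x⟩
    · exact hTne v
  w_pos := by
    have hN' : (0 : ℝ) < Fintype.card V := by exact_mod_cast hN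
    rintro (_ | v)
    · exact he0
    · show 0 < (1 - e) / Fintype.card V
      apply div_pos _ hN'
      linarith
  w_sum := by
    have hN' : (0 : ℝ) < Fintype.card V := by exact_mod_cast hN
    rw [Fintype.sum_option]
    show e + ∑ _v : V, (1 - e) / (Fintype.card V : ℝ) = 1
    rw [Finset.sum_const, card_univ, nsmul_eq_mul]
    field_simp
    ring
  symm := by
    classical
    rintro (_ | v) (_ | w)
    · rfl
    · rfl
    · rfl
    · show (if W v w then _ else _) = (if W w v then _ else _)
      by_cases h : W v w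
      · rw [if_pos h, if_pos (hsym v w h)]
      · rw [if_neg h, if_neg (fun h' => h (hsym w v h'))]
  nonneg := by
    classical
    have hN' : (0 : ℝ) < Fintype.card V := by exact_mod_cast hN
    have h1e : 0 < 1 - e := by linarith
    have hc : ∀ v, 0 ≤ ABS_c D e V W v := by
      intro v
      unfold ABS_c
      apply mul_nonneg (by positivity)
      have h0 := (hdb v).2
      have h1 : (1 - e) * ABS_d V W v ≤ (1 - e) * (D + s) := mul_le_mul_of_nonneg_left h0 h1e.le
      have h2 : 0 ≤ D * e * (1 - e) := by positivity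
      have h3 : 0 ≤ e * s := by positivity
      nlinarith
    rintro (_ | v) (_ | w)
    · show 0 ≤ e * D - ∑ v, ABS_c D e V W v
      rw [ABS_sumc hN]
      have h1 : -s ≤ (∑ v, (ABS_d V W v - D)) / Fintype.card V := by
        rw [le_div_iff₀ hN']
        have h2 : ∑ _v : V, (-s) ≤ ∑ v, (ABS_d V W v - D) :=
          Finset.sum_le_sum (fun v _ => by linarith [(hdb v).1])
        rw [Finset.sum_const, card_univ, nsmul_eq_mul] at h2
        linarith
      have h3 : (1 - e) ^ 2 ≤ 1 := by nlinarith
      have h4 : (1 - e) ^ 2 * (-s) ≤ (1 - e) ^ 2 * ((∑ v, (ABS_d V W v - D)) / Fintype.card V) :=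
        mul_le_mul_of_nonneg_left h1 (sq_nonneg _)
      nlinarith
    · exact hc w
    · exact hc v
    · show 0 ≤ (if W v w then _ else _)
      split_ifs
      · positivity
      · exact le_refl (0 : ℝ)
  le := by
    classical
    have hN' : (0 : ℝ) < Fintype.card V := by exact_mod_cast hN
    have h1e : 0 < 1 - e := by linarith
    have hc : ∀ v, ABS_c D e V W v ≤ (1 - e) / Fintype.card V * e := by
      intro v
      unfold ABS_c
      apply mul_le_mul_of_nonneg_left _ (by positivity)
      have h0 := (hdb v).1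
      have h1 : (1 - e) * (D - s) ≤ (1 - e) * ABS_d V W v := mul_le_mul_of_nonneg_left h0 h1e.le
      have h2 : 0 ≤ (1 - D) * e * (1 - e) := mul_nonneg (mul_nonneg (by linarith) he0.le) h1e.le
      have h3 : 0 ≤ e * s := by positivity
      nlinarith
    rintro (_ | v) (_ | w)
    · show e * D - ∑ v, ABS_c D e V W v ≤ e * e
      rw [ABS_sumc hN]
      have h1 : (∑ v, (ABS_d V W v - D)) / Fintype.card V ≤ s := by
        rw [div_le_iff₀ hN']
        have h2 : ∑ v, (ABS_d V W v - D) ≤ ∑ _v : V, s :=
          Finset.sum_le_sum (fun v _ => by linarith [(hdb v).2])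
        rw [Finset.sum_const, card_univ, nsmul_eq_mul] at h2
        linarith
      have h3 : (1 - e) ^ 2 ≤ 1 := by nlinarith
      have h4 : (1 - e) ^ 2 * ((∑ v, (ABS_d V W v - D)) / Fintype.card V) ≤ (1 - e) ^ 2 * s :=
        mul_le_mul_of_nonneg_left h1 (sq_nonneg _)
      nlinarith
    · show ABS_c D e V W w ≤ e * ((1 - e) / Fintype.card V)
      linarith [hc w, mul_comm e ((1 - e) / (Fintype.card V : ℝ))]
    · exact hc v
    · show (if W v w then _ else _) ≤ (1 - e) / (Fintype.card V : ℝ) * ((1 - e) / Fintype.card V)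
      split_ifs
      · exact le_refl _
      · positivity
  zero := by
    classical
    rintro (_ | v) (_ | w) h
    · exfalso
      obtain ⟨v⟩ : Nonempty V := Fintype.card_pos_iff.1 hN
      obtain ⟨x, _⟩ := hTne v
      exact Finset.disjoint_left.1 h (mem_univ x) (mem_univ x)
    · exfalso
      obtain ⟨x, hx⟩ := hTne w
      exact Finset.disjoint_left.1 h (mem_univ x) hx
    · exfalso
      obtain ⟨x, hx⟩ := hTne v
      exact Finset.disjoint_left.1 h hx (mem_univ x)
    · show (if W v w then _ else _) = (0 : ℝ)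
      rw [if_neg]
      intro hW
      obtain ⟨x, hx⟩ := hT v w hW
      rw [mem_inter] at hx
      exact Finset.disjoint_left.1 h hx.1 hx.2
  row := by
    rintro (_ | v)
    · rw [Fintype.sum_option]
      show (e * D - ∑ v, ABS_c D e V W v) + ∑ v, ABS_c D e V W v = D * e
      ring
    · rw [Fintype.sum_option, ABS_rowsum hN]
      show ABS_c D e V W v + _ = D * ((1 - e) / Fintype.card V)
      unfold ABS_c
      ring

open Classical in
theorem stmt_ABS : Stmt_ABS := by
  intro D e s V _ _ m T W hD0 hD1 he0 he1 hs hs1 hs2 hN hsym hT hdeg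
  have hN' : (0 : ℝ) < Fintype.card V := by exact_mod_cast hN
  have hdb := ABS_dbound (D := D) (s := s) (W := W) hN hdeg
  have he2 : e ^ 2 ≤ 1 := by nlinarith
  have hsD : s < D := by nlinarith
  have hTne : ∀ v, (T v).Nonempty := by
    intro v
    have h1 : 0 < ABS_d V W v := by linarith [(hdb v).1]
    have h2 : (univ.filter (fun w => W v w)).Nonempty := by
      by_contra hcon
      rw [Finset.not_nonempty_iff_eq_empty] at hcon
      unfold ABS_d at h1
      rw [hcon] at h1
      simp at h1
    obtain ⟨w, hw⟩ := h2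
    rw [mem_filter] at hw
    obtain ⟨x, hx⟩ := hT v w hw.2
    rw [mem_inter] at hx
    exact ⟨x, hx.1⟩
  refine ⟨_, ⟨Option V, inferInstance, inferInstance, m,
    ABS_S D e s V m T W hD0 hD1 he0 he1 hs hs1 hs2 hN hsym hT hdb hTne, rfl⟩, ?_⟩
  set p : Fin m → ℝ := fun x => ((univ.filter (fun u => x ∈ T u)).card : ℝ) / Fintype.card V with hp
  have hp0 : ∀ x, 0 ≤ p x := fun x => by rw [hp]; positivity
  have hp1 : ∀ x, p x ≤ 1 := by
    intro x
    rw [hp]
    show ((univ.filter (fun u => x ∈ T u)).card : ℝ) / Fintype.card V ≤ 1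
    rw [div_le_one hN']
    exact_mod_cast Finset.card_le_univ _
  have hval : (ABS_S D e s V m T W hD0 hD1 he0 he1 hs hs1 hs2 hN hsym hT hdb hTne).val =
      ∏ x : Fin m, ((1 - e) * (1 - p x)) := by
    unfold TSys.val
    refine Finset.prod_congr rfl (fun x _ => ?_)
    unfold TSys.p
    rw [Fintype.sum_option]
    have h3 : (if x ∈ (ABS_S D e s V m T W hD0 hD1 he0 he1 hs hs1 hs2 hN hsym hT hdb hTne).T none
        then (ABS_S D e s V m T W hD0 hD1 he0 he1 hs hs1 hs2 hN hsym hT hdb hTne).w none else 0)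
        = e := if_pos (mem_univ x)
    have h4 : (∑ v : V, if x ∈ (ABS_S D e s V m T W hD0 hD1 he0 he1 hs hs1 hs2 hN hsym hT hdb
        hTne).T (some v) then (ABS_S D e s V m T W hD0 hD1 he0 he1 hs hs1 hs2 hN hsym hT hdb
        hTne).w (some v) else 0) = (1 - e) * p x := by
      have h5 : (∑ v : V, if x ∈ (ABS_S D e s V m T W hD0 hD1 he0 he1 hs hs1 hs2 hN hsym hT hdb
        hTne).T (some v) then (ABS_S D e s V m T W hD0 hD1 he0 he1 hs hs1 hs2 hN hsym hT hdb
        hTne).w (some v) else 0) =
          ∑ v : V, if x ∈ T v then (1 - e) / (Fintype.card V : ℝ) else 0 :=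
        Finset.sum_congr rfl (fun v _ => by
          by_cases hx : x ∈ T v
          · rw [if_pos hx]
            exact if_pos hx
          · rw [if_neg hx]
            exact if_neg hx)
      rw [h5, ← Finset.sum_filter, Finset.sum_const, nsmul_eq_mul, hp]
      field_simp
    rw [h3, h4]
    ring
  rw [hval, Finset.prod_mul_distrib, Finset.prod_const, card_univ, Fintype.card_fin]
  have hA0 : 0 ≤ ∏ x, (1 - p x) := Finset.prod_nonneg (fun x _ => by linarith [hp1 x])
  have hA1 : ∏ x, (1 - p x) ≤ 1 :=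
    Finset.prod_le_one (fun x _ => by linarith [hp1 x]) (fun x _ => by linarith [hp0 x])
  have hb : 1 + (m : ℝ) * (-e) ≤ (1 + -e) ^ m := one_add_mul_le_pow (by linarith) m
  have hb2 : (1 - (m : ℝ) * e) ≤ (1 - e) ^ m := by
    have h6 : (1 : ℝ) + -e = 1 - e := by ring
    rw [h6] at hb
    linarith
  have hm : 0 ≤ (m : ℝ) * e := by positivity
  show ∏ x, (1 - p x) - m * e ≤ (1 - e) ^ m * ∏ x, (1 - p x)
  have h7 : (1 - (m : ℝ) * e) * ∏ x, (1 - p x) ≤ (1 - e) ^ m * ∏ x, (1 - p x) :=
    mul_le_mul_of_nonneg_right hb2 hA0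
  nlinarith

end Pool.Agent.Work.MP_1ce445_low
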