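import Pool.Agent.Work.MP_1ce445_low.Interface

namespace Pool.Agent.Work.MP_1ce445_low

open Finset Pool.Agent.Work.MP_1ce445_co_56 Pool.Agent.Work.MP_1ce445_lin

theorem ASY_p_nonneg {ι : Type} [Fintype ι] [DecidableEq ι] {q : ℕ} {D : ℝ} (S : TSys ι q D)
    (a : Fin q) : 0 ≤ S.p a := by
  unfold TSys.p
  apply Finset.sum_nonneg
  intro s _
  split_ifs
  · exact (S.w_pos s).le
  · exact le_refl _

theorem ASY_p_le {ι : Type} [Fintype ι] [DecidableEq ι] {q : ℕ} {D : ℝ} (S : TSys ι q D)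
    (a : Fin q) : S.p a ≤ 1 := by
  unfold TSys.p
  rw [← S.w_sum]
  apply Finset.sum_le_sum
  intro s _
  split_ifs
  · exact le_refl _
  · exact (S.w_pos s).le

theorem ASY_g {ι : Type} [Fintype ι] [DecidableEq ι] {q : ℕ} {D : ℝ} (S : TSys ι q D)
    (ε : ℝ) (hε : 0 < ε) :
    ∃ τ0 : ℝ, 0 < τ0 ∧ ∀ τ : ℝ, 0 ≤ τ → τ ≤ τ0 →
      S.val - ε ≤ ∏ a : Fin q, max 0 (1 - S.p a - τ) := by
  have hc : Continuous (fun τ : ℝ => ∏ a : Fin q, max 0 (1 - S.p a - τ)) := by
    apply continuous_finset_prod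
    intro a _
    exact continuous_const.max (continuous_const.sub continuous_id)
  have h0 : (fun τ : ℝ => ∏ a : Fin q, max 0 (1 - S.p a - τ)) 0 = S.val := by
    show ∏ a : Fin q, max 0 (1 - S.p a - 0) = ∏ a : Fin q, (1 - S.p a)
    apply Finset.prod_congr rfl
    intro a _
    rw [sub_zero]
    exact max_eq_right (by linarith [ASY_p_le S a])
  have hcont := (Metric.continuous_iff.mp hc) 0 ε hε
  obtain ⟨d, hd, hd2⟩ := hcont
  refine ⟨d / 2, by linarith, ?_⟩
  intro τ h1 h2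
  have h3 : dist τ 0 < d := by
    rw [Real.dist_eq, sub_zero, abs_of_nonneg h1]
    linarith
  have h4 := hd2 τ h3
  have h0' : ∏ a : Fin q, max 0 (1 - S.p a - 0) = S.val := h0
  rw [h0', Real.dist_eq] at h4
  have h5 := (abs_lt.mp h4).1
  linarith

theorem ASY_PP {ι : Type} [Fintype ι] [DecidableEq ι] {q : ℕ} {D : ℝ} (S : TSys ι q D)
    (η : ι → ℕ) (n : ℕ) (K : ℝ) (hK : 0 ≤ K) (h : ∀ s, |(η s : ℝ) - S.w s * n| ≤ K)
    (a : Fin q) : (PP S.T η a : ℝ) ≤ S.p a * n + (Fintype.card ι : ℝ) * K := by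
  unfold PP TSys.p
  push_cast
  rw [Finset.sum_mul]
  have h1 : (Fintype.card ι : ℝ) * K = ∑ _s : ι, K := by
    rw [Finset.sum_const, Finset.card_univ, nsmul_eq_mul]
  rw [h1, ← Finset.sum_add_distrib]
  apply Finset.sum_le_sum
  intro s _
  have h2 := (abs_le.mp (h s)).2
  split_ifs
  · push_cast
    linarith
  · push_cast
    linarith

/-- from the factors to the power -/
theorem ASY_prod {q k : ℕ} (hqk : q ≤ k) (N : ℝ) (hN : 0 ≤ N) (f : Fin q → ℝ)
    (g : Fin q → ℝ) (hg : ∀ a, 0 ≤ g a) (h : ∀ a, N * g a ≤ f a) :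
    N ^ k * ∏ a, g a ≤ N ^ (k - q) * ∏ a, f a := by
  have h1 : N ^ k * ∏ a, g a = N ^ (k - q) * ∏ a, (N * g a) := by
    rw [Finset.prod_mul_distrib, Finset.prod_const, Finset.card_univ, Fintype.card_fin]
    rw [← mul_assoc, ← pow_add, Nat.sub_add_cancel hqk]
  rw [h1]
  apply mul_le_mul_of_nonneg_left _ (pow_nonneg hN _)
  apply Finset.prod_le_prod
  · intro a _
    exact mul_nonneg hN (hg a)
  · intro a _
    exact h a

theorem stmt_ASY (h1 : Stmt_SIZ) (h2 : Stmt_EVG) (h3 : Stmt_ODG) : Stmt_ASY := by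
  intro ι _ _ q D S hS ε hε
  -- `0 < D < 1`
  have hne : Nonempty ι := by
    by_contra hcon
    rw [not_nonempty_iff] at hcon
    have := S.w_sum
    rw [Finset.univ_eq_empty, Finset.sum_empty] at this
    exact zero_ne_one this
  obtain ⟨s0⟩ := hne
  have hD0 : 0 < D := by
    have hr := S.row s0
    have hw := S.w_pos s0
    have hx : 0 < ∑ t, S.x s0 t := by
      have h4 : S.x s0 s0 ≤ ∑ t, S.x s0 t :=
        Finset.single_le_sum (f := fun t => S.x s0 t) (fun t _ => S.nonneg s0 t) (Finset.mem_univ s0)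
      linarith [(hS s0).1]
    rw [hr] at hx
    by_contra hcon
    push Not at hcon
    have : D * S.w s0 ≤ 0 := mul_nonpos_of_nonpos_of_nonneg hcon hw.le
    linarith
  have hD1 : D < 1 := by
    have hr := S.row s0
    have hw := S.w_pos s0
    have hx : ∑ t, S.x s0 t < ∑ t, S.w s0 * S.w t := by
      apply Finset.sum_lt_sum
      · intro t _
        exact S.le s0 t
      · exact ⟨s0, Finset.mem_univ s0, (hS s0).2⟩
    rw [hr, ← Finset.mul_sum, S.w_sum, mul_one] at hx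
    by_contra hcon
    push Not at hcon
    have : 1 * S.w s0 ≤ D * S.w s0 := mul_le_mul_of_nonneg_right hcon hw.le
    linarith
  obtain ⟨δ0, K, n0, hδ0, hK, hsz⟩ := h1 ι q D S hS
  obtain ⟨τ0, hτ0, hg⟩ := ASY_g S ε hε
  obtain ⟨c, hc⟩ : ∃ c : ℝ, c = 1 - D := ⟨_, rfl⟩
  have hc0 : 0 < c := by rw [hc]; linarith
  have hc1 : c < 1 := by rw [hc]; linarith
  rw [← hc] at hsz ⊢
  obtain ⟨L, hL⟩ : ∃ L : ℝ, L = (Fintype.card ι : ℝ) * K := ⟨_, rfl⟩
  have hL0 : 0 ≤ L := by rw [hL]; positivity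
  obtain ⟨δ, hδ⟩ : ∃ δ : ℝ, δ = min (δ0 / 2) (min (c / 2) ((1 - c) / 2)) := ⟨_, rfl⟩
  have hδpos : 0 < δ := by
    rw [hδ]
    apply lt_min (by linarith)
    apply lt_min (by linarith) (by linarith)
  have hδa : δ ≤ δ0 / 2 := by rw [hδ]; exact min_le_left _ _
  have hδb : δ ≤ c / 2 := by rw [hδ]; exact (min_le_right _ _).trans (min_le_left _ _)
  have hδc : δ ≤ (1 - c) / 2 := by rw [hδ]; exact (min_le_right _ _).trans (min_le_right _ _)
  obtain ⟨n1, hn1⟩ := exists_nat_ge ((n0 : ℝ) + 3 + ((q : ℝ) + 1) * 2 / c + 8 / (1 - c) +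
    (L + 3) / τ0 + 2 / δ0)
  refine ⟨δ, n1, hδpos, ?_⟩
  intro n k hn hk
  have hnR : (n0 : ℝ) + 3 + ((q : ℝ) + 1) * 2 / c + 8 / (1 - c) + (L + 3) / τ0 + 2 / δ0 ≤ n :=
    hn1.trans (by exact_mod_cast hn)
  have e1 : 0 ≤ ((q : ℝ) + 1) * 2 / c := by positivity
  have e2 : 0 ≤ 8 / (1 - c) := by
    apply div_nonneg (by norm_num) (by linarith)
  have e3 : 0 ≤ (L + 3) / τ0 := by positivity
  have e4 : 0 ≤ 2 / δ0 := by positivity
  have e5 : (0 : ℝ) ≤ n0 := Nat.cast_nonneg _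
  have f1 : ((q : ℝ) + 1) * 2 ≤ c * n := by
    have : ((q : ℝ) + 1) * 2 / c ≤ n := by linarith
    rw [div_le_iff₀ hc0] at this
    linarith
  have f2 : 8 ≤ (1 - c) * n := by
    have : 8 / (1 - c) ≤ n := by linarith
    rw [div_le_iff₀ (by linarith)] at this
    linarith
  have f3 : L + 3 ≤ τ0 * ((n : ℝ) - 1) := by
    have : (L + 3) / τ0 ≤ (n : ℝ) - 1 := by linarith
    rw [div_le_iff₀ hτ0] at this
    linarith
  have f4 : 2 ≤ δ0 * n := by
    have : 2 / δ0 ≤ n := by linarith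
    rw [div_le_iff₀ hδ0] at this
    linarith
  have f5 : (n0 : ℝ) ≤ n := by linarith
  have f5' : n0 ≤ n := by exact_mod_cast f5
  have f6 : (3 : ℝ) ≤ n := by linarith
  have f6' : 3 ≤ n := by exact_mod_cast f6
  have hnpos : (0 : ℝ) ≤ n := by linarith
  obtain ⟨hk1, hk2⟩ := abs_le.mp hk
  -- `q ≤ k`
  have hqk : q ≤ k := by
    have g1 : δ * n ≤ c / 2 * n := mul_le_mul_of_nonneg_right hδb hnpos
    have g2 : (q : ℝ) ≤ k := by nlinarith
    exact_mod_cast g2
  have hk3 : k + 3 ≤ n := by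
    have g1 : δ * n ≤ (1 - c) / 2 * n := mul_le_mul_of_nonneg_right hδc hnpos
    have g2 : (k : ℝ) + 3 ≤ n := by nlinarith
    exact_mod_cast g2
  rcases Nat.even_or_odd n with he | ho
  · -- even
    have hNN : NN n = n := by
      unfold NN
      exact Nat.two_mul_div_two_of_even he
    have hkk : |(k : ℝ) - c * n| ≤ δ0 * n := by
      refine hk.trans ?_
      apply mul_le_mul_of_nonneg_right _ hnpos
      linarith
    obtain ⟨η, M, hO, hsum, hη, hdis⟩ := hsz n k f5' he hkk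
    have hev := h2 ι q k S.T η M hqk S.ne hO hdis
    rw [hsum] at hev
    rw [hNN]
    have hnp : (0 : ℝ) < n := by linarith
    have key := ASY_prod hqk (n : ℝ) hnpos
      (fun a => ((n - PP S.T η a : ℕ) : ℝ)) (fun a => max 0 (1 - S.p a - L / n))
      (fun a => le_max_left _ _) (by
        intro a
        have hPP := ASY_PP S η n K hK hη a
        rw [← hL] at hPP
        show (n : ℝ) * max 0 (1 - S.p a - L / n) ≤ ((n - PP S.T η a : ℕ) : ℝ)
        rw [mul_max_of_nonneg _ _ hnpos, mul_zero]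
        apply max_le (Nat.cast_nonneg _)
        have g1 : (n : ℝ) * (1 - S.p a - L / n) = n - S.p a * n - L := by
          field_simp
        rw [g1]
        have g2 : (n : ℝ) ≤ ((n - PP S.T η a : ℕ) : ℝ) + (PP S.T η a : ℝ) := by
          have : n ≤ (n - PP S.T η a) + PP S.T η a := by omega
          exact_mod_cast this
        linarith)
    have hgg := hg (L / n) (by positivity) (by
      rw [div_le_iff₀ hnp]
      nlinarith)
    calc (S.val - ε) * (n : ℝ) ^ k
        ≤ (∏ a : Fin q, max 0 (1 - S.p a - L / n)) * (n : ℝ) ^ k :=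
          mul_le_mul_of_nonneg_right hgg (pow_nonneg hnpos _)
      _ = (n : ℝ) ^ k * ∏ a : Fin q, max 0 (1 - S.p a - L / n) := mul_comm _ _
      _ ≤ (n : ℝ) ^ (k - q) * ∏ a : Fin q, ((n - PP S.T η a : ℕ) : ℝ) := key
      _ = (((n ^ (k - q) * ∏ a : Fin q, (n - PP S.T η a) : ℕ)) : ℝ) := by push_cast; ring
      _ ≤ (P n k : ℝ) := by exact_mod_cast hev
  · -- odd
    obtain ⟨m, hm⟩ : ∃ m, m = n + 1 := ⟨_, rfl⟩
    have hme : Even m := by
      rw [hm]
      exact ho.add_one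
    have hmR : (m : ℝ) = n + 1 := by rw [hm]; push_cast; ring
    have hNN : NN n = m - 2 := by
      unfold NN
      obtain ⟨j, hj⟩ := ho
      rw [hm, hj]
      omega
    have hkk : |(k : ℝ) - c * m| ≤ δ0 * m := by
      rw [hmR]
      have g1 : δ * n ≤ δ0 / 2 * n := mul_le_mul_of_nonneg_right hδa hnpos
      rw [abs_le]
      constructor
      · nlinarith
      · nlinarith
    obtain ⟨η, M, hO, hsum, hη, hdis⟩ := hsz m k (by omega) hme hkk
    have hod := h3 ι q k S.T η M hqk (by rw [hsum]; omega) S.ne hO hdis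
    rw [hsum] at hod
    have hm1 : m - 1 = n := by omega
    rw [hm1] at hod
    rw [hNN]
    obtain ⟨N, hN⟩ : ∃ N : ℝ, N = ((m - 2 : ℕ) : ℝ) := ⟨_, rfl⟩
    have hNm : N = (m : ℝ) - 2 := by
      rw [hN, Nat.cast_sub (by omega)]
      norm_num
    have hNp : 0 < N := by rw [hNm, hmR]; linarith
    rw [← hN]
    have key := ASY_prod hqk N hNp.le
      (fun a => ((m - PP S.T η a - 3 : ℕ) : ℝ)) (fun a => max 0 (1 - S.p a - (L + 3) / N))
      (fun a => le_max_left _ _) (by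
        intro a
        have hPP := ASY_PP S η m K hK hη a
        rw [← hL] at hPP
        show N * max 0 (1 - S.p a - (L + 3) / N) ≤ ((m - PP S.T η a - 3 : ℕ) : ℝ)
        rw [mul_max_of_nonneg _ _ hNp.le, mul_zero]
        apply max_le (Nat.cast_nonneg _)
        have g1 : N * (1 - S.p a - (L + 3) / N) = N - S.p a * N - (L + 3) := by
          field_simp
        rw [g1]
        have g2 : (m : ℝ) ≤ ((m - PP S.T η a - 3 : ℕ) : ℝ) + (PP S.T η a : ℝ) + 3 := by
          have : m ≤ (m - PP S.T η a - 3) + PP S.T η a + 3 := by omega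
          exact_mod_cast this
        have g3 := ASY_p_le S a
        have g4 := ASY_p_nonneg S a
        rw [hNm]
        nlinarith)
    have hgg := hg ((L + 3) / N) (by positivity) (by
      rw [div_le_iff₀ hNp, hNm, hmR]
      linarith)
    calc (S.val - ε) * N ^ k
        ≤ (∏ a : Fin q, max 0 (1 - S.p a - (L + 3) / N)) * N ^ k :=
          mul_le_mul_of_nonneg_right hgg (pow_nonneg hNp.le _)
      _ = N ^ k * ∏ a : Fin q, max 0 (1 - S.p a - (L + 3) / N) := mul_comm _ _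
      _ ≤ N ^ (k - q) * ∏ a : Fin q, ((m - PP S.T η a - 3 : ℕ) : ℝ) := key
      _ = ((((m - 2) ^ (k - q) * ∏ a : Fin q, (m - PP S.T η a - 3) : ℕ)) : ℝ) := by
          rw [hN]; push_cast; ring
      _ ≤ (P n k : ℝ) := by exact_mod_cast hod

end Pool.Agent.Work.MP_1ce445_low
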