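import Pool.Agent.Work.MP_1ce445_low.Interface

/-! Block DST: distribution of the totals among the colours with the right parity. -/

set_option autoImplicit false

namespace Pool.Agent.Work.MP_1ce445_low

open Finset Pool.Agent.Work.MP_1ce445_co_56 Pool.Agent.Work.MP_1ce445_lin

theorem dst_col (k : ℕ) (B Rest : Fin k → ℕ) (hB : ∀ i, 1 ≤ B i) (hev : Even (∑ i, (B i + Rest i))) :
    ∃ D : Fin k → ℕ, ∑ i, D i = ∑ i, B i ∧ (∀ i, D i ≤ B i + 1) ∧ ∀ i, Even (D i + Rest i) := by
  classical
  set F : Finset (Fin k) := univ.filter (fun i => Odd (B i + Rest i)) with hF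
  have hFe : Even F.card := (Finset.even_sum_iff_even_card_odd _).mp hev
  obtain ⟨m, hm⟩ := hFe
  obtain ⟨P, hPF, hPc⟩ := Finset.exists_subset_card_eq (s := F) (n := m) (by omega)
  refine ⟨fun i => if i ∈ P then B i + 1 else if i ∈ F then B i - 1 else B i, ?_, ?_, ?_⟩
  · have key : ∀ i, (((if i ∈ P then B i + 1 else if i ∈ F then B i - 1 else B i : ℕ)) : ℤ) =
        B i + 2 * (if i ∈ P then (1 : ℤ) else 0) - (if i ∈ F then (1 : ℤ) else 0) := by
      intro i
      have h1 := hB i
      by_cases hP : i ∈ P
      · have hF' : i ∈ F := hPF hP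
        rw [if_pos hP, if_pos hP, if_pos hF']
        push_cast
        ring
      · by_cases hF' : i ∈ F
        · rw [if_neg hP, if_neg hP, if_pos hF', if_pos hF']
          push_cast [h1]
          ring
        · rw [if_neg hP, if_neg hP, if_neg hF', if_neg hF']
          ring
    have h2 : ((∑ i, (if i ∈ P then B i + 1 else if i ∈ F then B i - 1 else B i : ℕ) : ℕ) : ℤ) =
        ((∑ i, B i : ℕ) : ℤ) := by
      rw [Nat.cast_sum, Finset.sum_congr rfl (fun i _ => key i), Finset.sum_sub_distrib, Finset.sum_add_distrib,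
        ← Finset.mul_sum, Finset.sum_ite_mem, Finset.sum_ite_mem, Nat.cast_sum]
      simp only [Finset.univ_inter, Finset.sum_const, nsmul_eq_mul, mul_one]
      rw [hPc, hm]
      push_cast
      ring
    exact_mod_cast h2
  · intro i
    dsimp only
    split_ifs <;> omega
  · intro i
    dsimp only
    have h1 := hB i
    by_cases hP : i ∈ P
    · have hF' : i ∈ F := hPF hP
      rw [if_pos hP]
      have h3 : Odd (B i + Rest i) := (Finset.mem_filter.mp hF').2
      obtain ⟨t, ht⟩ := h3
      exact ⟨t + 1, by omega⟩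
    · rw [if_neg hP]
      by_cases hF' : i ∈ F
      · rw [if_pos hF']
        have h3 : Odd (B i + Rest i) := (Finset.mem_filter.mp hF').2
        obtain ⟨t, ht⟩ := h3
        exact ⟨t, by omega⟩
      · rw [if_neg hF']
        rw [← Nat.not_odd_iff_even]
        intro h3
        exact hF' (Finset.mem_filter.mpr ⟨Finset.mem_univ _, h3⟩)

theorem dst_even_off {C : Type} [Fintype C] [DecidableEq C] (M : C → C → ℕ) (hM : ∀ a b, a ≠ b → M a b = M b a) :
    Even (∑ a, ∑ b ∈ univ.erase a, M a b) := by
  rw [← ZMod.natCast_eq_zero_iff_even, Nat.cast_sum]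
  have h1 : ∀ a : C, (((∑ b ∈ univ.erase a, M a b : ℕ)) : ZMod 2) =
      ∑ b, if a ≠ b then ((M a b : ℕ) : ZMod 2) else 0 := by
    intro a
    rw [Nat.cast_sum, ← Finset.sum_filter]
    apply Finset.sum_congr _ (fun _ _ => rfl)
    ext b
    simp only [Finset.mem_erase, Finset.mem_univ, and_true, Finset.mem_filter, true_and, ne_comm]
  rw [Finset.sum_congr rfl (fun a _ => h1 a), ← Finset.sum_product', ← Finset.sum_filter]
  apply Finset.sum_involution (fun p _ => (p.2, p.1))
  · rintro ⟨a, b⟩ hp
    have hab : a ≠ b := (Finset.mem_filter.mp hp).2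
    show ((M a b : ℕ) : ZMod 2) + ((M b a : ℕ) : ZMod 2) = 0
    rw [hM b a hab.symm]
    exact CharTwo.add_self_eq_zero _
  · rintro ⟨a, b⟩ hp _ he
    have hab : a ≠ b := (Finset.mem_filter.mp hp).2
    exact hab (congrArg Prod.snd he)
  · rintro ⟨a, b⟩ hp
    have hab : a ≠ b := (Finset.mem_filter.mp hp).2
    exact Finset.mem_filter.mpr ⟨Finset.mem_product.mpr ⟨Finset.mem_univ _, Finset.mem_univ _⟩, hab.symm⟩
  · rintro ⟨a, b⟩ hp
    rfl

theorem dst_sumB (k y : ℕ) (hk : 0 < k) : ∑ i : Fin k, (y / k + (if i.val < y % k then 1 else 0)) = y := by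
  rw [Finset.sum_add_distrib, Finset.sum_const, Finset.card_univ, Fintype.card_fin, smul_eq_mul]
  have h1 : ∑ i : Fin k, (if i.val < y % k then 1 else 0) = y % k := by
    rw [Fin.sum_univ_eq_sum_range (fun i => if i < y % k then 1 else 0) k, Finset.sum_ite]
    simp only [Finset.sum_const_zero, add_zero, Finset.sum_const, smul_eq_mul, mul_one]
    have h2 : (Finset.range k).filter (fun i => i < y % k) = Finset.range (y % k) := by
      ext i
      simp only [Finset.mem_filter, Finset.mem_range]
      have := Nat.mod_lt y hk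
      constructor
      · exact fun h => h.2
      · exact fun h => ⟨by omega, h⟩
    rw [h2, Finset.card_range]
  rw [h1]
  exact Nat.div_add_mod y k

theorem p_DST : Stmt_DST := by
  classical
  intro C _ _ k η Y hk hη hηe hYs hYe hYk hYη hH1 hH2
  rcases isEmpty_or_nonempty C with hC | ⟨⟨s⟩⟩
  · refine ⟨fun _ a _ => (hC.false a).elim, ⟨fun a => (hC.false a).elim, fun _ a => (hC.false a).elim,
      fun _ a => (hC.false a).elim, fun _ a => (hC.false a).elim, fun a => (hC.false a).elim,
      fun a => (hC.false a).elim⟩, fun a => (hC.false a).elim⟩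
  set B : Fin k → C → C → ℕ := fun i a b => Y a b / k + (if i.val < Y a b % k then 1 else 0) with hB
  have hBsum : ∀ a b, ∑ i, B i a b = Y a b := fun a b => dst_sumB k (Y a b) hk
  have hB1 : ∀ i a b, a ≠ b → 1 ≤ B i a b := by
    intro i a b hab
    have : 1 ≤ Y a b / k := (Nat.one_le_div_iff hk).mpr (hYk a b hab)
    show 1 ≤ Y a b / k + _
    omega
  have hBle : ∀ i a b, B i a b ≤ Y a b / k + 1 := by
    intro i a b
    show Y a b / k + (if i.val < Y a b % k then 1 else 0) ≤ Y a b / k + 1
    split_ifs <;> omega
  have hBs : ∀ i a b, B i a b = B i b a := by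
    intro i a b
    show Y a b / k + (if i.val < Y a b % k then 1 else 0) = Y b a / k + (if i.val < Y b a % k then 1 else 0)
    rw [hYs a b]
  have hsplit : ∀ (f : C → ℕ) (a : C), a ≠ s → ∑ b ∈ univ.erase a, f b = f s + ∑ b ∈ (univ.erase a).erase s, f b := by
    intro f a ha
    rw [Finset.add_sum_erase _ _ (Finset.mem_erase.mpr ⟨ha.symm, Finset.mem_univ _⟩)]
  have hD : ∀ a, ∃ D : Fin k → ℕ, a ≠ s → (∑ i, D i = Y a s ∧ (∀ i, D i ≤ B i a s + 1) ∧
      ∀ i, Even (D i + ∑ b ∈ (univ.erase a).erase s, B i a b)) := by
    intro a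
    by_cases ha : a = s
    · exact ⟨fun _ => 0, fun h => absurd ha h⟩
    · have hev : Even (∑ i, (B i a s + ∑ b ∈ (univ.erase a).erase s, B i a b)) := by
        have h1 : ∀ i, B i a s + ∑ b ∈ (univ.erase a).erase s, B i a b = ∑ b ∈ univ.erase a, B i a b := fun i =>
          (hsplit (fun b => B i a b) a ha).symm
        rw [Finset.sum_congr rfl (fun i _ => h1 i), Finset.sum_comm]
        apply Finset.even_sum
        intro b hb
        rw [hBsum]
        exact hYe a b (Finset.ne_of_mem_erase hb).symm
      obtain ⟨D, h1, h2, h3⟩ := dst_col k (fun i => B i a s) (fun i => ∑ b ∈ (univ.erase a).erase s, B i a b)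
        (fun i => hB1 i a s ha) hev
      exact ⟨D, fun _ => ⟨h1.trans (hBsum a s), h2, h3⟩⟩
  choose D hD using hD
  set Mo : Fin k → C → C → ℕ := fun i a b => if a = s then D b i else if b = s then D a i else B i a b with hMo
  have hMs : ∀ i a b, a ≠ b → Mo i a b = Mo i b a := by
    intro i a b hab
    show (if a = s then D b i else if b = s then D a i else B i a b) =
      (if b = s then D a i else if a = s then D b i else B i b a)
    by_cases ha : a = s
    · have hb : b ≠ s := fun h => hab (ha.trans h.symm)
      rw [if_pos ha, if_neg hb, if_pos ha]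
    · by_cases hb : b = s
      · rw [if_neg ha, if_pos hb, if_pos hb]
      · rw [if_neg ha, if_neg hb, if_neg hb, if_neg ha, hBs]
  have hMsum : ∀ a b, a ≠ b → ∑ i, Mo i a b = Y a b := by
    intro a b hab
    show ∑ i, (if a = s then D b i else if b = s then D a i else B i a b) = Y a b
    by_cases ha : a = s
    · have hb : b ≠ s := fun h => hab (ha.trans h.symm)
      simp only [if_pos ha]
      rw [(hD b hb).1, ha, hYs]
    · by_cases hb : b = s
      · simp only [if_neg ha, if_pos hb]
        rw [(hD a ha).1, hb]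
      · simp only [if_neg ha, if_neg hb]
        exact hBsum a b
  have hMle : ∀ i a b, a ≠ b → Mo i a b ≤ Y a b / k + 2 := by
    intro i a b hab
    show (if a = s then D b i else if b = s then D a i else B i a b) ≤ Y a b / k + 2
    by_cases ha : a = s
    · have hb : b ≠ s := fun h => hab (ha.trans h.symm)
      rw [if_pos ha]
      have h1 := (hD b hb).2.1 i
      have h2 := hBle i b s
      rw [ha, hYs s b]
      omega
    · by_cases hb : b = s
      · rw [if_neg ha, if_pos hb]
        have h1 := (hD a ha).2.1 i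
        have h2 := hBle i a s
        rw [hb]
        omega
      · rw [if_neg ha, if_neg hb]
        have h2 := hBle i a b
        omega
  set R : Fin k → C → ℕ := fun i a => ∑ b ∈ univ.erase a, Mo i a b with hR
  have hRe' : ∀ i a, a ≠ s → Even (R i a) := by
    intro i a ha
    have h1 : R i a = D a i + ∑ b ∈ (univ.erase a).erase s, B i a b := by
      show ∑ b ∈ univ.erase a, Mo i a b = _
      rw [hsplit _ a ha]
      congr 1
      · show (if a = s then D s i else if s = s then D a i else B i a s) = D a i
        rw [if_neg ha, if_pos rfl]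
      · apply Finset.sum_congr rfl
        intro b hb
        show (if a = s then D b i else if b = s then D a i else B i a b) = B i a b
        rw [if_neg ha, if_neg (Finset.ne_of_mem_erase hb)]
    rw [h1]
    exact (hD a ha).2.2 i
  have hRe : ∀ i a, Even (R i a) := by
    intro i a
    by_cases ha : a = s
    · have h1 := dst_even_off (Mo i) (hMs i)
      have h2 : ∑ a, R i a = R i s + ∑ a ∈ univ.erase s, R i a := (Finset.add_sum_erase _ _ (Finset.mem_univ s)).symm
      have h3 : Even (∑ a ∈ univ.erase s, R i a) := Finset.even_sum _ (fun b hb => hRe' i b (Finset.ne_of_mem_erase hb))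
      have h4 : Even (R i s + ∑ a ∈ univ.erase s, R i a) := by
        rw [← h2]
        exact h1
      rw [ha]
      exact (Nat.even_add.mp h4).mpr h3
    · exact hRe' i a ha
  have hRle : ∀ i a, R i a ≤ η a := by
    intro i a
    have h1 : k * R i a ≤ k * η a := by
      refine le_trans ?_ (hH1 a)
      have h2 : k * R i a ≤ ∑ b ∈ univ.erase a, (Y a b + 2 * k) := by
        show k * ∑ b ∈ univ.erase a, Mo i a b ≤ _
        rw [Finset.mul_sum]
        apply Finset.sum_le_sum
        intro b hb
        have h3 := hMle i a b (Finset.ne_of_mem_erase hb).symm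
        calc k * Mo i a b ≤ k * (Y a b / k + 2) := Nat.mul_le_mul_left _ h3
          _ = k * (Y a b / k) + 2 * k := by ring
          _ ≤ Y a b + 2 * k := Nat.add_le_add_right (Nat.mul_div_le _ _) _
      refine le_trans h2 ?_
      rw [Finset.sum_add_distrib, Finset.sum_const, smul_eq_mul]
      have h4 : (univ.erase a).card ≤ Fintype.card C := by
        rw [← Finset.card_univ]
        exact Finset.card_le_card (Finset.erase_subset _ _)
      have h5 : (univ.erase a).card * (2 * k) ≤ 2 * k * Fintype.card C := by
        rw [mul_comm (2 * k)]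
        exact Nat.mul_le_mul_right _ h4
      omega
    exact Nat.le_of_mul_le_mul_left h1 hk
  have hRsum : ∀ a, ∑ i, R i a = ∑ b ∈ univ.erase a, Y a b := by
    intro a
    show ∑ i, ∑ b ∈ univ.erase a, Mo i a b = _
    rw [Finset.sum_comm]
    exact Finset.sum_congr rfl (fun b hb => hMsum a b (Finset.ne_of_mem_erase hb).symm)
  refine ⟨fun i a b => if a = b then η a - R i a else Mo i a b, ⟨hη, ?_, ?_, ?_, ?_, ?_⟩, ?_⟩
  · intro i a b
    by_cases hab : a = b
    · rw [if_pos hab, if_pos hab.symm, hab]
    · rw [if_neg hab, if_neg (Ne.symm hab)]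
      exact hMs i a b hab
  · intro i a
    rw [if_pos rfl]
    exact (Nat.even_sub (hRle i a)).mpr ⟨fun _ => hRe i a, fun _ => hηe a⟩
  · intro i a
    rw [← Finset.add_sum_erase _ _ (Finset.mem_univ a), if_pos rfl]
    have h1 : ∑ b ∈ univ.erase a, (if a = b then η a - R i a else Mo i a b) = R i a :=
      Finset.sum_congr rfl (fun b hb => if_neg (Finset.ne_of_mem_erase hb).symm)
    rw [h1]
    exact Nat.sub_add_cancel (hRle i a)
  · intro a b hab
    have h1 : ∑ i, (if a = b then η a - R i a else Mo i a b) = Y a b := by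
      simp only [if_neg hab]
      exact hMsum a b hab
    rw [h1]
    exact hYη a b hab
  · intro a
    have h1 : ∑ i : Fin k, (if a = a then η a - R i a else Mo i a a) + ∑ i, R i a = k * η a := by
      rw [← Finset.sum_add_distrib]
      have h2 : ∀ i : Fin k, (if a = a then η a - R i a else Mo i a a) + R i a = η a := by
        intro i
        rw [if_pos rfl]
        exact Nat.sub_add_cancel (hRle i a)
      rw [Finset.sum_congr rfl (fun i _ => h2 i), Finset.sum_const, Finset.card_univ, Fintype.card_fin, smul_eq_mul]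
    rw [hRsum a] at h1
    have h3 := hH2 a
    omega
  · intro a b hab
    simp only [if_neg hab]
    exact hMsum a b hab

end Pool.Agent.Work.MP_1ce445_low
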