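import Pool.Agent.Work.MP_1ce445_low.Interface3

/-! Block SCL: scaling of the weighted graph of a type system. -/

set_option autoImplicit false

namespace Pool.Agent.Work.MP_1ce445_low

open Finset Pool.Agent.Work.MP_1ce445_co_56 Pool.Agent.Work.MP_1ce445_lin

theorem p_SCL : Stmt_SCL := by
  rintro D D' v hD' hle ⟨ι, i1, i2, q, S, rfl⟩
  have hD : 0 < D := lt_of_lt_of_le hD' hle
  have hr0 : 0 ≤ D' / D := (div_pos hD' hD).le
  have hr1 : D' / D ≤ 1 := (div_le_one hD).mpr hle
  refine ⟨ι, i1, i2, q, ⟨S.T, S.w, fun s t => D' / D * S.x s t, S.ne, S.w_pos, S.w_sum, ?_, ?_, ?_, ?_, ?_⟩, rfl⟩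
  · intro s t
    show D' / D * S.x s t = D' / D * S.x t s
    rw [S.symm s t]
  · intro s t
    exact mul_nonneg hr0 (S.nonneg s t)
  · intro s t
    calc D' / D * S.x s t ≤ 1 * S.x s t := mul_le_mul_of_nonneg_right hr1 (S.nonneg s t)
      _ = S.x s t := one_mul _
      _ ≤ S.w s * S.w t := S.le s t
  · intro s t h
    show D' / D * S.x s t = 0
    rw [S.zero s t h, mul_zero]
  · intro s
    show ∑ t, D' / D * S.x s t = D' * S.w s
    rw [← Finset.mul_sum, S.row s, ← mul_assoc, div_mul_cancel₀ _ hD.ne']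

end Pool.Agent.Work.MP_1ce445_low
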