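import Pool.Agent.Work.MP_1ce445_low.Interface3

/-!
MP_1ce445_co, block CNT: the leading constant is monotone and continuous.
-/

namespace Pool.Agent.Work.MP_1ce445_low

open Finset Pool.Agent.Work.MP_1ce445_co_56 Pool.Agent.Work.MP_1ce445_lin

theorem CNT_mono (hS : Stmt_SCL) (hA : Stmt_A27) (hV : Stmt_VAL) : MonotoneOn FF (Set.Ioo 0 1) := by
  intro c hc c' hc' hcc
  have h0 : 0 < 1 - c' := by have := hc'.2; linarith
  have hle : 1 - c' ≤ 1 - c := by linarith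
  refine csSup_le_csSup ⟨1, ?_⟩ ⟨1 / 27, hA (1 - c) (by have := hc.2; linarith) (by have := hc.1; linarith)⟩ ?_
  · intro v hv
    exact (hV _ v hv).2
  · intro v hv
    exact hS (1 - c) (1 - c') v h0 hle hv

theorem CNT_key (hU : Stmt_LIMU) (hL : Stmt_LIML) (c η : ℝ) (h0 : 0 < c) (h1 : c < 1) (hη : 0 < η) :
    ∃ δ : ℝ, 0 < δ ∧ ∀ c' : ℝ, 0 < c' → c' < 1 → |c' - c| ≤ δ → |FF c' - FF c| ≤ 2 * η := by
  obtain ⟨δ1, n1, hδ1, H1⟩ := hU c η h0 h1 hη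
  obtain ⟨δ2, n2, hδ2, H2⟩ := hL c η h0 h1 hη
  refine ⟨min δ1 δ2 / 2, by positivity, ?_⟩
  intro c' h0' h1' hcc
  obtain ⟨δ3, n3, hδ3, H3⟩ := hU c' η h0' h1' hη
  obtain ⟨δ4, n4, hδ4, H4⟩ := hL c' η h0' h1' hη
  obtain ⟨m, hm⟩ := exists_nat_ge (1 / δ3 + 1 / δ4 + 2 / (min δ1 δ2))
  have hmin : 0 < min δ1 δ2 := lt_min hδ1 hδ2
  obtain ⟨n, hn⟩ : ∃ n : ℕ, n = n1 + n2 + n3 + n4 + m + 2 := ⟨_, rfl⟩
  have hmn : (m : ℝ) ≤ n := by
    rw [hn]; push_cast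
    have : (0 : ℝ) ≤ (n1 : ℝ) + n2 + n3 + n4 := by positivity
    linarith
  have hp3 : 0 < 1 / δ3 := by positivity
  have hp4 : 0 < 1 / δ4 := by positivity
  have hp5 : 0 < 2 / (min δ1 δ2) := by positivity
  have e3 : 1 ≤ δ3 * n := by
    have : 1 / δ3 ≤ n := by linarith
    rw [div_le_iff₀ hδ3] at this; linarith
  have e4 : 1 ≤ δ4 * n := by
    have : 1 / δ4 ≤ n := by linarith
    rw [div_le_iff₀ hδ4] at this; linarith
  have e5 : 2 ≤ min δ1 δ2 * n := by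
    have : 2 / (min δ1 δ2) ≤ n := by linarith
    rw [div_le_iff₀ hmin] at this; linarith
  obtain ⟨k, hk⟩ : ∃ k : ℕ, k = ⌊c' * n⌋₊ := ⟨_, rfl⟩
  have hcn : 0 ≤ c' * n := by positivity
  have hk1 : (k : ℝ) ≤ c' * n := by rw [hk]; exact Nat.floor_le hcn
  have hk2 : c' * n < k + 1 := by rw [hk]; exact Nat.lt_floor_add_one _
  have hkc' : |(k : ℝ) - c' * n| ≤ 1 := by rw [abs_le]; constructor <;> linarith
  have hnn : (0 : ℝ) ≤ n := Nat.cast_nonneg n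
  have hkc : |(k : ℝ) - c * n| ≤ min δ1 δ2 * n := by
    have a1 : (k : ℝ) - c * n = (k - c' * n) + (c' - c) * n := by ring
    rw [a1]
    have a2 : |(c' - c) * n| ≤ min δ1 δ2 / 2 * n := by
      rw [abs_mul, abs_of_nonneg hnn]
      exact mul_le_mul_of_nonneg_right hcc hnn
    have a3 := abs_add_le ((k : ℝ) - c' * n) ((c' - c) * n)
    linarith
  have b1 := H1 n k (by omega) (hkc.trans (mul_le_mul_of_nonneg_right (min_le_left _ _) hnn))
  have b2 := H2 n k (by omega) (hkc.trans (mul_le_mul_of_nonneg_right (min_le_right _ _) hnn))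
  have b3 := H3 n k (by omega) (hkc'.trans e3)
  have b4 := H4 n k (by omega) (hkc'.trans e4)
  have hNN : 0 < NN n := by unfold NN; omega
  have hX : (0 : ℝ) < (NN n : ℝ) ^ k := by
    have : (0 : ℝ) < NN n := by exact_mod_cast hNN
    positivity
  have c1 : FF c' - η ≤ FF c + η := le_of_mul_le_mul_right (b4.trans b1) hX
  have c2 : FF c - η ≤ FF c' + η := le_of_mul_le_mul_right (b2.trans b3) hX
  rw [abs_le]; constructor <;> linarith

theorem stmt_CNT (h1 : Stmt_LIMU) (h2 : Stmt_LIML) (h3 : Stmt_SCL) (h4 : Stmt_A27) (h5 : Stmt_VAL) : Stmt_CNT := by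
  refine ⟨CNT_mono h3 h4 h5, ?_⟩
  intro c hc
  rw [Metric.continuousWithinAt_iff]
  intro ε hε
  obtain ⟨δ, hδ, H⟩ := CNT_key h1 h2 c (ε / 4) hc.1 hc.2 (by positivity)
  refine ⟨δ, hδ, ?_⟩
  intro c' hc' hd
  rw [Real.dist_eq] at hd ⊢
  have := H c' hc'.1 hc'.2 hd.le
  linarith

end Pool.Agent.Work.MP_1ce445_low
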