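import Pool.Agent.Work.MP_1ce445_low.Interface

namespace Pool.Agent.Work.MP_1ce445_low

open Finset Pool.Agent.Work.MP_1ce445_co_56 Pool.Agent.Work.MP_1ce445_lin

theorem stmt_CVR : Stmt_CVR := by
  intro C V _ _ _ _ k η M cl μ h a b hab v w hv hw
  classical
  set A : Finset V := univ.filter (fun v => cl v = a) with hA
  set B : Finset V := univ.filter (fun v => cl v = b) with hB
  set S : Finset (Fin k × V) := univ.filter (fun p => cl p.2 = a ∧ cl (μ p.1 p.2) = b) with hS
  have hcS : S.card = η a * η b := by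
    rw [← hab, ← h.cnt a b, hS, Finset.card_filter, Fintype.sum_prod_type]
    apply Finset.sum_congr rfl
    intro i _
    rw [Finset.card_filter]
  have hcAB : (A ×ˢ B).card = η a * η b := by
    rw [Finset.card_product, hA, hB, h.card a, h.card b]
  have hinj : Set.InjOn (fun p : Fin k × V => (p.2, μ p.1 p.2)) (S : Set (Fin k × V)) := by
    rintro ⟨i, x⟩ _ ⟨j, y⟩ _ hxy
    simp only [Prod.mk.injEq] at hxy
    obtain ⟨h1, h2⟩ := hxy
    subst h1
    have := h.dis i j x h2
    subst this
    rfl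
  have hsub : S.image (fun p : Fin k × V => (p.2, μ p.1 p.2)) ⊆ A ×ˢ B := by
    intro q hq
    rw [Finset.mem_image] at hq
    obtain ⟨p, hp, rfl⟩ := hq
    rw [hS, Finset.mem_filter] at hp
    simp only [Finset.mem_product, hA, hB, Finset.mem_filter, Finset.mem_univ, true_and]
    exact hp.2
  have heq : S.image (fun p : Fin k × V => (p.2, μ p.1 p.2)) = A ×ˢ B := by
    apply Finset.eq_of_subset_of_card_le hsub
    rw [Finset.card_image_of_injOn hinj, hcS, hcAB]
  have hmem : (v, w) ∈ A ×ˢ B := by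
    simp only [Finset.mem_product, hA, hB, Finset.mem_filter, Finset.mem_univ, true_and]
    exact ⟨hv, hw⟩
  rw [← heq, Finset.mem_image] at hmem
  obtain ⟨⟨i, x⟩, _, hp⟩ := hmem
  simp only [Prod.mk.injEq] at hp
  refine ⟨i, ?_⟩
  rw [← hp.1]
  exact hp.2

end Pool.Agent.Work.MP_1ce445_low
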