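import Pool.Agent.Work.MP_1ce445_low.Interface

/-!
Block EVG: the factorization for a realized outline (typed by helper99).
-/

namespace Pool.Agent.Work.MP_1ce445_low

open Finset Pool.Agent.Work.MP_1ce445_co_56 Pool.Agent.Work.MP_1ce445_lin

section

variable {ι : Type} [Fintype ι] [DecidableEq ι] {q k : ℕ} {V : Type} [Fintype V] [DecidableEq V]

/-- The least common element of two types. -/
def EVG_el (T : ι → Finset (Fin q)) (s t : ι) : ℕ :=
  if h : (T s ∩ T t).Nonempty then ((T s ∩ T t).min' h).val else 0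

omit [Fintype ι] [DecidableEq ι] in
lemma EVG_el_symm (T : ι → Finset (Fin q)) (s t : ι) : EVG_el T s t = EVG_el T t s := by
  unfold EVG_el
  simp only [Finset.inter_comm (T t) (T s)]

omit [Fintype ι] [DecidableEq ι] in
lemma EVG_el_mem (T : ι → Finset (Fin q)) (s t : ι) (h : (T s ∩ T t).Nonempty) :
    ∃ x : Fin q, x ∈ T s ∧ x ∈ T t ∧ x.val = EVG_el T s t := by
  refine ⟨(T s ∩ T t).min' h, ?_, ?_, ?_⟩
  · exact (Finset.mem_inter.1 (Finset.min'_mem _ h)).1
  · exact (Finset.mem_inter.1 (Finset.min'_mem _ h)).2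
  · unfold EVG_el
    rw [dif_pos h]

/-- The factors. -/
def EVG_G {T : ι → Finset (Fin q)} {η : ι → ℕ} {M : Fin k → ι → ι → ℕ} {cl : V → ι}
    {μ : Fin k → V → V} (h : Realz k η M cl μ) (_ : ∀ s, (T s).Nonempty) (i : Fin k) :
    SimpleGraph V where
  Adj v w := μ i v = w ∨ (v ≠ w ∧ (∀ j, μ j v ≠ w) ∧ EVG_el T (cl v) (cl w) = i.val)
  symm := ⟨by
    rintro v w (h1 | ⟨h1, h2, h3⟩)
    · left
      rw [← h1]
      exact h.inv i v
    · right
      refine ⟨h1.symm, ?_, ?_⟩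
      · intro j hj
        apply h2 j
        rw [← hj]
        exact h.inv j w
      · rw [EVG_el_symm]
        exact h3⟩
  loopless := ⟨by
    rintro v (h1 | ⟨h1, -⟩)
    · exact h.ne i v h1
    · exact h1 rfl⟩

variable {T : ι → Finset (Fin q)} {η : ι → ℕ} {M : Fin k → ι → ι → ℕ} {cl : V → ι}
    {μ : Fin k → V → V}

lemma EVG_deg (h : Realz k η M cl μ) (hT : ∀ s, (T s).Nonempty) (i : Fin k) (v : V) :
    ∃ w, (EVG_G h hT i).Adj v w := ⟨μ i v, Or.inl rfl⟩

lemma EVG_inj (h : Realz k η M cl μ) (i : Fin k) : Function.Injective (μ i) := by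
  intro v w hvw
  rw [← h.inv i v, hvw, h.inv i w]

/-- Unused pairs have a common element. -/
lemma EVG_inter (hc : Stmt_CVR) (h : Realz k η M cl μ) (hT : ∀ s, (T s).Nonempty)
    (hd : ∀ s t, s ≠ t → Disjoint (T s) (T t) → ∑ i, M i s t = η s * η t) (v w : V)
    (hu : ∀ j, μ j v ≠ w) : (T (cl v) ∩ T (cl w)).Nonempty := by
  by_cases h1 : cl v = cl w
  · rw [h1, Finset.inter_self]
    exact hT _
  · by_contra h2
    rw [Finset.not_nonempty_iff_eq_empty, ← Finset.disjoint_iff_inter_eq_empty] at h2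
    obtain ⟨i, hi⟩ := hc ι V k η M cl μ h (cl v) (cl w) (hd _ _ h1 h2) v w rfl rfl
    exact hu i hi

lemma EVG_fact (hc : Stmt_CVR) (h : Realz k η M cl μ) (hT : ∀ s, (T s).Nonempty)
    (hd : ∀ s t, s ≠ t → Disjoint (T s) (T t) → ∑ i, M i s t = η s * η t) (hqk : q ≤ k) :
    IsFactorization (EVG_G h hT) := by
  apply IsFactorization.of_adj
  · intro i j v w hi hj
    rcases hi with h1 | ⟨-, h2, h3⟩
    · rcases hj with h4 | ⟨-, h5, -⟩
      · exact h.dis i j v (h1.trans h4.symm)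
      · exact absurd h1 (h5 i)
    · rcases hj with h4 | ⟨-, -, h6⟩
      · exact absurd h4 (h2 j)
      · exact Fin.ext (h3.symm.trans h6)
  · intro v w hvw
    by_cases h1 : ∃ j, μ j v = w
    · obtain ⟨j, hj⟩ := h1
      exact ⟨j, Or.inl hj⟩
    · push Not at h1
      obtain ⟨x, -, -, hx⟩ := EVG_el_mem T (cl v) (cl w) (EVG_inter hc h hT hd v w h1)
      have hx2 := x.2
      exact ⟨⟨x.val, by omega⟩, Or.inr ⟨hvw, h1, hx.symm⟩⟩
  · exact EVG_deg h hT

lemma EVG_cardV (h : Realz k η M cl μ) : Fintype.card V = ∑ s, η s := by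
  rw [← Finset.card_univ, Finset.card_eq_sum_card_fiberwise (f := cl) (t := univ)
    (fun v _ => Finset.mem_coe.2 (Finset.mem_univ _))]
  exact Finset.sum_congr rfl (fun s _ => h.card s)

lemma EVG_cardX (h : Realz k η M cl μ) (x : Fin q) :
    (univ.filter (fun v => x ∉ T (cl v))).card + PP T η x = ∑ s, η s := by
  have h1 : (univ.filter (fun v => x ∈ T (cl v))).card = PP T η x := by
    rw [Finset.card_eq_sum_card_fiberwise (f := cl) (t := univ)
      (fun v _ => Finset.mem_coe.2 (Finset.mem_univ _))]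
    unfold PP
    refine Finset.sum_congr rfl (fun s _ => ?_)
    rw [Finset.filter_filter]
    split_ifs with h2
    · rw [← h.card s]
      congr 1
      ext v
      simp only [Finset.mem_filter, Finset.mem_univ, true_and]
      constructor
      · exact fun h3 => h3.2
      · exact fun h3 => ⟨by rw [h3]; exact h2, h3⟩
    · rw [Finset.card_eq_zero, Finset.filter_eq_empty_iff]
      rintro v - ⟨h3, h4⟩
      rw [h4] at h3
      exact h2 h3
  rw [← h1, add_comm, Finset.card_filter_add_card_filter_not, Finset.card_univ]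
  exact EVG_cardV h

lemma EVG_g1 (hc : Stmt_CVR) (h : Realz k η M cl μ) (hT : ∀ s, (T s).Nonempty)
    (hd : ∀ s t, s ≠ t → Disjoint (T s) (T t) → ∑ i, M i s t = η s * η t) (i : Fin k)
    (hi : q ≤ i.val) : ∑ s, η s ≤ gammaT (EVG_G h hT i) := by
  rw [← EVG_cardV h]
  refine card_le_gammaT (EVG_deg h hT i) (fun x : V => x) (μ i) (EVG_inj h i) ?_
  rintro v w (h3 | ⟨-, h4, h5⟩)
  · exact h3.symm
  · obtain ⟨x, -, -, hx⟩ := EVG_el_mem T (cl v) (cl w) (EVG_inter hc h hT hd v w h4)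
    have hx2 := x.2
    omega

lemma EVG_g2 (hc : Stmt_CVR) (h : Realz k η M cl μ) (hT : ∀ s, (T s).Nonempty)
    (hd : ∀ s t, s ≠ t → Disjoint (T s) (T t) → ∑ i, M i s t = η s * η t) (i : Fin k)
    (x : Fin q) (hi : i.val = x.val) : ∑ s, η s - PP T η x ≤ gammaT (EVG_G h hT i) := by
  have h1 := EVG_cardX (T := T) h x
  have h2 : ∑ s, η s - PP T η x = (univ.filter (fun v => x ∉ T (cl v))).card := by omega
  rw [h2, ← Fintype.card_subtype]
  refine card_le_gammaT (EVG_deg h hT i) (fun v : {v : V // x ∉ T (cl v)} => v.1)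
    (fun v => μ i v.1) (fun v w hvw => Subtype.ext (EVG_inj h i hvw)) ?_
  rintro ⟨v, hv⟩ w (h3 | ⟨-, h4, h5⟩)
  · exact h3.symm
  · exfalso
    obtain ⟨y, hy1, -, hy⟩ := EVG_el_mem T (cl v) (cl w) (EVG_inter hc h hT hd v w h4)
    have h6 : y = x := Fin.ext (by simp only at h5; omega)
    rw [h6] at hy1
    exact hv hy1

end

/-- Block EVG. -/
theorem stmt_EVG (h1 : Stmt_DET) (h2 : Stmt_CVR) : Stmt_EVG := by
  intro ι _ _ q k T η M hqk hT hM hd
  obtain ⟨V, _, _, cl, μ, h⟩ := h1 ι k η M hM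
  have h3 := le_P (V := V) (ι := Fin k) (n := ∑ s, η s) (k := k) (EVG_cardV h)
    (Fintype.card_fin k) (EVG_fact h2 h hT hd hqk)
  refine le_trans ?_ h3
  obtain ⟨m, rfl⟩ : ∃ m, k = q + m := ⟨k - q, by omega⟩
  rw [Fin.prod_univ_add, mul_comm]
  refine Nat.mul_le_mul ?_ ?_
  · exact Finset.prod_le_prod' (fun x _ => EVG_g2 h2 h hT hd _ x (by simp))
  · calc (∑ s, η s) ^ (q + m - q) = ∏ _i : Fin m, (∑ s, η s) := by
          rw [Finset.prod_const, Finset.card_univ, Fintype.card_fin, Nat.add_sub_cancel_left]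
      _ ≤ _ := Finset.prod_le_prod' (fun i _ => EVG_g1 h2 h hT hd _ (by simp))

end Pool.Agent.Work.MP_1ce445_low
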