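import Pool.Agent.Work.MP_1ce445_low.Interface

/-!
Block GEN (helper12): the lower bound for an arbitrary type system.
-/

namespace Pool.Agent.Work.MP_1ce445_low

open Finset Pool.Agent.Work.MP_1ce445_co_56 Pool.Agent.Work.MP_1ce445_lin

theorem stmt_GEN (h1 : Stmt_ASY) (h2 : Stmt_PER) : Stmt_GEN := by
  intro ι _ _ q D c S hD hDc hc ε hε
  obtain ⟨S', hS', hval⟩ := h2 ι q D (1 - c) (ε / 2) S (by linarith) (by linarith) hD (by linarith)
  obtain ⟨δ, n0, hδ, h⟩ := h1 (Option ι) q (1 - c) S' hS' (ε / 2) (by linarith)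
  refine ⟨δ, n0, hδ, fun n k hn hk => ?_⟩
  have h3 := h n k hn (by
    have h4 : (1 - (1 - c)) = c := by ring
    rw [h4]
    exact hk)
  refine le_trans ?_ h3
  exact mul_le_mul_of_nonneg_right (by linarith) (by positivity)

end Pool.Agent.Work.MP_1ce445_low
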