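import Pool.Agent.Work.MP_1ce445_low.Interface

/-!
# Block HAL (insurance copy, helper44)
-/

namespace Pool.Agent.Work.MP_1ce445_low

open Finset Pool.Agent.Work.MP_1ce445_co_56 Pool.Agent.Work.MP_1ce445_lin

theorem HALx_card {V : Type} [Fintype V] [DecidableEq V] (k : ℕ) (μ : Fin k → V → V) (x : V)
    (hd : ∀ i j v, μ i v = μ j v → i = j) (hk : k + 3 ≤ Fintype.card V) :
    2 ≤ (univ.filter (fun w => w ≠ x ∧ ∀ j, μ j x ≠ w)).card := by
  have h1 : (univ.filter (fun w => w ≠ x ∧ ∀ j, μ j x ≠ w)) =
      (insert x (univ.image (fun j => μ j x)))ᶜ := by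
    ext w
    simp only [mem_filter, mem_univ, true_and, mem_compl, mem_insert, mem_image, not_or, not_exists]
  rw [h1, card_compl]
  have h2 : (insert x (univ.image (fun j => μ j x))).card ≤ k + 1 := by
    refine (card_insert_le _ _).trans ?_
    have : (univ.image (fun j => μ j x)).card ≤ k := by
      refine card_image_le.trans ?_
      simp
    omega
  omega

theorem stmt_HALx : Stmt_HAL := by
  intro V _ _ k μ y0 hinv hne hd hk
  classical
  let t : Fin k → Finset (Sym2 V) := fun i =>
    (univ.filter (fun w => w ≠ μ i y0 ∧ ∀ j, μ j (μ i y0) ≠ w)).image (fun w => s(μ i y0, w))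
  have hcard : ∀ i, 2 ≤ (t i).card := by
    intro i
    have h1 := HALx_card k μ (μ i y0) hd hk
    have h2 : (t i).card = (univ.filter (fun w => w ≠ μ i y0 ∧ ∀ j, μ j (μ i y0) ≠ w)).card := by
      apply card_image_of_injective
      intro a b hab
      have hab' : s(μ i y0, a) = s(μ i y0, b) := hab
      rw [Sym2.eq_iff] at hab'
      rcases hab' with ⟨_, h⟩ | ⟨h1, h2⟩
      · exact h
      · rw [h2, ← h1]
    omega
  have hall : ∀ I : Finset (Fin k), I.card ≤ (I.biUnion t).card := by
    intro I
    have h1 : 2 * I.card ≤ ∑ i ∈ I, (t i).card := by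
      have := Finset.card_nsmul_le_sum I (fun i => (t i).card) 2 (fun i _ => hcard i)
      simpa [mul_comm] using this
    have h2 : ∑ i ∈ I, (t i).card = ∑ e ∈ I.biUnion t, (I.filter (fun i => e ∈ t i)).card := by
      have e1 : ∀ i ∈ I, (t i).card = ∑ e ∈ I.biUnion t, if e ∈ t i then 1 else 0 := by
        intro i hi
        rw [← Finset.card_filter]
        congr 1
        ext e
        simp only [mem_filter, mem_biUnion]
        constructor
        · intro h; exact ⟨⟨i, hi, h⟩, h⟩
        · intro h; exact h.2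
      rw [Finset.sum_congr rfl e1, Finset.sum_comm]
      apply Finset.sum_congr rfl
      intro e _
      rw [← Finset.card_filter]
    have h3 : ∀ e ∈ I.biUnion t, (I.filter (fun i => e ∈ t i)).card ≤ 2 := by
      intro e _
      induction e with
      | _ a b =>
        have h4 : (I.filter (fun i => s(a, b) ∈ t i)).image (fun i => μ i y0) ⊆ {a, b} := by
          intro v hv
          rw [mem_image] at hv
          obtain ⟨i, hi, rfl⟩ := hv
          rw [mem_filter] at hi
          obtain ⟨w, _, hw⟩ := mem_image.1 hi.2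
          have hw' : s(μ i y0, w) = s(a, b) := hw
          rw [Sym2.eq_iff] at hw'
          rcases hw' with ⟨h, _⟩ | ⟨h, _⟩ <;> simp [h]
        have h5 : ((I.filter (fun i => s(a, b) ∈ t i)).image (fun i => μ i y0)).card =
            (I.filter (fun i => s(a, b) ∈ t i)).card :=
          card_image_of_injective _ (fun i j hij => hd i j y0 hij)
        rw [← h5]
        exact (card_le_card h4).trans card_le_two
    have h6 : ∑ e ∈ I.biUnion t, (I.filter (fun i => e ∈ t i)).card ≤ (I.biUnion t).card * 2 := by
      have := Finset.sum_le_card_nsmul (I.biUnion t) (fun e => (I.filter (fun i => e ∈ t i)).card) 2 h3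
      simpa using this
    omega
  obtain ⟨f, hf, hf'⟩ := (Finset.all_card_le_biUnion_card_iff_exists_injective t).1 hall
  have hz : ∀ i, ∃ w, (w ≠ μ i y0 ∧ ∀ j, μ j (μ i y0) ≠ w) ∧ s(μ i y0, w) = f i := by
    intro i
    obtain ⟨w, hw, hw'⟩ := mem_image.1 (hf' i)
    exact ⟨w, (mem_filter.1 hw).2, hw'⟩
  choose z hz1 hz2 using hz
  refine ⟨z, fun i => (hz1 i).1, fun i j => (hz1 i).2 j, ?_⟩
  intro i j hij
  have : s(μ i y0, z i) = s(μ j y0, z j) := hij
  rw [hz2, hz2] at this
  exact hf this

end Pool.Agent.Work.MP_1ce445_low
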