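import Pool.Agent.Work.MP_1ce445_low.Interface3

/-!
Block LIML: the lower bound with the supremum of the values (typed by helper99).
-/

namespace Pool.Agent.Work.MP_1ce445_low

open Finset Pool.Agent.Work.MP_1ce445_co_56 Pool.Agent.Work.MP_1ce445_lin

/-- Block LIML. -/
theorem stmt_LIML (h1 : Stmt_GEN) (h2 : Stmt_A27) (_ : Stmt_VAL) : Stmt_LIML := by
  intro c ε hc0 hc1 hε
  have hne : {v : ℝ | HasVal (1 - c) v}.Nonempty :=
    ⟨1 / 27, h2 (1 - c) (by linarith) (by linarith)⟩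
  have hb : FF c - ε / 2 < sSup {v : ℝ | HasVal (1 - c) v} := by
    have h4 : FF c = sSup {v : ℝ | HasVal (1 - c) v} := rfl
    rw [← h4]
    linarith
  obtain ⟨v, hv, hv2⟩ := exists_lt_of_lt_csSup hne hb
  obtain ⟨ι, _, _, q, S, hS⟩ := hv
  obtain ⟨δ, n0, hδ, h5⟩ := h1 ι q (1 - c) c S (by linarith) (by linarith) hc1 (ε / 2)
    (by linarith)
  refine ⟨δ, n0, hδ, fun n k hn hk => ?_⟩
  refine le_trans ?_ (h5 n k hn hk)
  refine mul_le_mul_of_nonneg_right ?_ (by positivity)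
  rw [hS]
  linarith

end Pool.Agent.Work.MP_1ce445_low
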