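import Pool.Agent.Work.MP_1ce445_low.Interface3
import Pool.Agent.Work.MP_1ce445_lin.UP2

/-!
Block LIMU of THEOREM LIM (MP_1ce445_co): the upper bound, from COR2, A27, VAL and UPS.
-/

namespace Pool.Agent.Work.MP_1ce445_low

open Finset Pool.Agent.Work.MP_1ce445_co_56 Pool.Agent.Work.MP_1ce445_lin

lemma LIMU_exp : Real.exp (-4) ≤ 1 / 27 := by
  have h1 : Real.exp (-1) ≤ 10 / 27 := by
    have h2 : (27 / 10 : ℝ) ≤ Real.exp 1 := by
      have := Real.exp_one_gt_d9
      linarith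
    rw [Real.exp_neg, inv_eq_one_div]
    have h3 : (10 / 27 : ℝ) = 1 / (27 / 10) := by norm_num
    rw [h3]
    exact one_div_le_one_div_of_le (by norm_num) h2
  have h2 : Real.exp (-4) = Real.exp (-1) ^ 4 := by
    rw [← Real.exp_nat_mul]
    norm_num
  rw [h2]
  have h3 := pow_le_pow_left₀ (Real.exp_pos (-1)).le h1 4
  norm_num at h3
  linarith

lemma LIMU_FF (h2 : Stmt_A27) (h3 : Stmt_VAL) (c : ℝ) (h0 : 0 < c) (h1 : c < 1) :
    1 / 27 ≤ FF c ∧ FF c ≤ 1 := by
  have hv : HasVal (1 - c) (1 / 27) := h2 (1 - c) (by linarith) (by linarith)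
  have hb : BddAbove {v : ℝ | HasVal (1 - c) v} := ⟨1, fun v hv => (h3 _ v hv).2⟩
  constructor
  · exact le_csSup hb hv
  · exact csSup_le ⟨_, hv⟩ fun v hv => (h3 _ v hv).2

lemma LIMU_bd {ι : Type} [DecidableEq ι] (M : Finset ι) (p q : ι → ℝ) (s t B : ℝ) (hs0 : 0 ≤ s) (hs1 : s ≤ 1)
    (ht : 0 ≤ t) (hq0 : ∀ j, 0 ≤ q j) (hq1 : ∀ j, q j ≤ 1) (hpq : ∀ j, (1 - s) * q j ≤ p j) (hp1 : ∀ j, p j ≤ 1)
    (hB : ∑ j ∈ M, q j ≤ 5 → ∏ j ∈ M, (1 - q j) ≤ B) (hst : 5 * s + t * M.card ≤ 1) :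
    ∏ j ∈ M, (1 - p j + t) ≤ max (Real.exp (-4)) (B + 5 * s + ((1 + t) ^ M.card - 1)) := by
  rcases le_total (∑ j ∈ M, q j) 5 with h5 | h5
  · exact UP2_bd M p q s t B hs0 hs1 ht hq0 hq1 hpq hp1 (hB h5) hst
  · refine le_trans ?_ (le_max_left _ _)
    have e1 : ∏ j ∈ M, (1 - p j + t) ≤ ∏ j ∈ M, Real.exp (-p j + t) := by
      apply prod_le_prod
      · intro j _
        have := hp1 j
        linarith
      · intro j _
        have := Real.add_one_le_exp (-p j + t)
        linarith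
    rw [← Real.exp_sum] at e1
    refine e1.trans (Real.exp_le_exp.2 ?_)
    rw [sum_add_distrib, sum_neg_distrib, sum_const, nsmul_eq_mul]
    have e2 : (1 - s) * ∑ j ∈ M, q j ≤ ∑ j ∈ M, p j := by
      rw [mul_sum]
      exact sum_le_sum fun j _ => hpq j
    have e3 : (1 - s) * 5 ≤ (1 - s) * ∑ j ∈ M, q j := mul_le_mul_of_nonneg_left h5 (by linarith)
    linarith

open Classical in
lemma LIMU_deg (n k : ℕ) (M : Finset (Fin k)) (W : Fin n → Fin n → Prop)
    (Vg : Finset (Fin n)) (s δ c s1 : ℝ) (hn : 0 < n) (hs0 : 0 < s) (hs1 : s ≤ 1 / 10) (hc0 : 0 < c) (hc1 : c < 1)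
    (hδ : δ ≤ s) (h8 : 8 * s ≤ s1)
    (hVg : (1 - s) * n ≤ Vg.card)
    (hlo : ∀ v ∈ Vg, (n : ℝ) - 1 - k - s * n ≤ ((univ.filter (fun w => W v w)).card : ℝ))
    (hup : ∀ v, ((univ.filter (fun w => W v w)).card : ℝ) ≤ (n : ℝ) - 1 - k + M.card)
    (hM : (M.card : ℝ) ≤ s * n) (h1n : 1 ≤ s * n) (hk : |(k : ℝ) - c * n| ≤ δ * n) (v : Vg) :
    |(((univ : Finset Vg).filter (fun w => W v.1 w.1)).card : ℝ) - (1 - c) * Fintype.card Vg| ≤
      s1 * Fintype.card Vg := by
  have hnR : (0 : ℝ) < n := by exact_mod_cast hn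
  have hVn : Vg.card ≤ n := by
    have h := card_le_univ Vg
    rwa [Fintype.card_fin] at h
  have hVnR : (Vg.card : ℝ) ≤ n := by exact_mod_cast hVn
  rw [UP2_card Vg (fun w => W v.1 w), Fintype.card_coe]
  obtain ⟨hk1, hk2⟩ := abs_le.1 hk
  have hδn : δ * n ≤ s * n := mul_le_mul_of_nonneg_right hδ hnR.le
  have hlo' := hlo v.1 v.2
  have hup' := hup v.1
  have h2 : (univ.filter (fun w => W v.1 w)).card ≤ (Vg.filter (fun w => W v.1 w)).card + (Vgᶜ).card := by
    have h3 : univ.filter (fun w => W v.1 w) ⊆ Vg.filter (fun w => W v.1 w) ∪ Vgᶜ := by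
      intro w hw
      rw [mem_filter] at hw
      rw [mem_union, mem_filter, mem_compl]
      by_cases hwV : w ∈ Vg
      · exact Or.inl ⟨hwV, hw.2⟩
      · exact Or.inr hwV
    exact (card_le_card h3).trans (card_union_le _ _)
  have h3 : Vg.card + (Vgᶜ).card = n := by
    have h := card_add_card_compl Vg
    rwa [Fintype.card_fin] at h
  have h2' : ((univ.filter (fun w => W v.1 w)).card : ℝ) ≤ (Vg.filter (fun w => W v.1 w)).card + (Vgᶜ).card := by
    exact_mod_cast h2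
  have h3' : (Vg.card : ℝ) + (Vgᶜ).card = n := by exact_mod_cast h3
  have h4 : (Vg.filter (fun w => W v.1 w)).card ≤ (univ.filter (fun w => W v.1 w)).card :=
    card_le_card (filter_subset_filter _ (subset_univ _))
  have h4' : ((Vg.filter (fun w => W v.1 w)).card : ℝ) ≤ (univ.filter (fun w => W v.1 w)).card := by
    exact_mod_cast h4
  have hsn : s * n ≤ 1 / 10 * n := mul_le_mul_of_nonneg_right hs1 hnR.le
  -- `4 s n ≤ s1 |V|`
  have h5 : 4 * s * n ≤ s1 * Vg.card := by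
    have h6 : 8 * s * ((1 - s) * n) ≤ 8 * s * Vg.card := mul_le_mul_of_nonneg_left hVg (by linarith)
    have h7 : 8 * s * Vg.card ≤ s1 * Vg.card := mul_le_mul_of_nonneg_right h8 (Nat.cast_nonneg _)
    have h8 : 4 * s * n ≤ 8 * s * ((1 - s) * n) := by
      have h9 : 8 * s * ((1 - s) * n) = 8 * (s * n) - 8 * s * (s * n) := by ring
      have h10 : s * (s * n) ≤ 1 / 10 * (s * n) := mul_le_mul_of_nonneg_right hs1 (by positivity)
      linarith
    linarith
  have h6 : (1 - c) * Vg.card ≤ (1 - c) * n := mul_le_mul_of_nonneg_left hVnR (by linarith)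
  have h7 : (1 - c) * ((1 - s) * n) ≤ (1 - c) * Vg.card := mul_le_mul_of_nonneg_left hVg (by linarith)
  have h8 : (1 - c) * ((1 - s) * n) = (1 - c) * n - s * n + c * (s * n) := by ring
  have h9 : 0 ≤ c * (s * n) := by positivity
  rw [abs_le]
  constructor
  · linarith
  · linarith

theorem stmt_LIMU (h1 : Pool.Agent.Work.MP_1ce445_lin.Stmt_COR2) (h2 : Stmt_A27) (h3 : Stmt_VAL) (h4 : Stmt_UPS) :
    Stmt_LIMU := by
  intro c ε hc0 hc1 hε
  obtain ⟨hF27, hF1⟩ := LIMU_FF h2 h3 c hc0 hc1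
  obtain ⟨s1, hs1pos, hups⟩ := h4 (1 - c) (ε / 8) (by linarith) (by linarith) (by positivity)
  rw [sub_sub_cancel] at hups
  -- the constants
  obtain ⟨s, hs0, hs10, hss1, hsε⟩ : ∃ s : ℝ, 0 < s ∧ s ≤ 1 / 10 ∧ 8 * s ≤ s1 ∧ 5 * s ≤ ε / 8 := by
    refine ⟨min (1 / 10) (min (s1 / 8) (ε / 40)), by positivity, min_le_left _ _, ?_, ?_⟩
    · have : min (1 / 10) (min (s1 / 8) (ε / 40)) ≤ s1 / 8 := (min_le_right _ _).trans (min_le_left _ _)
      linarith
    · have : min (1 / 10) (min (s1 / 8) (ε / 40)) ≤ ε / 40 := (min_le_right _ _).trans (min_le_right _ _)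
      linarith
  obtain ⟨δ, hδ0, hδs, hδc⟩ : ∃ δ : ℝ, 0 < δ ∧ δ ≤ s ∧ δ ≤ 1 - c :=
    ⟨min s (1 - c), lt_min hs0 (by linarith), min_le_left _ _, min_le_right _ _⟩
  have hs1 : s ≤ 1 := by linarith
  set τ : ℝ := s ^ 2 / 30 with hτ
  have hτ0 : 0 < τ := by positivity
  have hτs : τ ≤ s := by
    rw [hτ]
    nlinarith
  have hτ1 : τ ≤ 1 := hτs.trans hs1
  obtain ⟨K, hK⟩ := exists_nat_ge (5 / τ)
  obtain ⟨e1, he0, he4, he5⟩ : ∃ e1 : ℝ, 0 < e1 ∧ e1 ≤ ε / 8 ∧ e1 ≤ 1 / 4 :=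
    ⟨min (ε / 8) (1 / 4), by positivity, min_le_left _ _, min_le_right _ _⟩
  obtain ⟨t, ht0, hft, htK⟩ : ∃ t : ℝ, 0 < t ∧ (∀ x, 0 ≤ x → x ≤ t → (1 + x) ^ K < 1 + e1) ∧ t * K ≤ 1 / 2 := by
    obtain ⟨t, ht0, hft⟩ := UP2_small (f := fun t : ℝ => (1 + t) ^ K) (by fun_prop)
      (c := 1 + e1) (by
        simp only [add_zero, one_pow]
        linarith)
    refine ⟨min t (1 / (2 * ((K : ℝ) + 1))), by positivity, fun x hx hxt => hft x hx (hxt.trans (min_le_left _ _)), ?_⟩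
    have hK0 : (0 : ℝ) ≤ K := Nat.cast_nonneg _
    calc min t (1 / (2 * ((K : ℝ) + 1))) * K ≤ 1 / (2 * ((K : ℝ) + 1)) * ((K : ℝ) + 1) := by
          apply mul_le_mul (min_le_right _ _) (by linarith) hK0 (by positivity)
      _ = 1 / 2 := by
          field_simp
  obtain ⟨R, hR⟩ : ∃ R : ℕ, (1 - τ ^ 2) ^ R < t / 2 := by
    apply exists_pow_lt_of_lt_one (by positivity)
    have : 0 < τ ^ 2 := by positivity
    linarith
  obtain ⟨N1, hN1⟩ := exists_nat_gt (2 * R / t)
  obtain ⟨N2, hN2⟩ := exists_nat_gt (1 / τ)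
  obtain ⟨N3, hN3⟩ := exists_nat_gt (2 / t)
  obtain ⟨N4, hN4⟩ := exists_nat_gt ((K : ℝ) / s)
  refine ⟨δ, N1 + N2 + N3 + N4 + 2, hδ0, fun n k hn hk => ?_⟩
  have hnR : ((N1 : ℝ) + N2 + N3 + N4 + 2) ≤ n := by exact_mod_cast hn
  have hN1' : (0 : ℝ) ≤ N1 := Nat.cast_nonneg _
  have hN2' : (0 : ℝ) ≤ N2 := Nat.cast_nonneg _
  have hN3' : (0 : ℝ) ≤ N3 := Nat.cast_nonneg _
  have hN4' : (0 : ℝ) ≤ N4 := Nat.cast_nonneg _
  have hnpos : (0 : ℝ) < n := by linarith
  have hn2 : 2 ≤ n := by omega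
  have hn0 : 0 < n := by omega
  have hτn : 1 ≤ τ * n := by
    have h5 : 1 / τ < n := by linarith
    rw [div_lt_iff₀ hτ0] at h5
    linarith
  have hRn : (R : ℝ) / n ≤ t / 2 := by
    have h5 : 2 * R / t < n := by linarith
    rw [div_lt_iff₀ ht0] at h5
    rw [div_le_iff₀ hnpos]
    linarith
  have hwt : 2 / (n : ℝ) ≤ t := by
    have h5 : 2 / t < n := by linarith
    rw [div_lt_iff₀ ht0] at h5
    rw [div_le_iff₀ hnpos]
    linarith
  have hKn : (K : ℝ) ≤ s * n := by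
    have h5 : (K : ℝ) / s < n := by linarith
    rw [div_lt_iff₀ hs0] at h5
    linarith
  have hw0 : 0 ≤ 2 / (n : ℝ) := by positivity
  have h1sn : 1 ≤ s * n := hτn.trans (mul_le_mul_of_nonneg_right hτs hnpos.le)
  have hkn : k ≤ n := by
    have h5 := (abs_le.1 hk).2
    have h6 : δ * n ≤ (1 - c) * n := mul_le_mul_of_nonneg_right hδc hnpos.le
    have h7 : (k : ℝ) ≤ n := by linarith
    exact_mod_cast h7
  have hFF0 : 0 ≤ FF c := by linarith
  rcases P_attained n k with h0 | ⟨G, hG, hP⟩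
  · rw [h0]
    simp only [Nat.cast_zero]
    positivity
  rw [hP]
  push_cast
  rcases h1 n k R G s t hG hs0 hs1 hτn hkn (by linarith) with h5 | ⟨M, T, W, Vg, hM, hT, hVg, hsy, hme, hlo, hup, hγ, hγN⟩
  · refine h5.trans ?_
    apply mul_le_mul_of_nonneg_right _ (by positivity)
    have := LIMU_exp
    linarith
  · have hMK : M.card ≤ K := by
      have h5 : (M.card : ℝ) ≤ K := hM.trans hK
      exact_mod_cast h5
    have hMKR : (M.card : ℝ) ≤ K := by exact_mod_cast hMK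
    have hVpos : (0 : ℝ) < Vg.card := by
      have : 0 < (1 - s) * n := mul_pos (by linarith) hnpos
      linarith
    set q : Fin k → ℝ := fun j => (((univ : Finset Vg).filter (fun v => j ∈ T v.1)).card : ℝ) / Fintype.card Vg with hq
    have hq' : ∀ j, q j = ((Vg.filter (fun v => j ∈ T v)).card : ℝ) / Vg.card := by
      intro j
      simp only [hq]
      rw [UP2_card Vg (fun v => j ∈ T v), Fintype.card_coe]
    have hq0 : ∀ j, 0 ≤ q j := fun j => by
      rw [hq']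
      positivity
    have hq1 : ∀ j, q j ≤ 1 := fun j => by
      rw [hq', div_le_one hVpos]
      have h5 : (Vg.filter (fun v => j ∈ T v)).card ≤ Vg.card := card_filter_le _ _
      exact_mod_cast h5
    have hall : ∑ j ∈ M, q j ≤ 5 → ∏ j ∈ M, (1 - q j) ≤ FF c + ε / 8 := by
      intro h5
      have h6 := hups Vg k M (fun v => T v.1) (fun v w => W v.1 w.1) (by
        rw [Fintype.card_coe]
        exact_mod_cast hVpos) (fun v => hT v.1) (fun v w h => hsy _ _ h) (fun v w h => hme _ _ h)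
        (fun v => LIMU_deg n k M W Vg s δ c s1 hn0 hs0 hs10 hc0 hc1 hδs hss1 hVg hlo hup (hMKR.trans hKn) h1sn hk v)
        h5
      exact h6
    set p : Fin k → ℝ := fun j => ((univ.filter (fun v => j ∈ T v)).card : ℝ) / n with hp
    have hp1 : ∀ j, p j ≤ 1 := fun j => by
      simp only [hp]
      rw [div_le_one hnpos]
      have h5 : (univ.filter (fun v => j ∈ T v)).card ≤ n := by
        have h6 := card_filter_le (univ : Finset (Fin n)) (fun v => j ∈ T v)
        simpa using h6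
      exact_mod_cast h5
    have hpq : ∀ j, (1 - s) * q j ≤ p j := by
      intro j
      simp only [hp]
      rw [le_div_iff₀ hnpos]
      have h5 : (Vg.filter (fun v => j ∈ T v)).card ≤ (univ.filter (fun v => j ∈ T v)).card :=
        card_le_card (filter_subset_filter _ (subset_univ _))
      have h5' : ((Vg.filter (fun v => j ∈ T v)).card : ℝ) ≤ (univ.filter (fun v => j ∈ T v)).card := by
        exact_mod_cast h5
      have h6 : q j * Vg.card = ((Vg.filter (fun v => j ∈ T v)).card : ℝ) := by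
        rw [hq', div_mul_cancel₀ _ hVpos.ne']
      have h7 : q j * ((1 - s) * n) ≤ q j * Vg.card := mul_le_mul_of_nonneg_left hVg (hq0 j)
      linarith
    have htM : t * M.card ≤ t * K := mul_le_mul_of_nonneg_left hMKR ht0.le
    have hbd := LIMU_bd M p q s t (FF c + ε / 8) hs0.le hs1 ht0.le hq0 hq1 hpq hp1 hall (by linarith)
    have hpow : ∀ x : ℝ, 0 ≤ x → x ≤ t → (1 + x) ^ M.card ≤ 1 + e1 := by
      intro x hx hxt
      have h5 : (1 + x) ^ M.card ≤ (1 + x) ^ K := pow_le_pow_right₀ (by linarith) hMK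
      have h6 : (1 + x) ^ K < 1 + e1 := hft x hx hxt
      linarith
    set A : ℝ := FF c with hA
    have hadd : ∏ j ∈ M, (1 - p j + t) ≤ A + ε / 2 := by
      refine hbd.trans (max_le ?_ ?_)
      · have := LIMU_exp
        linarith
      · have h5 := hpow t ht0.le le_rfl
        linarith
    have hin : ∏ j ∈ M, (gammaT (G j) : ℝ) ≤ (A + ε / 2) * ((1 + e1) * (NN n : ℝ) ^ M.card) := by
      calc ∏ j ∈ M, (gammaT (G j) : ℝ) ≤ ∏ j ∈ M, ((1 - p j + t) * n) := by
            apply prod_le_prod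
            · intro j _
              exact Nat.cast_nonneg _
            · intro j hj
              exact hγ j hj
        _ = (∏ j ∈ M, (1 - p j + t)) * (n : ℝ) ^ M.card := by
            rw [prod_mul_distrib, prod_const]
        _ ≤ (A + ε / 2) * (n : ℝ) ^ M.card :=
            mul_le_mul_of_nonneg_right hadd (by positivity)
        _ ≤ (A + ε / 2) * ((1 + e1) * (NN n : ℝ) ^ M.card) := by
            apply mul_le_mul_of_nonneg_left _ (by linarith)
            calc (n : ℝ) ^ M.card ≤ ((1 + 2 / n) * NN n) ^ M.card :=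
                  pow_le_pow_left₀ hnpos.le (UP2_NN n hn2) _
              _ = (1 + 2 / (n : ℝ)) ^ M.card * (NN n : ℝ) ^ M.card := mul_pow _ _ _
              _ ≤ (1 + e1) * (NN n : ℝ) ^ M.card :=
                  mul_le_mul_of_nonneg_right (hpow _ hw0 hwt) (by positivity)
    have hout : ∏ j ∈ Mᶜ, (gammaT (G j) : ℝ) ≤ (NN n : ℝ) ^ (Mᶜ).card := by
      rw [← prod_const]
      apply prod_le_prod
      · intro j _
        exact Nat.cast_nonneg _
      · intro j _
        exact_mod_cast hγN j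
    have hcard : M.card + (Mᶜ).card = k := by
      have h5 := card_add_card_compl M
      rw [Fintype.card_fin] at h5
      exact h5
    have hfin : (A + ε / 2) * (1 + e1) ≤ A + ε := by
      have h5 : e1 * A ≤ e1 * 1 := mul_le_mul_of_nonneg_left hF1 he0.le
      have h6 : ε * e1 ≤ ε * (1 / 4) := mul_le_mul_of_nonneg_left he5 hε.le
      linarith
    calc (∏ j, (gammaT (G j) : ℝ))
        = (∏ j ∈ M, (gammaT (G j) : ℝ)) * ∏ j ∈ Mᶜ, (gammaT (G j) : ℝ) :=
          (prod_mul_prod_compl M _).symm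
      _ ≤ ((A + ε / 2) * ((1 + e1) * (NN n : ℝ) ^ M.card)) * (NN n : ℝ) ^ (Mᶜ).card := by
          apply mul_le_mul hin hout
          · exact prod_nonneg fun j _ => Nat.cast_nonneg _
          · have : 0 ≤ A + ε / 2 := by linarith
            positivity
      _ = ((A + ε / 2) * (1 + e1)) * (NN n : ℝ) ^ (M.card + (Mᶜ).card) := by
          rw [pow_add]
          ring
      _ = ((A + ε / 2) * (1 + e1)) * (NN n : ℝ) ^ k := by rw [hcard]
      _ ≤ (A + ε) * (NN n : ℝ) ^ k := mul_le_mul_of_nonneg_right hfin (by positivity)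

end Pool.Agent.Work.MP_1ce445_low
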