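import Pool.Agent.Work.MP_1ce445_low.Interface3

/-! Block MRG: elements with small frequency are merged. -/

namespace Pool.Agent.Work.MP_1ce445_low

open Finset

/-- upper bound for a product of factors `1 - q` -/
theorem MRG_bonf {ι : Type} (F : Finset ι) (q : ι → ℝ) (h0 : ∀ j, 0 ≤ q j) (h1 : ∀ j, q j ≤ 1) :
    ∏ j ∈ F, (1 - q j) ≤ 1 - ∑ j ∈ F, q j + (∑ j ∈ F, q j) ^ 2 / 2 := by
  classical
  induction F using Finset.induction_on with
  | empty => simp
  | insert a F ha ih =>
    rw [Finset.prod_insert ha, Finset.sum_insert ha]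
    have h2 : (1 - q a) * ∏ j ∈ F, (1 - q j) ≤
        (1 - q a) * (1 - ∑ j ∈ F, q j + (∑ j ∈ F, q j) ^ 2 / 2) :=
      mul_le_mul_of_nonneg_left ih (by linarith [h1 a])
    refine h2.trans ?_
    have h3 : 0 ≤ q a * (∑ j ∈ F, q j) ^ 2 := mul_nonneg (h0 a) (sq_nonneg _)
    nlinarith [sq_nonneg (q a)]

/-- comparison of two products -/
theorem MRG_prod {ι : Type} (F : Finset ι) (a b d : ι → ℝ) (ha0 : ∀ j, 0 ≤ a j)
    (ha1 : ∀ j, a j ≤ 1) (hb0 : ∀ j, 0 ≤ b j) (hb1 : ∀ j, b j ≤ 1) (hd : ∀ j, 0 ≤ d j)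
    (h : ∀ j, a j ≤ b j + d j) : ∏ j ∈ F, a j ≤ ∏ j ∈ F, b j + ∑ j ∈ F, d j := by
  classical
  induction F using Finset.induction_on with
  | empty => simp
  | insert x F hx ih =>
    rw [Finset.prod_insert hx, Finset.prod_insert hx, Finset.sum_insert hx]
    have hB0 : 0 ≤ ∏ j ∈ F, b j := Finset.prod_nonneg (fun j _ => hb0 j)
    have hB1 : ∏ j ∈ F, b j ≤ 1 := Finset.prod_le_one (fun j _ => hb0 j) (fun j _ => hb1 j)
    have hD : 0 ≤ ∑ j ∈ F, d j := Finset.sum_nonneg (fun j _ => hd j)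
    have e1 : a x * ∏ j ∈ F, a j ≤ a x * (∏ j ∈ F, b j + ∑ j ∈ F, d j) :=
      mul_le_mul_of_nonneg_left ih (ha0 x)
    have e2 : a x * ∑ j ∈ F, d j ≤ ∑ j ∈ F, d j := mul_le_of_le_one_left hD (ha1 x)
    have e3 : a x * ∏ j ∈ F, b j ≤ (b x + d x) * ∏ j ∈ F, b j :=
      mul_le_mul_of_nonneg_right (h x) hB0
    have e4 : d x * ∏ j ∈ F, b j ≤ d x := mul_le_of_le_one_right (hd x) hB1
    nlinarith

/-- the property of a grouping -/
def MRG_good {κ : ℕ} (θ : ℝ) (M : Finset (Fin κ)) (q : Fin κ → ℝ) {α : Type} [DecidableEq α]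
    (g : Fin κ → α) : Prop :=
  ∀ x : α, (M.filter (fun j => g j = x)).card ≤ 1 ∨
    ∑ j ∈ M.filter (fun j => g j = x), q j ≤ 2 * θ

/-- transport of a grouping to `Fin` -/
theorem MRG_trans {κ : ℕ} {θ : ℝ} {M : Finset (Fin κ)} {q : Fin κ → ℝ} {α : Type} [Fintype α]
    [DecidableEq α] {g : Fin κ → α} (hg : MRG_good θ M q g) :
    ∃ g' : Fin κ → Fin (Fintype.card α), MRG_good θ M q g' := by
  refine ⟨fun j => Fintype.equivFin α (g j), fun x => ?_⟩
  have h : M.filter (fun j => Fintype.equivFin α (g j) = x) =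
      M.filter (fun j => g j = (Fintype.equivFin α).symm x) := by
    apply Finset.filter_congr
    intro j _
    constructor
    · intro h1
      rw [← h1, Equiv.symm_apply_apply]
    · intro h1
      rw [h1, Equiv.apply_symm_apply]
  rw [h]
  exact hg _

/-- merging of two light groups -/
theorem MRG_merge {κ : ℕ} {θ : ℝ} {M : Finset (Fin κ)} {q : Fin κ → ℝ} (h0 : ∀ j, 0 ≤ q j)
    {α : Type} [DecidableEq α] {g : Fin κ → α} (hg : MRG_good θ M q g) {x y : α} (hxy : x ≠ y)
    (hx : ∑ j ∈ M.filter (fun j => g j = x), q j ≤ θ)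
    (hy : ∑ j ∈ M.filter (fun j => g j = y), q j ≤ θ) :
    ∃ g' : Fin κ → {z : α // z ≠ y}, MRG_good θ M q g' := by
  refine ⟨fun j => if h : g j = y then ⟨x, hxy⟩ else ⟨g j, h⟩, fun z => ?_⟩
  by_cases hz : z.1 = x
  · right
    have h : M.filter (fun j => (if h : g j = y then (⟨x, hxy⟩ : {z : α // z ≠ y})
        else ⟨g j, h⟩) = z) ⊆ M.filter (fun j => g j = x) ∪ M.filter (fun j => g j = y) := by
      intro j hj
      rw [Finset.mem_filter] at hj
      rw [Finset.mem_union, Finset.mem_filter, Finset.mem_filter]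
      by_cases h1 : g j = y
      · exact Or.inr ⟨hj.1, h1⟩
      · left
        refine ⟨hj.1, ?_⟩
        have h2 := hj.2
        rw [dif_neg h1] at h2
        rw [← hz, ← h2]
    calc _ ≤ ∑ j ∈ M.filter (fun j => g j = x) ∪ M.filter (fun j => g j = y), q j :=
          Finset.sum_le_sum_of_subset_of_nonneg h (fun j _ _ => h0 j)
      _ ≤ ∑ j ∈ M.filter (fun j => g j = x) ∪ M.filter (fun j => g j = y), q j +
          ∑ j ∈ M.filter (fun j => g j = x) ∩ M.filter (fun j => g j = y), q j :=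
          le_add_of_nonneg_right (Finset.sum_nonneg (fun j _ => h0 j))
      _ = ∑ j ∈ M.filter (fun j => g j = x), q j + ∑ j ∈ M.filter (fun j => g j = y), q j :=
          Finset.sum_union_inter
      _ ≤ 2 * θ := by linarith
  · have h : M.filter (fun j => (if h : g j = y then (⟨x, hxy⟩ : {z : α // z ≠ y})
        else ⟨g j, h⟩) = z) = M.filter (fun j => g j = z.1) := by
      apply Finset.filter_congr
      intro j _
      constructor
      · intro h1
        by_cases h2 : g j = y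
        · rw [dif_pos h2] at h1
          exact absurd (congrArg Subtype.val h1).symm hz
        · rw [dif_neg h2] at h1
          exact congrArg Subtype.val h1
      · intro h1
        have h2 : g j ≠ y := by
          rw [h1]
          exact z.2
        rw [dif_neg h2]
        exact Subtype.ext h1
    rw [h]
    exact hg _

theorem MRG_exists (θ : ℝ) (κ : ℕ) (M : Finset (Fin κ)) (q : Fin κ → ℝ) (hθ : 0 < θ)
    (h0 : ∀ j, 0 ≤ q j) (hs : ∑ j ∈ M, q j ≤ 5) :
    ∃ (m : ℕ) (g : Fin κ → Fin m), (m : ℝ) ≤ 5 / θ + 1 ∧ MRG_good θ M q g := by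
  classical
  have hex : ∃ m : ℕ, ∃ g : Fin κ → Fin m, MRG_good θ M q g := by
    refine ⟨κ, fun j => j, fun x => Or.inl ?_⟩
    rw [Finset.card_le_one]
    intro a ha b hb
    exact (Finset.mem_filter.mp ha).2.trans (Finset.mem_filter.mp hb).2.symm
  obtain ⟨g, hg⟩ := Nat.find_spec hex
  refine ⟨Nat.find hex, g, ?_, hg⟩
  obtain ⟨S, hS⟩ : ∃ S : Fin (Nat.find hex) → ℝ,
      ∀ x, S x = ∑ j ∈ M.filter (fun j => g j = x), q j := ⟨_, fun _ => rfl⟩
  have hS0 : ∀ x, 0 ≤ S x := by
    intro x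
    rw [hS]
    exact Finset.sum_nonneg (fun j _ => h0 j)
  have hsum : ∑ x, S x = ∑ j ∈ M, q j := by
    rw [Finset.sum_congr rfl (fun x _ => hS x)]
    exact Finset.sum_fiberwise M g q
  have hone : (univ.filter (fun x => S x ≤ θ)).card ≤ 1 := by
    rw [Finset.card_le_one]
    intro x hx y hy
    by_contra hxy
    rw [Finset.mem_filter] at hx hy
    obtain ⟨g', hg'⟩ := MRG_merge h0 hg hxy (by rw [← hS]; exact hx.2) (by rw [← hS]; exact hy.2)
    obtain ⟨g'', hg''⟩ := MRG_trans hg'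
    have hlt : Fintype.card {z : Fin (Nat.find hex) // z ≠ y} < Nat.find hex := by
      have h1 := Fintype.card_subtype_lt (p := fun z : Fin (Nat.find hex) => z ≠ y) (x := y)
        (fun h => h rfl)
      rwa [Fintype.card_fin] at h1
    exact Nat.find_min hex hlt ⟨g'', hg''⟩
  have hbig : ((univ.filter (fun x => ¬ S x ≤ θ)).card : ℝ) * θ ≤ 5 := by
    calc ((univ.filter (fun x => ¬ S x ≤ θ)).card : ℝ) * θ
        = ∑ x ∈ univ.filter (fun x => ¬ S x ≤ θ), θ := by
          rw [Finset.sum_const, nsmul_eq_mul]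
      _ ≤ ∑ x ∈ univ.filter (fun x => ¬ S x ≤ θ), S x := by
          apply Finset.sum_le_sum
          intro x hx
          exact (not_le.mp (Finset.mem_filter.mp hx).2).le
      _ ≤ ∑ x, S x :=
          Finset.sum_le_sum_of_subset_of_nonneg (Finset.filter_subset _ _) (fun x _ _ => hS0 x)
      _ ≤ 5 := by rw [hsum]; exact hs
  have hcard : (univ.filter (fun x => S x ≤ θ)).card + (univ.filter (fun x => ¬ S x ≤ θ)).card =
      Nat.find hex := by
    rw [Finset.card_filter_add_card_filter_not, Finset.card_univ, Fintype.card_fin]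
  have hb : ((univ.filter (fun x => ¬ S x ≤ θ)).card : ℝ) ≤ 5 / θ := by
    rw [le_div_iff₀ hθ]
    exact hbig
  have h1 : ((univ.filter (fun x => S x ≤ θ)).card : ℝ) ≤ 1 := by exact_mod_cast hone
  rw [← hcard]
  push_cast
  linarith

theorem stmt_MRG : Stmt_MRG := by
  intro θ κ M q hθ hθ1 h0 h1 hs
  obtain ⟨m, g, hm, hg⟩ := MRG_exists θ κ M q hθ h0 hs
  refine ⟨m, g, ?_, ?_⟩
  · have : 10 / θ = 5 / θ + 5 / θ := by ring
    have h5 : 0 < 5 / θ := by positivity
    linarith
  · have key : ∀ x : Fin m, ∏ j ∈ M.filter (fun j => g j = x), (1 - q j) ≤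
        max 0 (1 - ∑ j ∈ M.filter (fun j => g j = x), q j) +
          θ * ∑ j ∈ M.filter (fun j => g j = x), q j := by
      intro x
      have hs0 : 0 ≤ ∑ j ∈ M.filter (fun j => g j = x), q j :=
        Finset.sum_nonneg (fun j _ => h0 j)
      rcases hg x with h | h
      · rcases Nat.le_one_iff_eq_zero_or_eq_one.mp h with h2 | h2
        · rw [Finset.card_eq_zero] at h2
          rw [h2]
          simp
        · obtain ⟨a, ha⟩ := Finset.card_eq_one.mp h2
          rw [ha, Finset.prod_singleton, Finset.sum_singleton]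
          have h3 := le_max_right 0 (1 - q a)
          have h4 := mul_nonneg hθ.le (h0 a)
          linarith
      · have h2 := MRG_bonf (M.filter (fun j => g j = x)) q h0 h1
        have h3 := le_max_right 0 (1 - ∑ j ∈ M.filter (fun j => g j = x), q j)
        nlinarith
    have hprod : ∏ j ∈ M, (1 - q j) = ∏ x : Fin m, ∏ j ∈ M.filter (fun j => g j = x), (1 - q j) :=
      (Finset.prod_fiberwise M g (fun j => 1 - q j)).symm
    have hsum : ∑ x : Fin m, ∑ j ∈ M.filter (fun j => g j = x), q j = ∑ j ∈ M, q j :=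
      Finset.sum_fiberwise M g q
    have h2 := MRG_prod (univ : Finset (Fin m))
      (fun x => ∏ j ∈ M.filter (fun j => g j = x), (1 - q j))
      (fun x => max 0 (1 - ∑ j ∈ M.filter (fun j => g j = x), q j))
      (fun x => θ * ∑ j ∈ M.filter (fun j => g j = x), q j)
      (fun x => Finset.prod_nonneg (fun j _ => by linarith [h1 j]))
      (fun x => Finset.prod_le_one (fun j _ => by linarith [h1 j]) (fun j _ => by linarith [h0 j]))
      (fun x => le_max_left _ _)
      (fun x => max_le zero_le_one (by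
        have := Finset.sum_nonneg (s := M.filter (fun j => g j = x)) (fun j _ => h0 j)
        linarith))
      (fun x => mul_nonneg hθ.le (Finset.sum_nonneg (fun j _ => h0 j))) key
    rw [hprod]
    refine h2.trans ?_
    rw [← Finset.mul_sum, hsum]
    have h6 : θ * ∑ j ∈ M, q j ≤ θ * 5 := mul_le_mul_of_nonneg_left hs hθ.le
    linarith

end Pool.Agent.Work.MP_1ce445_low
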