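import Pool.Agent.Work.MP_1ce445_low.Interface
import Pool.Agent.Work.MP_1ce445_lin.GAM

/-!
Block ODG: odd number of vertices (typed by helper23).
-/

namespace Pool.Agent.Work.MP_1ce445_low

open Finset Pool.Agent.Work.MP_1ce445_co_56 Pool.Agent.Work.MP_1ce445_lin

section constr

variable {ι V : Type} [Fintype ι] [DecidableEq ι] [Fintype V] [DecidableEq V] {q k : ℕ}
  {T : ι → Finset (Fin q)} {η : ι → ℕ} {M : Fin k → ι → ι → ℕ} {cl : V → ι} {μ : Fin k → V → V}

/-- the least common element of the types -/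
def ODG_el (T : ι → Finset (Fin q)) (cl : V → ι) (u v : V) (i : Fin k) : Prop :=
  ∃ a : Fin q, a.val = i.val ∧ a ∈ T (cl u) ∧ a ∈ T (cl v) ∧ ∀ b, b ∈ T (cl u) → b ∈ T (cl v) → a ≤ b

omit [Fintype ι] [DecidableEq ι] [Fintype V] [DecidableEq V] in
lemma ODG_el_symm {u v : V} {i : Fin k} (h : ODG_el T cl u v i) : ODG_el T cl v u i := by
  obtain ⟨a, h1, h2, h3, h4⟩ := h
  exact ⟨a, h1, h3, h2, fun b hb hb' => h4 b hb' hb⟩

omit [Fintype ι] [DecidableEq ι] [Fintype V] [DecidableEq V] in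
lemma ODG_el_unique {u v : V} {i j : Fin k} (h : ODG_el T cl u v i) (h' : ODG_el T cl u v j) :
    i = j := by
  obtain ⟨a, h1, h2, h3, h4⟩ := h
  obtain ⟨b, g1, g2, g3, g4⟩ := h'
  have e : a = b := le_antisymm (h4 b g2 g3) (g4 a h2 h3)
  apply Fin.ext
  rw [← h1, ← g1, e]

omit [Fintype ι] [DecidableEq ι] [Fintype V] [DecidableEq V] in
lemma ODG_el_exists (hqk : q ≤ k) {u v : V} (h : ¬ Disjoint (T (cl u)) (T (cl v))) :
    ∃ i : Fin k, ODG_el T cl u v i := by
  rw [Finset.not_disjoint_iff] at h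
  obtain ⟨c, hc, hc'⟩ := h
  have hne : (T (cl u) ∩ T (cl v)).Nonempty := ⟨c, mem_inter.2 ⟨hc, hc'⟩⟩
  have hm := mem_inter.1 (min'_mem _ hne)
  refine ⟨⟨((T (cl u) ∩ T (cl v)).min' hne).val, lt_of_lt_of_le (Fin.isLt _) hqk⟩,
    (T (cl u) ∩ T (cl v)).min' hne, rfl, hm.1, hm.2, ?_⟩
  intro b hb hb'
  exact min'_le _ _ (mem_inter.2 ⟨hb, hb'⟩)

/-- the edges of the matching and the extra edge -/
def ODG_M (μ : Fin k → V → V) (y0 : V) (z : Fin k → V) (i : Fin k) (u v : V) : Prop :=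
  μ i u = v ∨ s(u, v) = s(μ i y0, z i)

/-- the raw adjacency -/
def ODG_A (T : ι → Finset (Fin q)) (cl : V → ι) (μ : Fin k → V → V) (y0 : V) (z : Fin k → V)
    (i : Fin k) (u v : V) : Prop :=
  ODG_M μ y0 z i u v ∨ ((∀ j, ¬ ODG_M μ y0 z j u v) ∧ ODG_el T cl u v i)

variable {y0 : V} {z : Fin k → V}

omit [Fintype V] [DecidableEq V] in
lemma ODG_M_symm (hinv : ∀ i v, μ i (μ i v) = v) {i : Fin k} {u v : V}
    (h : ODG_M μ y0 z i u v) : ODG_M μ y0 z i v u := by
  rcases h with h | h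
  · left
    rw [← h]
    exact hinv i u
  · right
    rw [Sym2.eq_swap]
    exact h

omit [Fintype ι] [DecidableEq ι] [Fintype V] [DecidableEq V] in
lemma ODG_A_symm (hinv : ∀ i v, μ i (μ i v) = v) {i : Fin k} {u v : V}
    (h : ODG_A T cl μ y0 z i u v) : ODG_A T cl μ y0 z i v u := by
  rcases h with h | ⟨h1, h2⟩
  · exact Or.inl (ODG_M_symm hinv h)
  · exact Or.inr ⟨fun j hj => h1 j (ODG_M_symm hinv hj), ODG_el_symm h2⟩

/-- the factors -/
def ODG_G (T : ι → Finset (Fin q)) (cl : V → ι) (hinv : ∀ i v, μ i (μ i v) = v) (y0 : V)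
    (z : Fin k → V) (i : Fin k) : SimpleGraph {v : V // v ≠ y0} where
  Adj u v := u ≠ v ∧ ODG_A T cl μ y0 z i u.1 v.1
  symm := ⟨fun _ _ h => ⟨h.1.symm, ODG_A_symm hinv h.2⟩⟩
  loopless := ⟨fun _ h => h.1 rfl⟩

omit [Fintype V] [DecidableEq V] in
lemma ODG_M_unique (hinv : ∀ i v, μ i (μ i v) = v) (hdis : ∀ i j v, μ i v = μ j v → i = j)
    (hz2 : ∀ i j, μ j (μ i y0) ≠ z i) (hz3 : Function.Injective (fun i => s(μ i y0, z i)))
    {i j : Fin k} {u v : V} (h : ODG_M μ y0 z i u v) (h' : ODG_M μ y0 z j u v) : i = j := by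
  have out : ∀ (i j : Fin k) (u v : V), μ i u = v → s(u, v) = s(μ j y0, z j) → False := by
    intro i j u v h1 h2
    rcases Sym2.eq_iff.1 h2 with ⟨h3, h4⟩ | ⟨h3, h4⟩
    · rw [h3, h4] at h1
      exact hz2 j i h1
    · have h5 : μ i v = u := by
        rw [← h1]
        exact hinv i u
      rw [h3, h4] at h5
      exact hz2 j i h5
  rcases h with h | h
  · rcases h' with h' | h'
    · exact hdis i j u (h.trans h'.symm)
    · exact (out i j u v h h').elim
  · rcases h' with h' | h'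
    · exact (out j i u v h' h).elim
    · exact hz3 (h.symm.trans h')

omit [Fintype ι] [DecidableEq ι] [Fintype V] [DecidableEq V] in
lemma ODG_minDeg (hinv : ∀ i v, μ i (μ i v) = v) (hne : ∀ i v, μ i v ≠ v)
    (hz1 : ∀ i, z i ≠ μ i y0) (hz0 : ∀ i, z i ≠ y0) (i : Fin k) (v : {v : V // v ≠ y0}) :
    ∃ w, (ODG_G T cl hinv y0 z i).Adj v w := by
  by_cases h : μ i v.1 = y0
  · have h1 : v.1 = μ i y0 := (hinv i v.1).symm.trans (congrArg (μ i) h)
    refine ⟨⟨z i, hz0 i⟩, ?_, Or.inl (Or.inr ?_)⟩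
    · intro h2
      have h3 : v.1 = z i := congrArg Subtype.val h2
      exact hz1 i (h3.symm.trans h1)
    · rw [h1]
  · refine ⟨⟨μ i v.1, h⟩, ?_, Or.inl (Or.inl rfl)⟩
    intro h2
    have h3 : v.1 = μ i v.1 := congrArg Subtype.val h2
    exact hne i v.1 h3.symm

omit [Fintype ι] [DecidableEq ι] [Fintype V] [DecidableEq V] in
lemma ODG_fact (hqk : q ≤ k) (hinv : ∀ i v, μ i (μ i v) = v) (hne : ∀ i v, μ i v ≠ v)
    (hdis : ∀ i j v, μ i v = μ j v → i = j)
    (hcov : ∀ u v, Disjoint (T (cl u)) (T (cl v)) → ∃ i, μ i u = v)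
    (hz1 : ∀ i, z i ≠ μ i y0) (hz0 : ∀ i, z i ≠ y0)
    (hz2 : ∀ i j, μ j (μ i y0) ≠ z i) (hz3 : Function.Injective (fun i => s(μ i y0, z i))) :
    IsFactorization (ODG_G T cl hinv y0 z) := by
  classical
  apply IsFactorization.of_adj
  · rintro i j u v ⟨-, h1⟩ ⟨-, h2⟩
    rcases h1 with h1 | ⟨h1, h1'⟩
    · rcases h2 with h2 | ⟨h2, h2'⟩
      · exact ODG_M_unique hinv hdis hz2 hz3 h1 h2
      · exact absurd h1 (h2 i)
    · rcases h2 with h2 | ⟨h2, h2'⟩
      · exact absurd h2 (h1 j)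
      · exact ODG_el_unique h1' h2'
  · intro u v huv
    by_cases h : ∃ i, ODG_M μ y0 z i u.1 v.1
    · obtain ⟨i, hi⟩ := h
      exact ⟨i, huv, Or.inl hi⟩
    · have h' : ∀ j, ¬ ODG_M μ y0 z j u.1 v.1 := fun j hj => h ⟨j, hj⟩
      by_cases h2 : Disjoint (T (cl u.1)) (T (cl v.1))
      · obtain ⟨i, hi⟩ := hcov _ _ h2
        exact absurd (Or.inl hi) (h' i)
      · obtain ⟨i, hi⟩ := ODG_el_exists (V := V) (cl := cl) hqk h2
        exact ⟨i, huv, Or.inr ⟨h', hi⟩⟩
  · exact ODG_minDeg hinv hne hz1 hz0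

omit [Fintype ι] [DecidableEq ι] in
lemma ODG_small (hinv : ∀ i v, μ i (μ i v) = v) (hne : ∀ i v, μ i v ≠ v)
    (hz1 : ∀ i, z i ≠ μ i y0) (hz0 : ∀ i, z i ≠ y0) (i : Fin k) (hi : q ≤ i.val) :
    Fintype.card {v : V // v ≠ y0} ≤ gammaT (ODG_G T cl hinv y0 z i) + 1 := by
  classical
  have hA : ∀ u v : {v : V // v ≠ y0}, (ODG_G T cl hinv y0 z i).Adj u v →
      ODG_M μ y0 z i u.1 v.1 := by
    rintro u v ⟨-, h | ⟨-, a, ha, -⟩⟩
    · exact h
    · have := a.isLt
      omega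
  refine GAM_sub_one (ODG_minDeg hinv hne hz1 hz0 i) ⟨z i, hz0 i⟩ ⟨μ i y0, hne i y0⟩ ?_ ?_
  · intro u y y' hu hy hy'
    have hu' : u.1 ≠ z i := fun h => hu (Subtype.ext h)
    have key : ∀ y : {v : V // v ≠ y0}, ODG_M μ y0 z i u.1 y.1 →
        (u.1 = μ i y0 ∧ y.1 = z i) ∨ (u.1 ≠ μ i y0 ∧ y.1 = μ i u.1) := by
      intro y h
      rcases h with h | h
      · right
        refine ⟨?_, h.symm⟩
        intro h2
        apply y.2
        rw [← h, h2, hinv]
      · rcases Sym2.eq_iff.1 h with h | h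
        · exact Or.inl h
        · exact absurd h.1 hu'
    rcases key y (hA _ _ hy) with h | h <;> rcases key y' (hA _ _ hy') with h' | h'
    · exact Subtype.ext (h.2.trans h'.2.symm)
    · exact absurd h.1 h'.1
    · exact absurd h'.1 h.1
    · exact Subtype.ext (h.2.trans h'.2.symm)
  · intro y y' hyv hyv' hy hy'
    have key : ∀ y : {v : V // v ≠ y0}, y ≠ ⟨μ i y0, hne i y0⟩ →
        ODG_M μ y0 z i (z i) y.1 → y.1 = μ i (z i) := by
      intro y hy h
      rcases h with h | h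
      · exact h.symm
      · rcases Sym2.eq_iff.1 h with h | h
        · exact absurd h.1 (hz1 i)
        · exact absurd (Subtype.ext h.2) hy
    exact Subtype.ext ((key y hyv (hA _ _ hy)).trans (key y' hyv' (hA _ _ hy')).symm)

omit [Fintype ι] [DecidableEq ι] in
lemma ODG_big (hinv : ∀ i v, μ i (μ i v) = v) (hne : ∀ i v, μ i v ≠ v)
    (hz1 : ∀ i, z i ≠ μ i y0) (hz0 : ∀ i, z i ≠ y0) (i : Fin k) (a : Fin q)
    (hi : i.val = a.val) :
    Fintype.card V ≤ gammaT (ODG_G T cl hinv y0 z i) +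
      (univ.filter (fun v => a ∈ T (cl v))).card + 3 := by
  classical
  have key := card_le_gammaT (ODG_minDeg (T := T) (cl := cl) hinv hne hz1 hz0 i)
    (α := {v : V // v ∈ univ.filter (fun v => v ≠ y0 ∧ v ≠ μ i y0 ∧ v ≠ z i ∧ a ∉ T (cl v))})
    (fun v => ⟨v.1, (mem_filter.1 v.2).2.1⟩)
    (fun v => ⟨μ i v.1, fun h => (mem_filter.1 v.2).2.2.1
      ((hinv i v.1).symm.trans (congrArg (μ i) h))⟩) ?_ ?_
  · rw [Fintype.card_coe] at key
    have h1 : (univ : Finset V) ⊆ (univ.filter (fun v => v ≠ y0 ∧ v ≠ μ i y0 ∧ v ≠ z i ∧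
        a ∉ T (cl v))) ∪ ((univ.filter (fun v => a ∈ T (cl v))) ∪ {y0, μ i y0, z i}) := by
      intro v _
      rw [mem_union, mem_union, mem_filter, mem_filter, mem_insert, mem_insert, mem_singleton]
      by_cases h1 : v = y0
      · exact Or.inr (Or.inr (Or.inl h1))
      by_cases h2 : v = μ i y0
      · exact Or.inr (Or.inr (Or.inr (Or.inl h2)))
      by_cases h3 : v = z i
      · exact Or.inr (Or.inr (Or.inr (Or.inr h3)))
      by_cases h4 : a ∈ T (cl v)
      · exact Or.inr (Or.inl ⟨mem_univ _, h4⟩)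
      · exact Or.inl ⟨mem_univ _, h1, h2, h3, h4⟩
    have h2 := (card_le_card h1).trans ((card_union_le _ _).trans
      (Nat.add_le_add_left (card_union_le _ _) _))
    have h3 : ({y0, μ i y0, z i} : Finset V).card ≤ 3 := card_le_three
    rw [card_univ] at h2
    omega
  · intro v w h
    have h1 : μ i v.1 = μ i w.1 := congrArg Subtype.val h
    have h2 := congrArg (μ i) h1
    rw [hinv, hinv] at h2
    exact Subtype.ext h2
  · rintro v w ⟨-, h | ⟨-, b, hb, hb1, -⟩⟩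
    · obtain ⟨-, h1, h2, h3, h4⟩ := mem_filter.1 v.2
      rcases h with h | h
      · exact Subtype.ext h.symm
      · rcases Sym2.eq_iff.1 h with h | h
        · exact absurd h.1 h2
        · exact absurd h.1 h3
    · obtain ⟨-, h1, h2, h3, h4⟩ := mem_filter.1 v.2
      have e : b = a := Fin.ext (hb.trans hi)
      rw [e] at hb1
      exact absurd hb1 h4

end constr

lemma ODG_prod {q k : ℕ} (hqk : q ≤ k) (a : Fin k → ℕ) (A : ℕ) (B : Fin q → ℕ)
    (hs : ∀ i : Fin k, q ≤ i.val → A ≤ a i)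
    (hb : ∀ (i : Fin k) (x : Fin q), i.val = x.val → B x ≤ a i) :
    A ^ (k - q) * ∏ x, B x ≤ ∏ i, a i := by
  obtain ⟨m, rfl⟩ := Nat.exists_eq_add_of_le hqk
  rw [Fin.prod_univ_add, mul_comm]
  have e1 : q + m - q = m := by omega
  rw [e1]
  refine Nat.mul_le_mul ?_ ?_
  · exact Finset.prod_le_prod' fun x _ => hb _ x rfl
  · calc A ^ m = ∏ _i : Fin m, A := by simp
      _ ≤ ∏ i : Fin m, a (Fin.natAdd q i) := by
          refine Finset.prod_le_prod' fun i _ => hs _ ?_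
          show q ≤ q + i.val
          omega

theorem stmt_ODG (hdet : Stmt_DET) (hcvr : Stmt_CVR) (hhal : Stmt_HAL) : Stmt_ODG := by
  classical
  intro ι _ _ q k T η M hqk hk hT hO hdj
  obtain ⟨V, hVf, hVd, cl, μ, hR⟩ := hdet ι k η M hO
  have hcard : Fintype.card V = ∑ s, η s := by
    rw [← card_univ, card_eq_sum_card_fiberwise (f := cl) (t := univ) (fun _ _ => by simp)]
    exact sum_congr rfl fun s _ => hR.card s
  have hPP : ∀ a : Fin q, (univ.filter (fun v => a ∈ T (cl v))).card = PP T η a := by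
    intro a
    unfold PP
    rw [card_eq_sum_card_fiberwise (f := cl) (t := univ) (fun _ _ => by simp)]
    refine sum_congr rfl fun s _ => ?_
    rw [filter_filter]
    split_ifs with h
    · rw [← hR.card s]
      congr 1
      ext v
      simp only [mem_filter, mem_univ, true_and]
      constructor
      · exact fun h => h.2
      · exact fun h' => ⟨by rw [h']; exact h, h'⟩
    · rw [card_eq_zero, filter_eq_empty_iff]
      rintro v - ⟨h1, h2⟩
      rw [h2] at h1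
      exact h h1
  have hpos : 0 < Fintype.card V := by omega
  obtain ⟨y0⟩ := Fintype.card_pos_iff.1 hpos
  obtain ⟨z, hz1, hz2, hz3⟩ := hhal V k μ y0 hR.inv hR.ne hR.dis (by omega)
  have hz0 : ∀ i, z i ≠ y0 := by
    intro i h
    apply hz2 i i
    rw [hR.inv, h]
  have hcov : ∀ u v, Disjoint (T (cl u)) (T (cl v)) → ∃ i, μ i u = v := by
    intro u v h
    have hne : cl u ≠ cl v := by
      intro h2
      rw [h2, disjoint_self] at h
      exact (hT (cl v)).ne_empty h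
    exact hcvr ι V k η M cl μ hR (cl u) (cl v) (hdj _ _ hne h) u v rfl rfl
  have hf := ODG_fact hqk hR.inv hR.ne hR.dis hcov hz1 hz0 hz2 hz3
  have hcard2 : Fintype.card {v : V // v ≠ y0} = ∑ s, η s - 1 := by
    rw [Fintype.card_subtype_compl, Fintype.card_subtype_eq, hcard]
  have hle := le_P hcard2 (Fintype.card_fin k) hf
  refine le_trans ?_ hle
  apply ODG_prod hqk
  · intro i hi
    have h := ODG_small (T := T) (cl := cl) hR.inv hR.ne hz1 hz0 i hi
    rw [hcard2] at h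
    omega
  · intro i a hi
    have h := ODG_big (T := T) (cl := cl) hR.inv hR.ne hz1 hz0 i a hi
    rw [hPP a, hcard] at h
    omega

end Pool.Agent.Work.MP_1ce445_low
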