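import Pool.Agent.Work.MP_1ce445_low.Interface

namespace Pool.Agent.Work.MP_1ce445_low

open Finset Pool.Agent.Work.MP_1ce445_co_56 Pool.Agent.Work.MP_1ce445_lin

lemma SIZ_floor (x : ℝ) (hx : 0 ≤ x) :
    ((2 * ⌊x / 2⌋₊ : ℕ) : ℝ) ≤ x ∧ x - 2 ≤ ((2 * ⌊x / 2⌋₊ : ℕ) : ℝ) := by
  have h1 := Nat.floor_le (show (0 : ℝ) ≤ x / 2 by positivity)
  have h2 := Nat.lt_floor_add_one (x / 2)
  push_cast
  constructor <;> linarith

lemma SIZ_even_sum {ι : Type} (s : Finset ι) (f : ι → ℕ) (h : ∀ a, Even (f a)) : Even (∑ a ∈ s, f a) := by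
  rw [even_iff_two_dvd]
  exact Finset.dvd_sum (fun a _ => even_iff_two_dvd.mp (h a))

lemma SIZ_sizes {ι : Type} [Fintype ι] [DecidableEq ι] (w : ι → ℝ) (hw : ∀ s, 0 < w s) (hs : ∑ s, w s = 1)
    (s0 : ι) (n : ℕ) (hn : Even n) :
    ∃ η : ι → ℕ, (∀ s, Even (η s)) ∧ ∑ s, η s = n ∧
      ∀ s, w s * n - 2 * (Fintype.card ι : ℝ) ≤ η s ∧ (η s : ℝ) ≤ w s * n + 2 * (Fintype.card ι : ℝ) := by
  classical
  obtain ⟨F, hFe, hF1⟩ : ∃ F : ι → ℕ, (∀ t, Even (F t)) ∧
      ∀ t, (F t : ℝ) ≤ w t * n ∧ w t * n - 2 ≤ (F t : ℝ) :=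
    ⟨fun t => 2 * ⌊w t * n / 2⌋₊, fun t => even_two_mul _,
      fun t => SIZ_floor _ (mul_nonneg (hw t).le (Nat.cast_nonneg n))⟩
  have h1 : ∑ t ∈ univ.erase s0, w t = 1 - w s0 := by
    have := Finset.add_sum_erase univ w (mem_univ s0)
    linarith
  have hcard : ((univ.erase s0).card : ℝ) ≤ (Fintype.card ι : ℝ) := by
    exact_mod_cast Finset.card_le_univ _
  have hsum : ((∑ t ∈ univ.erase s0, F t : ℕ) : ℝ) ≤ (1 - w s0) * n := by
    push_cast
    calc ∑ t ∈ univ.erase s0, (F t : ℝ) ≤ ∑ t ∈ univ.erase s0, w t * n :=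
          Finset.sum_le_sum (fun t _ => (hF1 t).1)
      _ = (1 - w s0) * n := by rw [← Finset.sum_mul, h1]
  have hsum2 : (1 - w s0) * n - 2 * (Fintype.card ι : ℝ) ≤ ((∑ t ∈ univ.erase s0, F t : ℕ) : ℝ) := by
    push_cast
    calc (1 - w s0) * n - 2 * (Fintype.card ι : ℝ) ≤ (1 - w s0) * n - 2 * ((univ.erase s0).card : ℝ) := by linarith
      _ = ∑ t ∈ univ.erase s0, (w t * n - 2) := by
          rw [Finset.sum_sub_distrib, ← Finset.sum_mul, h1, Finset.sum_const, nsmul_eq_mul]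
          ring
      _ ≤ ∑ t ∈ univ.erase s0, (F t : ℝ) := Finset.sum_le_sum (fun t _ => (hF1 t).2)
  have hn0 : (0 : ℝ) ≤ n := Nat.cast_nonneg n
  have hle : ∑ t ∈ univ.erase s0, F t ≤ n := by
    have h2 : ((∑ t ∈ univ.erase s0, F t : ℕ) : ℝ) ≤ n := by
      have := mul_nonneg (hw s0).le hn0
      linarith
    exact_mod_cast h2
  have hc1 : (1 : ℝ) ≤ (Fintype.card ι : ℝ) := by
    have : 0 < Fintype.card ι := Fintype.card_pos_iff.mpr ⟨s0⟩
    exact_mod_cast this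
  refine ⟨fun s => if s = s0 then n - ∑ t ∈ univ.erase s0, F t else F s, ?_, ?_, ?_⟩
  · intro s
    by_cases h : s = s0
    · simp only [h, if_true]
      rw [Nat.even_sub hle]
      exact iff_of_true hn (SIZ_even_sum _ _ hFe)
    · simp only [h, if_false]
      exact hFe s
  · rw [← Finset.add_sum_erase univ _ (mem_univ s0)]
    rw [if_pos rfl]
    have h3 : ∑ x ∈ univ.erase s0, (if x = s0 then n - ∑ t ∈ univ.erase s0, F t else F x) =
        ∑ x ∈ univ.erase s0, F x := by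
      refine Finset.sum_congr rfl (fun x hx => ?_)
      rw [if_neg (Finset.ne_of_mem_erase hx)]
    rw [h3]
    omega
  · intro s
    by_cases h : s = s0
    · subst h
      simp only [if_true]
      rw [Nat.cast_sub hle]
      constructor <;> linarith
    · simp only [h, if_false]
      have := hF1 s
      constructor <;> linarith

lemma SIZ_prod (w1 w2 m n a b : ℝ) (h1 : 0 ≤ w1) (h2 : w1 ≤ 1) (h4 : w2 ≤ 1) (hm : 1 ≤ m)
    (hn : 2 * m ≤ n) (ha : w1 * n - 2 * m ≤ a ∧ a ≤ w1 * n + 2 * m) (hb : w2 * n - 2 * m ≤ b ∧ b ≤ w2 * n + 2 * m)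
    (hb0 : 0 ≤ b) : w1 * w2 * n ^ 2 - 6 * m * n ≤ a * b ∧ a * b ≤ w1 * w2 * n ^ 2 + 6 * m * n := by
  have hn0 : 0 ≤ n := by linarith
  have hb2 : b ≤ 2 * n := by
    have : w2 * n ≤ 1 * n := mul_le_mul_of_nonneg_right h4 hn0
    linarith [hb.2]
  have hw : w1 * n ≤ 1 * n := mul_le_mul_of_nonneg_right h2 hn0
  have hw0 : 0 ≤ w1 * n := mul_nonneg h1 hn0
  have e : a * b = w1 * w2 * n ^ 2 + ((a - w1 * n) * b + (w1 * n) * (b - w2 * n)) := by ring
  have i1 : (a - w1 * n) * b ≤ (2 * m) * b := mul_le_mul_of_nonneg_right (by linarith [ha.2]) hb0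
  have i2 : -(2 * m) * b ≤ (a - w1 * n) * b := mul_le_mul_of_nonneg_right (by linarith [ha.1]) hb0
  have i3 : (w1 * n) * (b - w2 * n) ≤ (w1 * n) * (2 * m) := mul_le_mul_of_nonneg_left (by linarith [hb.2]) hw0
  have i4 : (w1 * n) * (-(2 * m)) ≤ (w1 * n) * (b - w2 * n) := mul_le_mul_of_nonneg_left (by linarith [hb.1]) hw0
  have i5 : (2 * m) * b ≤ (2 * m) * (2 * n) := mul_le_mul_of_nonneg_left hb2 (by linarith)
  have i6 : (w1 * n) * (2 * m) ≤ (1 * n) * (2 * m) := mul_le_mul_of_nonneg_right hw (by linarith)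
  constructor
  · rw [e]; nlinarith
  · rw [e]; nlinarith

lemma SIZ_Y {ι : Type} [Fintype ι] [DecidableEq ι] (w : ι → ℝ) (y : ι → ι → ℝ) (P : ι → ι → Prop)
    (hw : ∀ s, 0 < w s) (hw1 : ∀ s, w s ≤ 1) (hy0 : ∀ s t, 0 ≤ y s t) (hy : ∀ s t, y s t ≤ w s * w t)
    (hyP : ∀ s t, P s t → y s t = w s * w t) (hys : ∀ s t, y s t = y t s) (hPs : ∀ s t, P s t ↔ P t s)
    (n k : ℕ) (η : ι → ℕ) (m : ℝ) (hm : 1 ≤ m) (hmn : 2 * m ≤ (n : ℝ)) (hk : (k : ℝ) ≤ 2 * n)
    (he : ∀ s, Even (η s)) (hη : ∀ s, w s * n - 2 * m ≤ η s ∧ (η s : ℝ) ≤ w s * n + 2 * m)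
    (hkη : ∀ s t, k ≤ η s * η t) :
    ∃ Y : ι → ι → ℕ, (∀ s t, Y s t = Y t s) ∧ (∀ s t, Even (Y s t)) ∧ (∀ s t, Y s t ≤ η s * η t) ∧
      (∀ s t, k ≤ Y s t) ∧ (∀ s t, P s t → Y s t = η s * η t) ∧
      ∀ s t, y s t * n ^ 2 - 6 * m * n ≤ (Y s t : ℝ) ∧ (Y s t : ℝ) ≤ y s t * n ^ 2 + 6 * m * n := by
  classical
  refine ⟨fun s t => if P s t then η s * η t else min (η s * η t) (2 * ⌊y s t * (n : ℝ) ^ 2 / 2⌋₊ + 2 * k),
    ?_, ?_, ?_, ?_, ?_, ?_⟩
  · intro s t
    simp only [hPs s t, hys s t, mul_comm (η s) (η t)]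
  · intro s t
    by_cases h : P s t
    · simp only [h, if_true]
      exact (he s).mul_right _
    · simp only [h, if_false]
      rcases min_choice (η s * η t) (2 * ⌊y s t * (n : ℝ) ^ 2 / 2⌋₊ + 2 * k) with h1 | h1
      · rw [h1]; exact (he s).mul_right _
      · rw [h1, ← mul_add]; exact even_two_mul _
  · intro s t
    by_cases h : P s t
    · simp only [h, if_true]; exact le_rfl
    · simp only [h, if_false]
      exact min_le_left _ _
  · intro s t
    by_cases h : P s t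
    · simp only [h, if_true]
      exact hkη s t
    · simp only [h, if_false]
      exact le_min (hkη s t) (by omega)
  · intro s t h
    simp only [h, if_true]
  · intro s t
    have hP := SIZ_prod (w s) (w t) m n (η s) (η t) (hw s).le (hw1 s) (hw1 t) hm hmn (hη s) (hη t)
      (Nat.cast_nonneg _)
    by_cases h : P s t
    · simp only [h, if_true]
      rw [hyP s t h]
      push_cast
      exact hP
    · simp only [h, if_false]
      have hn0 : (0 : ℝ) ≤ n := Nat.cast_nonneg n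
      have hfl := SIZ_floor (y s t * (n : ℝ) ^ 2) (mul_nonneg (hy0 s t) (sq_nonneg _))
      have hk0 : (0 : ℝ) ≤ k := Nat.cast_nonneg k
      have hmn1 : (n : ℝ) ≤ m * n := by nlinarith
      have hn2 : (2 : ℝ) ≤ n := by linarith
      rw [Nat.cast_min]
      have hcast : ((2 * ⌊y s t * (n : ℝ) ^ 2 / 2⌋₊ + 2 * k : ℕ) : ℝ) =
          ((2 * ⌊y s t * (n : ℝ) ^ 2 / 2⌋₊ : ℕ) : ℝ) + 2 * (k : ℝ) := by push_cast; ring
      rw [hcast]
      constructor
      · refine le_min ?_ ?_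
        · push_cast
          have : y s t * (n : ℝ) ^ 2 ≤ w s * w t * (n : ℝ) ^ 2 := mul_le_mul_of_nonneg_right (hy s t) (sq_nonneg _)
          linarith [hP.1]
        · nlinarith [hfl.2]
      · refine le_trans (min_le_right _ _) ?_
        nlinarith [hfl.1]

theorem stmt_SIZ (hDST : Stmt_DST) : Stmt_SIZ := by
  classical
  intro ι _ _ q D S hS
  have hne : Nonempty ι := by
    by_contra h
    rw [not_nonempty_iff] at h
    have := S.w_sum
    simp at this
  obtain ⟨s0⟩ := hne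
  set m : ℝ := (Fintype.card ι : ℝ) with hm
  have hm1 : (1 : ℝ) ≤ m := by
    have : 0 < Fintype.card ι := Fintype.card_pos_iff.mpr ⟨s0⟩
    rw [hm]
    exact_mod_cast this
  -- `y`
  set y : ι → ι → ℝ := fun s t => S.w s * S.w t - S.x s t with hydef
  have hy0 : ∀ s t, 0 ≤ y s t := fun s t => sub_nonneg.mpr (S.le s t)
  have hyle : ∀ s t, y s t ≤ S.w s * S.w t := fun s t => by
    have := S.nonneg s t
    simp only [hydef]; linarith
  have hw1 : ∀ s, S.w s ≤ 1 := fun s => by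
    have := Finset.single_le_sum (f := S.w) (fun t _ => (S.w_pos t).le) (mem_univ s)
    rw [S.w_sum] at this
    exact this
  have hrow : ∀ s, ∑ t, y s t = (1 - D) * S.w s := fun s => by
    simp only [hydef]
    rw [Finset.sum_sub_distrib, ← Finset.mul_sum, S.w_sum, S.row]
    ring
  have hys : ∀ s t, y s t = y t s := fun s t => by
    simp only [hydef]
    rw [S.symm s t, mul_comm]
  have hyP : ∀ s t, Disjoint (S.T s) (S.T t) → y s t = S.w s * S.w t := fun s t h => by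
    simp only [hydef]
    rw [S.zero s t h, sub_zero]
  have hyss : ∀ s, 0 < y s s := fun s => sub_pos.mpr (hS s).2
  obtain ⟨s1, -, hs1⟩ := Finset.exists_min_image univ (fun s => min (S.x s s) (y s s)) ⟨s0, mem_univ s0⟩
  set μ : ℝ := min (S.x s1 s1) (y s1 s1) with hμ
  have hμ0 : 0 < μ := lt_min (hS s1).1 (hyss s1)
  have hμx : ∀ s, μ ≤ S.x s s := fun s => le_trans (hs1 s (mem_univ s)) (min_le_left _ _)
  have hμy : ∀ s, μ ≤ y s s := fun s => le_trans (hs1 s (mem_univ s)) (min_le_right _ _)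
  have hμw2 : ∀ s, μ ≤ S.w s * S.w s := fun s => le_trans (hμx s) (S.le s s)
  have hμw : ∀ s, μ ≤ S.w s := fun s => le_trans (hμw2 s) (by nlinarith [hw1 s, S.w_pos s])
  have hμ1 : μ ≤ 1 := le_trans (hμw s0) (hw1 s0)
  have hc0 : μ ≤ 1 - D := by
    have h1 := Finset.single_le_sum (f := fun t => y s0 t) (fun t _ => hy0 s0 t) (mem_univ s0)
    rw [hrow] at h1
    have h2 := hμy s0
    have h3 := S.w_pos s0
    have h4 := hw1 s0
    have h5 : 0 < 1 - D := by
      by_contra h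
      push Not at h
      have := mul_nonpos_of_nonpos_of_nonneg h h3.le
      linarith
    have : (1 - D) * S.w s0 ≤ (1 - D) * 1 := mul_le_mul_of_nonneg_left h4 h5.le
    linarith
  have hc1 : 1 - D ≤ 1 := by
    have h1 : 0 ≤ D * S.w s0 := by
      rw [← S.row]
      exact Finset.sum_nonneg (fun t _ => S.nonneg s0 t)
    have : 0 ≤ D := nonneg_of_mul_nonneg_left h1 (S.w_pos s0)
    linarith
  refine ⟨μ / 4, 2 * m, ⌈20 * m ^ 2 / μ ^ 2⌉₊, by positivity, by positivity, ?_⟩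
  intro n k hn0 hne hk
  have hn1 : 20 * m ^ 2 / μ ^ 2 ≤ (n : ℝ) := le_trans (Nat.le_ceil _) (by exact_mod_cast hn0)
  have hn2 : 20 * m ^ 2 ≤ μ ^ 2 * n := by
    rw [div_le_iff₀ (by positivity)] at hn1
    linarith
  have hn00 : (0 : ℝ) ≤ n := Nat.cast_nonneg n
  have hn3 : 20 * m ^ 2 ≤ μ * n := by
    have : μ ^ 2 * n ≤ μ * n := mul_le_mul_of_nonneg_right (by nlinarith) hn00
    linarith
  have hmm : m ≤ m ^ 2 := by nlinarith
  have hn4 : 20 * m ^ 2 ≤ n := by
    have : μ * n ≤ 1 * n := mul_le_mul_of_nonneg_right hμ1 hn00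
    linarith
  have hmn : 2 * m ≤ (n : ℝ) := by linarith
  have hk' := abs_le.mp hk
  have hkn : (k : ℝ) ≤ 2 * n := by
    have h1 : (1 - D) * n ≤ 1 * n := mul_le_mul_of_nonneg_right hc1 hn00
    have h2 : μ / 4 * n ≤ 1 * n := mul_le_mul_of_nonneg_right (by linarith) hn00
    linarith [hk'.2]
  have hkpos : 0 < k := by
    have h1 : μ * n ≤ (1 - D) * n := mul_le_mul_of_nonneg_right hc0 hn00
    have h2 : (0 : ℝ) < k := by nlinarith [hk'.1]
    exact_mod_cast h2
  obtain ⟨η, hηe, hηs, hη⟩ := SIZ_sizes S.w S.w_pos S.w_sum s0 n hne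
  rw [← hm] at hη
  have hηbig : ∀ s, S.w s * n / 2 ≤ (η s : ℝ) := fun s => by
    have h1 : μ * n ≤ S.w s * n := mul_le_mul_of_nonneg_right (hμw s) hn00
    linarith [(hη s).1]
  have hkη : ∀ s t, k ≤ η s * η t := fun s t => by
    have h1 : S.w s * n / 2 * (S.w t * n / 2) ≤ (η s : ℝ) * η t :=
      mul_le_mul (hηbig s) (hηbig t) (by have := S.w_pos t; positivity) (Nat.cast_nonneg _)
    have h2 : μ * μ ≤ S.w s * S.w t := mul_le_mul (hμw s) (hμw t) hμ0.le (S.w_pos s).le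
    have h3 : μ * μ * (n : ℝ) * n ≤ S.w s * S.w t * n * n :=
      mul_le_mul_of_nonneg_right (mul_le_mul_of_nonneg_right h2 hn00) hn00
    have h4 : 20 * m ^ 2 * (n : ℝ) ≤ μ ^ 2 * n * n := mul_le_mul_of_nonneg_right hn2 hn00
    have h5 : 20 * (n : ℝ) ≤ 20 * m ^ 2 * (n : ℝ) := by nlinarith
    have h6 : (k : ℝ) ≤ (η s : ℝ) * η t := by nlinarith
    exact_mod_cast h6
  obtain ⟨Y, hYs, hYe, hYle, hkY, hYP, hYb⟩ := SIZ_Y S.w y (fun s t => Disjoint (S.T s) (S.T t)) S.w_pos hw1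
    hy0 hyle hyP hys (fun s t => disjoint_comm) n k η m hm1 hmn hkn hηe hη hkη
  have hη1 : ∀ s, 1 ≤ η s := fun s => by
    have h1 : μ * n ≤ S.w s * n := mul_le_mul_of_nonneg_right (hμw s) hn00
    have : (1 : ℝ) ≤ (η s : ℝ) := by linarith [hηbig s]
    exact_mod_cast this
  have hcard : ∀ s : ι, ((univ.erase s).card : ℝ) ≤ m := fun s => by
    rw [hm]
    exact_mod_cast Finset.card_le_univ _
  -- the main estimate
  have hE : ∀ s, y s s * n ^ 2 - μ / 4 * n ^ 2 - 10 * m ^ 2 * n ≤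
        (k : ℝ) * η s - ∑ t ∈ univ.erase s, (Y s t : ℝ) ∧
      (k : ℝ) * η s - ∑ t ∈ univ.erase s, (Y s t : ℝ) ≤
        y s s * n ^ 2 + μ / 4 * n ^ 2 + 10 * m ^ 2 * n := fun s => by
    have hsum : ∑ t ∈ univ.erase s, y s t = (1 - D) * S.w s - y s s := by
      have := Finset.add_sum_erase univ (fun t => y s t) (mem_univ s)
      rw [hrow] at this
      linarith
    have hup : ∑ t ∈ univ.erase s, (Y s t : ℝ) ≤ ((1 - D) * S.w s - y s s) * n ^ 2 + m * (6 * m * n) := by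
      calc ∑ t ∈ univ.erase s, (Y s t : ℝ) ≤ ∑ t ∈ univ.erase s, (y s t * n ^ 2 + 6 * m * n) :=
            Finset.sum_le_sum (fun t _ => (hYb s t).2)
        _ = ((1 - D) * S.w s - y s s) * n ^ 2 + ((univ.erase s).card : ℝ) * (6 * m * n) := by
            rw [Finset.sum_add_distrib, ← Finset.sum_mul, hsum, Finset.sum_const, nsmul_eq_mul]
        _ ≤ _ := by
            have := mul_le_mul_of_nonneg_right (hcard s) (show (0 : ℝ) ≤ 6 * m * n by positivity)
            linarith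
    have hlo : ((1 - D) * S.w s - y s s) * n ^ 2 - m * (6 * m * n) ≤ ∑ t ∈ univ.erase s, (Y s t : ℝ) := by
      calc ((1 - D) * S.w s - y s s) * n ^ 2 - m * (6 * m * n) ≤
            ((1 - D) * S.w s - y s s) * n ^ 2 - ((univ.erase s).card : ℝ) * (6 * m * n) := by
            have := mul_le_mul_of_nonneg_right (hcard s) (show (0 : ℝ) ≤ 6 * m * n by positivity)
            linarith
        _ = ∑ t ∈ univ.erase s, (y s t * n ^ 2 - 6 * m * n) := by
            rw [Finset.sum_sub_distrib, ← Finset.sum_mul, hsum, Finset.sum_const, nsmul_eq_mul]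
        _ ≤ _ := Finset.sum_le_sum (fun t _ => (hYb s t).1)
    have hηn : (η s : ℝ) ≤ n + 2 * m := by
      have : S.w s * n ≤ 1 * n := mul_le_mul_of_nonneg_right (hw1 s) hn00
      linarith [(hη s).2]
    have hη0 : (0 : ℝ) ≤ η s := Nat.cast_nonneg _
    have e : (k : ℝ) * η s = (1 - D) * S.w s * n ^ 2 + (((k : ℝ) - (1 - D) * n) * η s +
        ((1 - D) * n) * (η s - S.w s * n)) := by ring
    have a1 : ((k : ℝ) - (1 - D) * n) * η s ≤ (μ / 4 * n) * (n + 2 * m) :=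
      le_trans (mul_le_mul_of_nonneg_right hk'.2 hη0) (mul_le_mul_of_nonneg_left hηn (by positivity))
    have a2 : -((μ / 4 * n) * (n + 2 * m)) ≤ ((k : ℝ) - (1 - D) * n) * η s := by
      have h1 := mul_le_mul_of_nonneg_right hk'.1 hη0
      have h2 := mul_le_mul_of_nonneg_left hηn (show (0 : ℝ) ≤ μ / 4 * n by positivity)
      linarith
    have hcn0 : 0 ≤ (1 - D) * n := mul_nonneg (by linarith) hn00
    have hcn1 : (1 - D) * n ≤ n := by
      have := mul_le_mul_of_nonneg_right hc1 hn00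
      linarith
    have a3 : ((1 - D) * n) * (η s - S.w s * n) ≤ n * (2 * m) :=
      le_trans (mul_le_mul_of_nonneg_left (show (η s : ℝ) - S.w s * n ≤ 2 * m by linarith [(hη s).2]) hcn0)
        (mul_le_mul_of_nonneg_right hcn1 (by linarith))
    have a4 : -(n * (2 * m)) ≤ ((1 - D) * n) * (η s - S.w s * n) := by
      have h1 := mul_le_mul_of_nonneg_left (show -(2 * m) ≤ (η s : ℝ) - S.w s * n by linarith [(hη s).1]) hcn0
      have h2 := mul_le_mul_of_nonneg_right hcn1 (show (0 : ℝ) ≤ 2 * m by linarith)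
      linarith
    have a5 : (μ / 4 * n) * (2 * m) ≤ n * (2 * m) :=
      mul_le_mul_of_nonneg_right (by nlinarith) (by linarith)
    have a6 : m * (n : ℝ) ≤ m ^ 2 * n := mul_le_mul_of_nonneg_right hmm hn00
    rw [e]
    constructor
    · linarith
    · linarith
  have hμn2 : 20 * m ^ 2 * (n : ℝ) ≤ μ * n ^ 2 := by
    have h1 := mul_le_mul_of_nonneg_right hn3 hn00
    have h2 : μ * n * n = μ * (n : ℝ) ^ 2 := by ring
    linarith
  have hm2n : (0 : ℝ) ≤ m ^ 2 * n := by positivity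
  obtain ⟨M, hM, hMY⟩ := hDST ι k η Y hkpos hη1 hηe hYs (fun a b _ => hYe a b) (fun a b _ => hkY a b)
    (fun a b _ => hYle a b) (fun s => by
      have h1 := (hE s).1
      have h2 := hμy s
      have h3 : μ * (n : ℝ) ^ 2 ≤ y s s * n ^ 2 := mul_le_mul_of_nonneg_right h2 (sq_nonneg _)
      have h4 : 2 * (k : ℝ) * m ≤ 4 * m ^ 2 * n := by
        have := mul_le_mul_of_nonneg_right hkn (show (0 : ℝ) ≤ m by linarith)
        have := mul_le_mul_of_nonneg_right hmm hn00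
        nlinarith
      have h5 : ∑ t ∈ univ.erase s, (Y s t : ℝ) + 2 * (k : ℝ) * m ≤ (k : ℝ) * η s := by linarith
      rw [hm] at h5
      exact_mod_cast h5) (fun s => by
      have h1 := (hE s).2
      have h2 : y s s = S.w s * S.w s - S.x s s := rfl
      have h3 : μ * (n : ℝ) ^ 2 ≤ S.x s s * n ^ 2 := mul_le_mul_of_nonneg_right (hμx s) (sq_nonneg _)
      have hg : 1 ≤ S.w s * n - 2 * m := by
        have : μ * n ≤ S.w s * n := mul_le_mul_of_nonneg_right (hμw s) hn00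
        linarith
      have h6 : (S.w s * n - 2 * m) * (S.w s * n - 2 * m - 1) ≤ (η s : ℝ) * ((η s : ℝ) - 1) :=
        mul_le_mul (hη s).1 (by linarith [(hη s).1]) (by linarith) (Nat.cast_nonneg _)
      have hwn : S.w s * n ≤ n := by
        have := mul_le_mul_of_nonneg_right (hw1 s) hn00
        linarith
      have h7 : S.w s * S.w s * n ^ 2 - 5 * m ^ 2 * n ≤ (S.w s * n - 2 * m) * (S.w s * n - 2 * m - 1) := by
        have i1 : m * (S.w s * n) ≤ m * n := mul_le_mul_of_nonneg_left hwn (by linarith)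
        have i2 : m * (n : ℝ) ≤ m ^ 2 * n := mul_le_mul_of_nonneg_right hmm hn00
        have i3 : (n : ℝ) ≤ m ^ 2 * n := by nlinarith
        nlinarith
      have h5 : (k : ℝ) * η s ≤ ∑ t ∈ univ.erase s, (Y s t : ℝ) + (η s : ℝ) * ((η s : ℝ) - 1) := by
        rw [h2] at h1
        linarith
      have h8 : ((η s - 1 : ℕ) : ℝ) = (η s : ℝ) - 1 := by
        rw [Nat.cast_sub (hη1 s), Nat.cast_one]
      rw [← h8] at h5
      exact_mod_cast h5)
  refine ⟨η, M, hM, hηs, ?_, ?_⟩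
  · intro s
    rw [abs_le]
    constructor <;> linarith [(hη s).1, (hη s).2]
  · intro s t hst hd
    rw [hMY s t hst, hYP s t hd]

end Pool.Agent.Work.MP_1ce445_low
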