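import Pool.Agent.Work.MP_1ce445_low.Interface

/-!
Block UNI of the general lower bound (MP_1ce445_co).
-/

namespace Pool.Agent.Work.MP_1ce445_low

open Finset Pool.Agent.Work.MP_1ce445_co_56 Pool.Agent.Work.MP_1ce445_lin

theorem UNI_loc (h1 : Stmt_GEN) (a b : ℝ) (f : ℝ → ℝ) (hb : b < 1)
    (hf : ContinuousOn f (Set.Icc a b))
    (hS : ∀ c ∈ Set.Icc a b, ∀ ε : ℝ, 0 < ε → ∃ (ι : Type) (_ : Fintype ι) (_ : DecidableEq ι)
      (q : ℕ) (D : ℝ) (S : TSys ι q D), D < 1 ∧ 1 - D ≤ c ∧ f c - ε ≤ S.val)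
    (ε : ℝ) (hε : 0 < ε) (c : ℝ) (hc : c ∈ Set.Icc a b) :
    ∃ (δ : ℝ) (n0 : ℕ), 0 < δ ∧ ∀ n k : ℕ, n0 ≤ n → 1 ≤ n → (k : ℝ) / n ∈ Set.Icc a b →
      |(k : ℝ) / n - c| < δ → (f ((k : ℝ) / n) - ε) * (NN n : ℝ) ^ k ≤ (P n k : ℝ) := by
  obtain ⟨ι, i1, i2, q, D, S, hD, hDc, hval⟩ := hS c hc (ε / 3) (by linarith)
  obtain ⟨δ, n0, hδ, hG⟩ := h1 ι q D c S hD hDc (lt_of_le_of_lt hc.2 hb) (ε / 3) (by linarith)
  have hcont := hf c hc
  rw [Metric.continuousWithinAt_iff] at hcont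
  obtain ⟨δ2, hδ2, hcont⟩ := hcont (ε / 3) (by linarith)
  refine ⟨min δ δ2, n0, lt_min hδ hδ2, ?_⟩
  intro n k hn hn1 hk hkc
  have hnpos : (0 : ℝ) < n := by exact_mod_cast hn1
  have h2 : |(k : ℝ) - c * n| ≤ δ * n := by
    have h3 : (k : ℝ) - c * n = ((k : ℝ) / n - c) * n := by
      field_simp
    rw [h3, abs_mul, abs_of_pos hnpos]
    exact mul_le_mul_of_nonneg_right ((hkc.trans_le (min_le_left _ _)).le) hnpos.le
  have h4 := hG n k hn h2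
  have h5 : dist ((k : ℝ) / n) c < δ2 := by
    rw [Real.dist_eq]
    exact hkc.trans_le (min_le_right _ _)
  have h6 := hcont hk h5
  rw [Real.dist_eq] at h6
  have h7 := (abs_lt.1 h6).2
  have h8 : f ((k : ℝ) / n) - ε ≤ S.val - ε / 3 := by linarith
  have h9 : (0 : ℝ) ≤ (NN n : ℝ) ^ k := by positivity
  exact (mul_le_mul_of_nonneg_right h8 h9).trans h4

theorem stmt_UNI (h1 : Stmt_GEN) : Stmt_UNI := by
  intro a b f _ hb hf hS ε hε
  have hloc := UNI_loc h1 a b f hb hf hS ε hε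
  choose! δ n0 hδ hP using hloc
  obtain ⟨t, ht, hcov⟩ := isCompact_Icc.elim_nhds_subcover (s := Set.Icc a b)
    (fun c => Metric.ball c (δ c)) (fun c hc => Metric.ball_mem_nhds c (hδ c hc))
  refine ⟨t.sup n0 + 1, ?_⟩
  intro n k hn hak hkb
  have hn1 : 1 ≤ n := by omega
  have hnpos : (0 : ℝ) < n := by exact_mod_cast hn1
  have hk : (k : ℝ) / n ∈ Set.Icc a b := by
    refine ⟨?_, ?_⟩
    · rw [le_div_iff₀ hnpos]; exact hak
    · rw [div_le_iff₀ hnpos]; exact hkb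
  have h2 := hcov hk
  rw [Set.mem_iUnion₂] at h2
  obtain ⟨c, hct, hc⟩ := h2
  rw [Metric.mem_ball, Real.dist_eq] at hc
  have h3 : n0 c ≤ t.sup n0 := Finset.le_sup hct
  exact hP c (ht c hct) n k (by omega) hn1 hk hc

end Pool.Agent.Work.MP_1ce445_low
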