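import Pool.Agent.Work.MP_1ce445_low.Interface3

namespace Pool.Agent.Work.MP_1ce445_low

open Finset Pool.Agent.Work.MP_1ce445_co_56 Pool.Agent.Work.MP_1ce445_lin

theorem UPS_e (K ε : ℝ) (hK : 0 < K) (hε : 0 < ε) :
    ∃ e : ℝ, 0 < e ∧ e ≤ 1 / 2 ∧ K * e ≤ ε / 4 := by
  refine ⟨min (1 / 2) (ε / 4 / K), ?_, min_le_left _ _, ?_⟩
  · exact lt_min (by norm_num) (by positivity)
  · calc K * min (1 / 2) (ε / 4 / K) ≤ K * (ε / 4 / K) :=
          mul_le_mul_of_nonneg_left (min_le_right _ _) hK.le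
      _ = ε / 4 := by field_simp

theorem UPS_s (D e : ℝ) (hD0 : 0 < D) (hD1 : D < 1) (he : 0 < e) :
    ∃ s : ℝ, 0 < s ∧ 2 * s ≤ D * e ^ 2 ∧ 2 * s ≤ (1 - D) * e ^ 2 := by
  have he2 : 0 < e ^ 2 := by positivity
  have h1 : 0 < 1 - D := by linarith
  refine ⟨min D (1 - D) * e ^ 2 / 2, ?_, ?_, ?_⟩
  · have : 0 < min D (1 - D) := lt_min hD0 h1
    positivity
  · have : min D (1 - D) ≤ D := min_le_left _ _
    nlinarith
  · have : min D (1 - D) ≤ 1 - D := min_le_right _ _
    nlinarith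

theorem stmt_UPS (h1 : Stmt_VAL) (h2 : Stmt_MRG) (h3 : Stmt_ABS) : Stmt_UPS := by
  intro D ε hD0 hD1 hε
  obtain ⟨θ, hθ0, hθ1, hθε⟩ : ∃ θ : ℝ, 0 < θ ∧ θ ≤ 1 ∧ 5 * θ ≤ ε / 2 := by
    refine ⟨min 1 (ε / 10), lt_min one_pos (by positivity), min_le_left _ _, ?_⟩
    have : min 1 (ε / 10) ≤ ε / 10 := min_le_right _ _
    linarith
  have hK : 0 < 10 / θ + 2 := by positivity
  obtain ⟨e, he0, he1, heK⟩ := UPS_e (10 / θ + 2) ε hK hε
  obtain ⟨s, hs0, hs1, hs2⟩ := UPS_s D e hD0 hD1 he0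
  refine ⟨s, hs0, ?_⟩
  intro V _ _ κ M T W hV hTM hWs hWT hdeg hsum
  have hV0 : (0 : ℝ) < Fintype.card V := by exact_mod_cast hV
  have hq0 : ∀ j : Fin κ, 0 ≤ ((univ.filter (fun u => j ∈ T u)).card : ℝ) / Fintype.card V :=
    fun j => by positivity
  have hq1 : ∀ j : Fin κ, ((univ.filter (fun u => j ∈ T u)).card : ℝ) / Fintype.card V ≤ 1 := by
    intro j
    rw [div_le_one hV0]
    exact_mod_cast Finset.card_le_univ _
  obtain ⟨m, g, hm, hprod⟩ := h2 θ κ M
    (fun j => ((univ.filter (fun u => j ∈ T u)).card : ℝ) / Fintype.card V) hθ0 hθ1 hq0 hq1 hsum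
  obtain ⟨v, hv, hvp⟩ := h3 D e s V m (fun v => (T v).image g) W hD0 hD1 he0 he1 hs0.le hs1 hs2 hV
    hWs (by
      intro v w hvw
      obtain ⟨j, hj⟩ := hWT v w hvw
      rw [Finset.mem_inter] at hj
      exact ⟨g j, Finset.mem_inter.2 ⟨Finset.mem_image_of_mem g hj.1,
        Finset.mem_image_of_mem g hj.2⟩⟩) hdeg
  have hFF : v ≤ FF (1 - D) := by
    unfold FF
    apply le_csSup
    · refine ⟨1, ?_⟩
      rintro y hy
      exact (h1 _ _ hy).2
    · have h : 1 - (1 - D) = D := by ring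
      change HasVal (1 - (1 - D)) v
      rw [h]
      exact hv
  have hle : ∏ x : Fin m, max 0 (1 - ∑ j ∈ M.filter (fun j => g j = x),
      ((univ.filter (fun u => j ∈ T u)).card : ℝ) / Fintype.card V) ≤
      ∏ x : Fin m, (1 - ((univ.filter (fun u => x ∈ (T u).image g)).card : ℝ) /
        Fintype.card V) := by
    apply Finset.prod_le_prod
    · intro x _
      exact le_max_left _ _
    · intro x _
      have hp1 : ((univ.filter (fun u => x ∈ (T u).image g)).card : ℝ) / Fintype.card V ≤ 1 := by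
        rw [div_le_one hV0]
        exact_mod_cast Finset.card_le_univ _
      apply max_le (by linarith)
      have hcard : (univ.filter (fun u => x ∈ (T u).image g)).card ≤
          ∑ j ∈ M.filter (fun j => g j = x), (univ.filter (fun u => j ∈ T u)).card := by
        refine le_trans (Finset.card_le_card ?_) Finset.card_biUnion_le
        intro u hu
        rw [Finset.mem_filter] at hu
        obtain ⟨j, hj, hjx⟩ := Finset.mem_image.1 hu.2
        rw [Finset.mem_biUnion]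
        exact ⟨j, Finset.mem_filter.2 ⟨hTM u hj, hjx⟩, Finset.mem_filter.2 ⟨mem_univ _, hj⟩⟩
      have h5 : ((univ.filter (fun u => x ∈ (T u).image g)).card : ℝ) / Fintype.card V ≤
          ∑ j ∈ M.filter (fun j => g j = x),
            ((univ.filter (fun u => j ∈ T u)).card : ℝ) / Fintype.card V := by
        rw [← Finset.sum_div]
        apply div_le_div_of_nonneg_right _ hV0.le
        exact_mod_cast hcard
      linarith
  have hme : (m : ℝ) * e ≤ ε / 4 :=
    le_trans (mul_le_mul_of_nonneg_right hm he0.le) heK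
  have h6 := le_trans hprod (add_le_add_left hle (5 * θ))
  linarith [hvp, h6, hme, hFF, hθε]

end Pool.Agent.Work.MP_1ce445_low
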