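import Pool.Agent.Work.MP_1ce445_low.Interface3

/-!
Block VAL: the value of a type system lies in `[0, 1]`.
-/

namespace Pool.Agent.Work.MP_1ce445_low

open Finset Pool.Agent.Work.MP_1ce445_co_56 Pool.Agent.Work.MP_1ce445_lin

theorem stmt_VAL : Stmt_VAL := by
  intro D v hv
  obtain ⟨ι, _, _, q, S, rfl⟩ := hv
  have hp0 : ∀ a, 0 ≤ S.p a := by
    intro a
    unfold TSys.p
    apply Finset.sum_nonneg
    intro s _
    split_ifs
    · exact (S.w_pos s).le
    · exact le_refl _
  have hp1 : ∀ a, S.p a ≤ 1 := by
    intro a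
    unfold TSys.p
    rw [← S.w_sum]
    apply Finset.sum_le_sum
    intro s _
    split_ifs
    · exact le_refl _
    · exact (S.w_pos s).le
  unfold TSys.val
  constructor
  · apply Finset.prod_nonneg
    intro a _
    linarith [hp1 a]
  · apply Finset.prod_le_one
    · intro a _
      linarith [hp1 a]
    · intro a _
      linarith [hp0 a]

end Pool.Agent.Work.MP_1ce445_low
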