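import Pool.Agent.Work.MP_1ce445_low.INT
import Pool.Agent.Work.MP_1ce445_low.STE
import Pool.Agent.Work.MP_1ce445_low.BAS0
import Pool.Agent.Work.MP_1ce445_low.DET
import Pool.Agent.Work.MP_1ce445_low.CVR
import Pool.Agent.Work.MP_1ce445_low.B_DST
import Pool.Agent.Work.MP_1ce445_low.SIZ
import Pool.Agent.Work.MP_1ce445_low.EVG
import Pool.Agent.Work.MP_1ce445_low.HALx
import Pool.Agent.Work.MP_1ce445_low.ODG
import Pool.Agent.Work.MP_1ce445_low.ASY
import Pool.Agent.Work.MP_1ce445_low.PER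
import Pool.Agent.Work.MP_1ce445_low.GEN
import Pool.Agent.Work.MP_1ce445_low.UNI
import Pool.Agent.Work.MP_1ce445_low.A27
import Pool.Agent.Work.MP_1ce445_low.B_SCL
import Pool.Agent.Work.MP_1ce445_low.VAL
import Pool.Agent.Work.MP_1ce445_low.MRG
import Pool.Agent.Work.MP_1ce445_low.ABS
import Pool.Agent.Work.MP_1ce445_low.UPS
import Pool.Agent.Work.MP_1ce445_low.LIMU
import Pool.Agent.Work.MP_1ce445_low.LIML
import Pool.Agent.Work.MP_1ce445_low.CNT
import Pool.Agent.Work.MP_1ce445_low.UNF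
import Pool.Agent.Work.MP_1ce445_lin.COR2

/-!
The general lower bound and THEOREM LIM without hypotheses (MP_1ce445_co).
-/

namespace Pool.Agent.Work.MP_1ce445_low

theorem h_DET : Stmt_DET := stmt_DET (stmt_STE p_INT) stmt_BAS0

theorem h_SIZ : Stmt_SIZ := stmt_SIZ p_DST

theorem h_EVG : Stmt_EVG := stmt_EVG h_DET stmt_CVR

theorem h_ODG : Stmt_ODG := stmt_ODG h_DET stmt_CVR stmt_HALx

theorem h_ASY : Stmt_ASY := stmt_ASY h_SIZ h_EVG h_ODG

/-- the general lower bound -/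
theorem h_GEN : Stmt_GEN := stmt_GEN h_ASY stmt_PER

theorem h_UNI : Stmt_UNI := stmt_UNI h_GEN

theorem h_UPS : Stmt_UPS := stmt_UPS stmt_VAL stmt_MRG stmt_ABS

/-- the upper bound near `k / n = c` -/
theorem h_LIMU : Stmt_LIMU := stmt_LIMU Pool.Agent.Work.MP_1ce445_lin.stmt_COR2 stmt_A27 stmt_VAL h_UPS

/-- the lower bound near `k / n = c` -/
theorem h_LIML : Stmt_LIML := stmt_LIML h_GEN stmt_A27 stmt_VAL

/-- `FF` is monotone and continuous on `(0, 1)` -/
theorem h_CNT : Stmt_CNT := stmt_CNT h_LIMU h_LIML p_SCL stmt_A27 stmt_VAL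

/-- uniform convergence on compact intervals -/
theorem h_UNF : Stmt_UNF := stmt_UNF h_LIMU h_LIML h_CNT

end Pool.Agent.Work.MP_1ce445_low
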