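import Pool.Agent.Work.MP_1ce445_low.Interface2

/-!
Block HUB of the general lower bound (MP_1ce445_co).
-/

namespace Pool.Agent.Work.MP_1ce445_low

open Finset Pool.Agent.Work.MP_1ce445_co_56 Pool.Agent.Work.MP_1ce445_lin

/-- The types. -/
def HUB_T (m : ℕ) : Fin m ⊕ Fin 3 → Finset (Fin (m + 2))
  | Sum.inl j => {j.succ.succ}
  | Sum.inr a => (![{0}, {1}, {0, 1}] : Fin 3 → Finset (Fin (m + 2))) a

/-- The weights. -/
def HUB_w (m : ℕ) (D δ z : ℝ) : Fin m ⊕ Fin 3 → ℝ
  | Sum.inl _ => D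
  | Sum.inr a => (![D - δ, D - z, z] : Fin 3 → ℝ) a

/-- The graph. -/
def HUB_x (m : ℕ) (D δ z : ℝ) : Fin m ⊕ Fin 3 → Fin m ⊕ Fin 3 → ℝ
  | Sum.inl i, Sum.inl j => if i = j then D * D else 0
  | Sum.inl _, Sum.inr _ => 0
  | Sum.inr _, Sum.inl _ => 0
  | Sum.inr a, Sum.inr b =>
    (![![(D - δ) * (D - δ), 0, (D - δ) * δ], ![0, (D - z) * (D - z), (D - z) * z],
      ![(D - δ) * δ, (D - z) * z, 0]] : Fin 3 → Fin 3 → ℝ) a b

/-- The type system. -/
def HUB_S (m : ℕ) (D δ z : ℝ) (hD : δ = ((m : ℝ) + 2) * D - 1) (h0 : 0 < δ) (h1 : δ ≤ z)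
    (h2 : z < D) (h3 : z * z = δ * (D - δ)) (h4 : 0 < D - δ) : TSys (Fin m ⊕ Fin 3) (m + 2) D where
  T := HUB_T m
  w := HUB_w m D δ z
  x := HUB_x m D δ z
  ne := by
    rintro (j | a)
    · exact ⟨j.succ.succ, by simp [HUB_T]⟩
    · fin_cases a
      · exact ⟨0, by simp [HUB_T]⟩
      · exact ⟨1, by simp [HUB_T]⟩
      · exact ⟨0, by simp [HUB_T]⟩
  w_pos := by
    rintro (j | a)
    · show 0 < D
      linarith
    · fin_cases a
      · show 0 < D - δ
        exact h4
      · show 0 < D - z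
        linarith
      · show 0 < z
        linarith
  w_sum := by
    rw [Fintype.sum_sum_type, Fin.sum_univ_three]
    simp only [HUB_w, sum_const, card_univ, Fintype.card_fin, nsmul_eq_mul]
    show (m : ℝ) * D + ((D - δ) + (D - z) + z) = 1
    rw [hD]
    ring
  symm := by
    rintro (i | a) (j | b)
    · show (if i = j then D * D else 0) = (if j = i then D * D else 0)
      by_cases h : i = j
      · rw [if_pos h, if_pos h.symm]
      · rw [if_neg h, if_neg (Ne.symm h)]
    · rfl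
    · rfl
    · fin_cases a <;> fin_cases b <;> rfl
  nonneg := by
    have hDpos : 0 < D := by linarith
    rintro (i | a) (j | b)
    · show 0 ≤ (if i = j then D * D else 0)
      split_ifs
      · positivity
      · exact le_refl 0
    · exact le_refl 0
    · exact le_refl 0
    · have e1 : 0 ≤ (D - δ) * (D - δ) := mul_self_nonneg _
      have e2 : 0 ≤ (D - z) * (D - z) := mul_self_nonneg _
      have e3 : 0 ≤ (D - δ) * δ := mul_nonneg h4.le h0.le
      have e4 : 0 ≤ (D - z) * z := mul_nonneg (by linarith) (by linarith)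
      fin_cases a <;> fin_cases b
      · exact e1
      · exact le_refl (0 : ℝ)
      · exact e3
      · exact le_refl (0 : ℝ)
      · exact e2
      · exact e4
      · exact e3
      · exact e4
      · exact le_refl (0 : ℝ)
  le := by
    have hDpos : 0 < D := by linarith
    have hz : 0 < z := by linarith
    have hDz : 0 < D - z := by linarith
    rintro (i | a) (j | b)
    · show (if i = j then D * D else 0) ≤ D * D
      split_ifs
      · exact le_refl _
      · positivity
    · have e : ∀ b : Fin 3, 0 ≤ D * HUB_w m D δ z (Sum.inr b) := by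
        intro b
        fin_cases b
        · show 0 ≤ D * (D - δ)
          positivity
        · show 0 ≤ D * (D - z)
          positivity
        · show 0 ≤ D * z
          positivity
      exact e b
    · have e : ∀ b : Fin 3, 0 ≤ HUB_w m D δ z (Sum.inr b) * D := by
        intro b
        fin_cases b
        · show 0 ≤ (D - δ) * D
          positivity
        · show 0 ≤ (D - z) * D
          positivity
        · show 0 ≤ z * D
          positivity
      exact e a
    · have e3 : (D - δ) * δ ≤ (D - δ) * z := mul_le_mul_of_nonneg_left h1 h4.le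
      fin_cases a <;> fin_cases b
      · exact le_refl ((D - δ) * (D - δ))
      · show (0 : ℝ) ≤ (D - δ) * (D - z)
        positivity
      · exact e3
      · show (0 : ℝ) ≤ (D - z) * (D - δ)
        positivity
      · exact le_refl ((D - z) * (D - z))
      · exact le_refl ((D - z) * z)
      · show (D - δ) * δ ≤ z * (D - δ)
        linarith
      · show (D - z) * z ≤ z * (D - z)
        linarith
      · show (0 : ℝ) ≤ z * z
        positivity
  zero := by
    rintro (i | a) (j | b) h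
    · show (if i = j then D * D else 0) = 0
      by_cases hij : i = j
      · exfalso
        rw [hij] at h
        simp [HUB_T] at h
      · rw [if_neg hij]
    · rfl
    · rfl
    · fin_cases a <;> fin_cases b
      · simp [HUB_T] at h
      · rfl
      · simp [HUB_T] at h
      · rfl
      · simp [HUB_T] at h
      · simp [HUB_T] at h
      · simp [HUB_T] at h
      · simp [HUB_T] at h
      · rfl
  row := by
    rintro (i | a)
    · rw [Fintype.sum_sum_type]
      show ∑ j, (if i = j then D * D else 0) + ∑ _b : Fin 3, (0 : ℝ) = D * D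
      simp
    · rw [Fintype.sum_sum_type, Fin.sum_univ_three]
      fin_cases a
      · show ∑ _j : Fin m, (0 : ℝ) + ((D - δ) * (D - δ) + 0 + (D - δ) * δ) = D * (D - δ)
        rw [Finset.sum_const_zero]
        ring
      · show ∑ _j : Fin m, (0 : ℝ) + (0 + (D - z) * (D - z) + (D - z) * z) = D * (D - z)
        rw [Finset.sum_const_zero]
        ring
      · show ∑ _j : Fin m, (0 : ℝ) + ((D - δ) * δ + (D - z) * z + 0) = D * z
        rw [Finset.sum_const_zero]
        linear_combination -h3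

theorem HUB_p0 (m : ℕ) (D δ z : ℝ) (hD : δ = ((m : ℝ) + 2) * D - 1) (h0 : 0 < δ) (h1 : δ ≤ z)
    (h2 : z < D) (h3 : z * z = δ * (D - δ)) (h4 : 0 < D - δ) :
    (HUB_S m D δ z hD h0 h1 h2 h3 h4).p 0 = D - δ + z := by
  unfold TSys.p
  rw [Fintype.sum_sum_type, Fin.sum_univ_three]
  have e1 : ∀ j : Fin m, (if (0 : Fin (m + 2)) ∈ HUB_T m (Sum.inl j) then
      HUB_w m D δ z (Sum.inl j) else 0) = 0 := by
    intro j
    rw [if_neg]
    intro h
    rw [HUB_T, mem_singleton] at h
    exact absurd h.symm (Fin.succ_ne_zero _)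
  show ∑ j : Fin m, (if (0 : Fin (m + 2)) ∈ HUB_T m (Sum.inl j) then
      HUB_w m D δ z (Sum.inl j) else 0) + ((if (0 : Fin (m + 2)) ∈ ({0} : Finset (Fin (m + 2)))
        then D - δ else 0) + (if (0 : Fin (m + 2)) ∈ ({1} : Finset (Fin (m + 2)))
        then D - z else 0) + (if (0 : Fin (m + 2)) ∈ ({0, 1} : Finset (Fin (m + 2)))
        then z else 0)) = D - δ + z
  rw [Finset.sum_congr rfl (fun j _ => e1 j), Finset.sum_const_zero]
  simp

theorem HUB_p1 (m : ℕ) (D δ z : ℝ) (hD : δ = ((m : ℝ) + 2) * D - 1) (h0 : 0 < δ) (h1 : δ ≤ z)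
    (h2 : z < D) (h3 : z * z = δ * (D - δ)) (h4 : 0 < D - δ) :
    (HUB_S m D δ z hD h0 h1 h2 h3 h4).p 1 = D := by
  unfold TSys.p
  rw [Fintype.sum_sum_type, Fin.sum_univ_three]
  have e1 : ∀ j : Fin m, (if (1 : Fin (m + 2)) ∈ HUB_T m (Sum.inl j) then
      HUB_w m D δ z (Sum.inl j) else 0) = 0 := by
    intro j
    rw [if_neg]
    intro h
    rw [HUB_T, mem_singleton] at h
    have h5 := congrArg Fin.val h
    simp at h5
  show ∑ j : Fin m, (if (1 : Fin (m + 2)) ∈ HUB_T m (Sum.inl j) then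
      HUB_w m D δ z (Sum.inl j) else 0) + ((if (1 : Fin (m + 2)) ∈ ({0} : Finset (Fin (m + 2)))
        then D - δ else 0) + (if (1 : Fin (m + 2)) ∈ ({1} : Finset (Fin (m + 2)))
        then D - z else 0) + (if (1 : Fin (m + 2)) ∈ ({0, 1} : Finset (Fin (m + 2)))
        then z else 0)) = D
  rw [Finset.sum_congr rfl (fun j _ => e1 j), Finset.sum_const_zero]
  simp

theorem HUB_p2 (m : ℕ) (D δ z : ℝ) (hD : δ = ((m : ℝ) + 2) * D - 1) (h0 : 0 < δ) (h1 : δ ≤ z)
    (h2 : z < D) (h3 : z * z = δ * (D - δ)) (h4 : 0 < D - δ) (i : Fin m) :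
    (HUB_S m D δ z hD h0 h1 h2 h3 h4).p i.succ.succ = D := by
  unfold TSys.p
  rw [Fintype.sum_sum_type, Fin.sum_univ_three]
  have e1 : ∀ j : Fin m, (if (i.succ.succ : Fin (m + 2)) ∈ HUB_T m (Sum.inl j) then
      HUB_w m D δ z (Sum.inl j) else 0) = if i = j then D else 0 := by
    intro j
    by_cases hij : i = j
    · rw [if_pos hij, if_pos]
      · rfl
      · rw [HUB_T, mem_singleton, hij]
    · rw [if_neg hij, if_neg]
      rw [HUB_T, mem_singleton]
      intro h
      exact hij (Fin.succ_injective _ (Fin.succ_injective _ h))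
  have n0 : (i.succ.succ : Fin (m + 2)) ≠ 0 := Fin.succ_ne_zero _
  have n1 : (i.succ.succ : Fin (m + 2)) ≠ 1 := by
    intro h
    have h5 := congrArg Fin.val h
    simp at h5
  show ∑ j : Fin m, (if (i.succ.succ : Fin (m + 2)) ∈ HUB_T m (Sum.inl j) then
      HUB_w m D δ z (Sum.inl j) else 0) +
        ((if (i.succ.succ : Fin (m + 2)) ∈ ({0} : Finset (Fin (m + 2)))
        then D - δ else 0) + (if (i.succ.succ : Fin (m + 2)) ∈ ({1} : Finset (Fin (m + 2)))
        then D - z else 0) + (if (i.succ.succ : Fin (m + 2)) ∈ ({0, 1} : Finset (Fin (m + 2)))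
        then z else 0)) = D
  rw [Finset.sum_congr rfl (fun j _ => e1 j)]
  simp only [mem_singleton, mem_insert, n0, n1, or_self, if_false]
  simp

theorem HUB_val (m : ℕ) (D δ z : ℝ) (hD : δ = ((m : ℝ) + 2) * D - 1) (h0 : 0 < δ) (h1 : δ ≤ z)
    (h2 : z < D) (h3 : z * z = δ * (D - δ)) (h4 : 0 < D - δ) :
    (HUB_S m D δ z hD h0 h1 h2 h3 h4).val = (1 - D) ^ (m + 1) * (1 - (D - δ + z)) := by
  unfold TSys.val
  rw [Fin.prod_univ_succ, Fin.prod_univ_succ, HUB_p0]
  have e1 : (HUB_S m D δ z hD h0 h1 h2 h3 h4).p (Fin.succ 0) = D := HUB_p1 m D δ z hD h0 h1 h2 h3 h4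
  rw [e1, Finset.prod_congr rfl (fun i _ => by rw [HUB_p2 m D δ z hD h0 h1 h2 h3 h4 i])]
  rw [Finset.prod_const, card_univ, Fintype.card_fin]
  ring

theorem stmt_HUB : Stmt_HUB := by
  intro m D hm hD1 hδ hδD
  obtain ⟨m', rfl⟩ : ∃ m', m = m' + 1 := ⟨m - 1, by omega⟩
  push_cast at hδ hδD ⊢
  set δ : ℝ := ((m' : ℝ) + 1 + 1) * D - 1 with hδdef
  have hm0 : (0 : ℝ) ≤ (m' : ℝ) := Nat.cast_nonneg _
  have hDpos : 0 < D := by
    by_contra hcon
    have : ((m' : ℝ) + 1 + 1) * D ≤ 0 := mul_nonpos_of_nonneg_of_nonpos (by linarith) (by linarith)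
    linarith
  have h4 : 0 < D - δ := by linarith
  have h5 : 1 - ((m' : ℝ) + 1) * D = D - δ := by rw [hδdef]; ring
  rw [h5]
  set z : ℝ := √(δ * (D - δ)) with hz
  have hz0 : 0 ≤ z := Real.sqrt_nonneg _
  have h3 : z * z = δ * (D - δ) := Real.mul_self_sqrt (mul_nonneg hδ.le h4.le)
  have h1 : δ ≤ z := by
    rw [hz]
    apply Real.le_sqrt_of_sq_le
    nlinarith
  have h2 : z < D := by
    have h6 : z * z ≤ (D / 2) * (D / 2) := by
      rw [h3]
      nlinarith [sq_nonneg (D - 2 * δ)]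
    have h7 : z ≤ D / 2 := by
      by_contra hcon
      push Not at hcon
      nlinarith
    linarith
  have hδ2 : δ = ((m' : ℝ) + 2) * D - 1 := by rw [hδdef]; ring
  refine ⟨Fin m' ⊕ Fin 3, inferInstance, inferInstance, m' + 2,
    HUB_S m' D δ z hδ2 hδ h1 h2 h3 h4, ?_⟩
  rw [HUB_val]
  congr 1
  rw [hδ2]
  ring

end Pool.Agent.Work.MP_1ce445_low
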