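import Pool.Agent.Work.MP_1ce445_low.Interface2

/-!
Block HUB2 of the general lower bound (MP_1ce445_co).
-/

namespace Pool.Agent.Work.MP_1ce445_low

open Finset Pool.Agent.Work.MP_1ce445_co_56 Pool.Agent.Work.MP_1ce445_lin

/-- The types. -/
def HUB2_T (m : ℕ) : Unit ⊕ (Fin m ⊕ Fin m) → Finset (Fin (m + 1))
  | Sum.inl _ => {0}
  | Sum.inr (Sum.inl i) => {i.succ}
  | Sum.inr (Sum.inr i) => {0, i.succ}

/-- The weights. -/
def HUB2_w (m : ℕ) (D a b : ℝ) : Unit ⊕ (Fin m ⊕ Fin m) → ℝ
  | Sum.inl _ => D - m * b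
  | Sum.inr (Sum.inl _) => D - a
  | Sum.inr (Sum.inr _) => b

/-- The graph. -/
def HUB2_x (m : ℕ) (D a b : ℝ) : Unit ⊕ (Fin m ⊕ Fin m) → Unit ⊕ (Fin m ⊕ Fin m) → ℝ
  | Sum.inl _, Sum.inl _ => (D - m * b) * (D - m * b)
  | Sum.inl _, Sum.inr (Sum.inl _) => 0
  | Sum.inl _, Sum.inr (Sum.inr _) => (D - m * b) * b
  | Sum.inr (Sum.inl _), Sum.inl _ => 0
  | Sum.inr (Sum.inl i), Sum.inr (Sum.inl j) => if i = j then (D - a) * (D - a) else 0
  | Sum.inr (Sum.inl i), Sum.inr (Sum.inr j) => if i = j then (D - a) * a else 0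
  | Sum.inr (Sum.inr _), Sum.inl _ => (D - m * b) * b
  | Sum.inr (Sum.inr i), Sum.inr (Sum.inl j) => if i = j then (D - a) * a else 0
  | Sum.inr (Sum.inr _), Sum.inr (Sum.inr _) => 0

/-- The type system. -/
def HUB2_S (m : ℕ) (D a b : ℝ) (hD : (m : ℝ) * a = ((m : ℝ) + 1) * D - 1) (h0 : 0 < a) (h1 : a ≤ b)
    (h2 : m * b < D) (h3 : (m : ℝ) * b * b = a * (D - a)) (h4 : 0 < D - a) :
    TSys (Unit ⊕ (Fin m ⊕ Fin m)) (m + 1) D where
  T := HUB2_T m
  w := HUB2_w m D a b
  x := HUB2_x m D a b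
  ne := by
    rintro (_ | i | i)
    · exact ⟨0, by simp [HUB2_T]⟩
    · exact ⟨i.succ, by simp [HUB2_T]⟩
    · exact ⟨0, by simp [HUB2_T]⟩
  w_pos := by
    rintro (_ | i | i)
    · show 0 < D - m * b
      linarith
    · show 0 < D - a
      exact h4
    · show 0 < b
      linarith
  w_sum := by
    rw [Fintype.sum_sum_type, Fintype.sum_sum_type, Fintype.sum_unique]
    simp only [HUB2_w, sum_const, card_univ, Fintype.card_fin, nsmul_eq_mul]
    linear_combination -hD
  symm := by
    rintro (_ | i | i) (_ | j | j)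
    · rfl
    · rfl
    · rfl
    · rfl
    · show (if i = j then (D - a) * (D - a) else 0) = (if j = i then (D - a) * (D - a) else 0)
      by_cases h : i = j
      · rw [if_pos h, if_pos h.symm]
      · rw [if_neg h, if_neg (Ne.symm h)]
    · show (if i = j then (D - a) * a else 0) = (if j = i then (D - a) * a else 0)
      by_cases h : i = j
      · rw [if_pos h, if_pos h.symm]
      · rw [if_neg h, if_neg (Ne.symm h)]
    · rfl
    · show (if i = j then (D - a) * a else 0) = (if j = i then (D - a) * a else 0)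
      by_cases h : i = j
      · rw [if_pos h, if_pos h.symm]
      · rw [if_neg h, if_neg (Ne.symm h)]
    · rfl
  nonneg := by
    have hb : 0 < b := by linarith
    have hw : 0 < D - m * b := by linarith
    rintro (_ | i | i) (_ | j | j)
    · show 0 ≤ (D - m * b) * (D - m * b)
      exact mul_self_nonneg _
    · exact le_refl (0 : ℝ)
    · show 0 ≤ (D - m * b) * b
      exact (mul_pos hw hb).le
    · exact le_refl (0 : ℝ)
    · show 0 ≤ (if i = j then (D - a) * (D - a) else 0)
      split_ifs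
      · exact mul_self_nonneg _
      · exact le_refl 0
    · show 0 ≤ (if i = j then (D - a) * a else 0)
      split_ifs
      · exact (mul_pos h4 h0).le
      · exact le_refl 0
    · show 0 ≤ (D - m * b) * b
      exact (mul_pos hw hb).le
    · show 0 ≤ (if i = j then (D - a) * a else 0)
      split_ifs
      · exact (mul_pos h4 h0).le
      · exact le_refl 0
    · exact le_refl (0 : ℝ)
  le := by
    have hb : 0 < b := by linarith
    have hw : 0 < D - m * b := by linarith
    have e3 : (D - a) * a ≤ (D - a) * b := mul_le_mul_of_nonneg_left h1 h4.le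
    rintro (_ | i | i) (_ | j | j)
    · exact le_refl ((D - m * b) * (D - m * b))
    · show (0 : ℝ) ≤ (D - m * b) * (D - a)
      exact (mul_pos hw h4).le
    · exact le_refl ((D - m * b) * b)
    · show (0 : ℝ) ≤ (D - a) * (D - m * b)
      exact (mul_pos h4 hw).le
    · show (if i = j then (D - a) * (D - a) else 0) ≤ (D - a) * (D - a)
      split_ifs
      · exact le_refl _
      · exact mul_self_nonneg _
    · show (if i = j then (D - a) * a else 0) ≤ (D - a) * b
      split_ifs
      · exact e3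
      · exact (mul_pos h4 hb).le
    · show (D - m * b) * b ≤ b * (D - m * b)
      rw [mul_comm]
    · show (if i = j then (D - a) * a else 0) ≤ b * (D - a)
      split_ifs
      · rw [mul_comm b]
        exact e3
      · exact (mul_pos hb h4).le
    · show (0 : ℝ) ≤ b * b
      exact mul_self_nonneg _
  zero := by
    rintro (_ | i | i) (_ | j | j) h
    · exfalso
      simp [HUB2_T] at h
    · rfl
    · exfalso
      simp [HUB2_T] at h
    · rfl
    · show (if i = j then (D - a) * (D - a) else 0) = 0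
      by_cases hij : i = j
      · exfalso
        rw [hij] at h
        simp [HUB2_T] at h
      · rw [if_neg hij]
    · show (if i = j then (D - a) * a else 0) = 0
      by_cases hij : i = j
      · exfalso
        rw [hij] at h
        simp [HUB2_T] at h
      · rw [if_neg hij]
    · exfalso
      simp [HUB2_T] at h
    · show (if i = j then (D - a) * a else 0) = 0
      by_cases hij : i = j
      · exfalso
        rw [hij] at h
        simp [HUB2_T] at h
      · rw [if_neg hij]
    · rfl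
  row := by
    rintro (_ | i | i)
    · rw [Fintype.sum_sum_type, Fintype.sum_sum_type, Fintype.sum_unique]
      show (D - m * b) * (D - m * b) + (∑ _j : Fin m, (0 : ℝ) + ∑ _j : Fin m, (D - m * b) * b) =
        D * (D - m * b)
      simp only [sum_const, card_univ, Fintype.card_fin, nsmul_eq_mul]
      ring
    · rw [Fintype.sum_sum_type, Fintype.sum_sum_type, Fintype.sum_unique]
      show 0 + (∑ j : Fin m, (if i = j then (D - a) * (D - a) else 0) +
        ∑ j : Fin m, (if i = j then (D - a) * a else 0)) = D * (D - a)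
      simp only [sum_ite_eq, mem_univ, if_true]
      ring
    · rw [Fintype.sum_sum_type, Fintype.sum_sum_type, Fintype.sum_unique]
      show (D - m * b) * b + (∑ j : Fin m, (if i = j then (D - a) * a else 0) +
        ∑ _j : Fin m, (0 : ℝ)) = D * b
      simp only [sum_ite_eq, mem_univ, if_true, sum_const_zero]
      linear_combination -h3

theorem HUB2_p0 (m : ℕ) (D a b : ℝ) (hD : (m : ℝ) * a = ((m : ℝ) + 1) * D - 1) (h0 : 0 < a)
    (h1 : a ≤ b) (h2 : m * b < D) (h3 : (m : ℝ) * b * b = a * (D - a)) (h4 : 0 < D - a) :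
    (HUB2_S m D a b hD h0 h1 h2 h3 h4).p 0 = D := by
  unfold TSys.p
  rw [Fintype.sum_sum_type, Fintype.sum_sum_type, Fintype.sum_unique]
  have e1 : ∀ j : Fin m, (if (0 : Fin (m + 1)) ∈ HUB2_T m (Sum.inr (Sum.inl j)) then
      HUB2_w m D a b (Sum.inr (Sum.inl j)) else 0) = 0 := by
    intro j
    rw [if_neg]
    intro h
    rw [HUB2_T, mem_singleton] at h
    exact absurd h.symm (Fin.succ_ne_zero _)
  have e2 : ∀ j : Fin m, (if (0 : Fin (m + 1)) ∈ HUB2_T m (Sum.inr (Sum.inr j)) then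
      HUB2_w m D a b (Sum.inr (Sum.inr j)) else 0) = b := by
    intro j
    rw [if_pos]
    · rfl
    · rw [HUB2_T]
      exact mem_insert_self _ _
  have e0 : (if (0 : Fin (m + 1)) ∈ HUB2_T m (Sum.inl ()) then
      HUB2_w m D a b (Sum.inl ()) else 0) = D - m * b := by
    rw [if_pos]
    · rfl
    · rw [HUB2_T]
      exact mem_singleton_self _
  show (if (0 : Fin (m + 1)) ∈ HUB2_T m (Sum.inl ()) then
      HUB2_w m D a b (Sum.inl ()) else 0) +
    (∑ j : Fin m, (if (0 : Fin (m + 1)) ∈ HUB2_T m (Sum.inr (Sum.inl j)) then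
      HUB2_w m D a b (Sum.inr (Sum.inl j)) else 0) +
    ∑ j : Fin m, (if (0 : Fin (m + 1)) ∈ HUB2_T m (Sum.inr (Sum.inr j)) then
      HUB2_w m D a b (Sum.inr (Sum.inr j)) else 0)) = D
  rw [e0, Finset.sum_congr rfl (fun j _ => e1 j), Finset.sum_congr rfl (fun j _ => e2 j)]
  simp only [sum_const, card_univ, Fintype.card_fin, nsmul_eq_mul]
  ring

theorem HUB2_p1 (m : ℕ) (D a b : ℝ) (hD : (m : ℝ) * a = ((m : ℝ) + 1) * D - 1) (h0 : 0 < a)
    (h1 : a ≤ b) (h2 : m * b < D) (h3 : (m : ℝ) * b * b = a * (D - a)) (h4 : 0 < D - a)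
    (i : Fin m) :
    (HUB2_S m D a b hD h0 h1 h2 h3 h4).p i.succ = D - a + b := by
  unfold TSys.p
  rw [Fintype.sum_sum_type, Fintype.sum_sum_type, Fintype.sum_unique]
  have e1 : ∀ j : Fin m, (if (i.succ : Fin (m + 1)) ∈ HUB2_T m (Sum.inr (Sum.inl j)) then
      HUB2_w m D a b (Sum.inr (Sum.inl j)) else 0) = if i = j then D - a else 0 := by
    intro j
    by_cases hij : i = j
    · rw [if_pos hij, if_pos]
      · rfl
      · rw [HUB2_T, mem_singleton, hij]
    · rw [if_neg hij, if_neg]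
      rw [HUB2_T, mem_singleton]
      intro h
      exact hij (Fin.succ_injective _ h)
  have e2 : ∀ j : Fin m, (if (i.succ : Fin (m + 1)) ∈ HUB2_T m (Sum.inr (Sum.inr j)) then
      HUB2_w m D a b (Sum.inr (Sum.inr j)) else 0) = if i = j then b else 0 := by
    intro j
    by_cases hij : i = j
    · rw [if_pos hij, if_pos]
      · rfl
      · rw [HUB2_T, mem_insert, mem_singleton, hij]
        exact Or.inr rfl
    · rw [if_neg hij, if_neg]
      rw [HUB2_T, mem_insert, mem_singleton]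
      rintro (h | h)
      · exact absurd h (Fin.succ_ne_zero _)
      · exact hij (Fin.succ_injective _ h)
  have e0 : (if (i.succ : Fin (m + 1)) ∈ HUB2_T m (Sum.inl ()) then
      HUB2_w m D a b (Sum.inl ()) else 0) = 0 := by
    rw [if_neg]
    rw [HUB2_T, mem_singleton]
    exact Fin.succ_ne_zero _
  show (if (i.succ : Fin (m + 1)) ∈ HUB2_T m (Sum.inl ()) then
      HUB2_w m D a b (Sum.inl ()) else 0) +
    (∑ j : Fin m, (if (i.succ : Fin (m + 1)) ∈ HUB2_T m (Sum.inr (Sum.inl j)) then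
      HUB2_w m D a b (Sum.inr (Sum.inl j)) else 0) +
    ∑ j : Fin m, (if (i.succ : Fin (m + 1)) ∈ HUB2_T m (Sum.inr (Sum.inr j)) then
      HUB2_w m D a b (Sum.inr (Sum.inr j)) else 0)) = D - a + b
  rw [e0, Finset.sum_congr rfl (fun j _ => e1 j), Finset.sum_congr rfl (fun j _ => e2 j)]
  simp only [sum_ite_eq, mem_univ, if_true]
  ring

theorem HUB2_val (m : ℕ) (D a b : ℝ) (hD : (m : ℝ) * a = ((m : ℝ) + 1) * D - 1) (h0 : 0 < a)
    (h1 : a ≤ b) (h2 : m * b < D) (h3 : (m : ℝ) * b * b = a * (D - a)) (h4 : 0 < D - a) :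
    (HUB2_S m D a b hD h0 h1 h2 h3 h4).val = (1 - D) * (1 - (D - a + b)) ^ m := by
  unfold TSys.val
  rw [Fin.prod_univ_succ, HUB2_p0,
    Finset.prod_congr rfl (fun i _ => by rw [HUB2_p1 m D a b hD h0 h1 h2 h3 h4 i])]
  rw [Finset.prod_const, card_univ, Fintype.card_fin]

theorem stmt_HUB2 : Stmt_HUB2 := by
  intro m D hm hD1 hδ hδD
  set δ : ℝ := ((m : ℝ) + 1) * D - 1 with hδdef
  have hm1 : (1 : ℝ) ≤ (m : ℝ) := by exact_mod_cast hm
  have hm0 : (0 : ℝ) < (m : ℝ) := by linarith
  have hmne : (m : ℝ) ≠ 0 := ne_of_gt hm0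
  have hDpos : 0 < D := by linarith
  have hdm : δ ^ 2 / m ≤ δ ^ 2 := div_le_self (sq_nonneg δ) hm1
  have hrad : δ ^ 2 ≤ δ * D - δ ^ 2 / m := by nlinarith
  have hrad0 : 0 ≤ δ * D - δ ^ 2 / m := le_trans (sq_nonneg δ) hrad
  set z : ℝ := √(δ * D - δ ^ 2 / m) with hz
  have hz0 : 0 ≤ z := Real.sqrt_nonneg _
  have h3 : z * z = δ * D - δ ^ 2 / m := Real.mul_self_sqrt hrad0
  have h1 : δ ≤ z := by
    rw [hz]
    exact Real.le_sqrt_of_sq_le hrad
  have hdm0 : 0 ≤ δ ^ 2 / m := div_nonneg (sq_nonneg δ) hm0.le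
  have h2 : z < D := by
    by_contra hcon
    push Not at hcon
    have e1 : D * D ≤ z * z := mul_le_mul hcon hcon hDpos.le hz0
    have e2 : δ * D ≤ D / 2 * D := mul_le_mul_of_nonneg_right hδD hDpos.le
    nlinarith [mul_pos hDpos hDpos]
  have ha : (m : ℝ) * (δ / m) = δ := by field_simp
  have hb : (m : ℝ) * (z / m) = z := by field_simp
  have ha0 : 0 < δ / m := div_pos hδ hm0
  have ha1 : δ / m ≤ δ := div_le_self hδ.le hm1
  have hab : δ / m ≤ z / m := div_le_div_of_nonneg_right h1 hm0.le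
  have hq : (m : ℝ) * (z / m) * (z / m) = δ / m * (D - δ / m) := by
    rw [hb]
    have e1 : z * (z / m) = z * z / m := by ring
    rw [e1, h3]
    field_simp
  refine ⟨Unit ⊕ (Fin m ⊕ Fin m), inferInstance, inferInstance, m + 1,
    HUB2_S m D (δ / m) (z / m) (by rw [ha]) ha0 hab (by rw [hb]; exact h2) hq (by linarith), ?_⟩
  rw [HUB2_val]
  congr 2
  ring

end Pool.Agent.Work.MP_1ce445_low
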