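import Pool.Agent.Work.MP_1ce445_low.Interface2

/-!
Block EQM of MP_1ce445_co: `m` singleton types of weight `1 / m`.
-/

namespace Pool.Agent.Work.MP_1ce445_low

open Finset

/-- Block EQM. -/
theorem stmt_EQM : Stmt_EQM := by
  intro m hm
  have hm0 : (0 : ℝ) < m := by
    have : 0 < m := by omega
    exact_mod_cast this
  have hne : (m : ℝ) ≠ 0 := hm0.ne'
  refine ⟨Fin m, inferInstance, inferInstance, m,
    { T := fun s => {s}
      w := fun _ => 1 / (m : ℝ)
      x := fun s t => if s = t then (1 / (m : ℝ)) ^ 2 else 0
      ne := fun s => ⟨s, Finset.mem_singleton_self s⟩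
      w_pos := fun _ => by positivity
      w_sum := by
        rw [Finset.sum_const, Finset.card_univ, Fintype.card_fin, nsmul_eq_mul]
        field_simp
      symm := fun s t => by
        by_cases h : s = t
        · subst h; rfl
        · rw [if_neg h, if_neg (fun h' => h h'.symm)]
      nonneg := fun s t => by
        split_ifs
        · positivity
        · exact le_refl _
      le := fun s t => by
        split_ifs
        · rw [sq]
        · positivity
      zero := fun s t h => by
        have hst : s ≠ t := by
          rintro rfl
          exact Finset.disjoint_left.1 h (Finset.mem_singleton_self s)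
            (Finset.mem_singleton_self s)
        exact if_neg hst
      row := fun s => by
        rw [Finset.sum_ite_eq]
        simp only [Finset.mem_univ, if_true]
        rw [sq] }, ?_⟩
  have hp : ∀ a : Fin m, (∑ s : Fin m, if a ∈ ({s} : Finset (Fin m)) then (1 / (m : ℝ)) else 0)
      = 1 / (m : ℝ) := by
    intro a
    simp only [Finset.mem_singleton]
    rw [Finset.sum_ite_eq]
    simp
  unfold TSys.val TSys.p
  simp only [hp]
  rw [Finset.prod_const, Finset.card_univ, Fintype.card_fin]

end Pool.Agent.Work.MP_1ce445_low
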