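import Pool.Agent.Work.MP_1ce445_lin.Interface

/-!
General LOWER bound for MP_1ce445_co: every finite type system with a regular weighted graph is realized by
factorizations of the complete graph (detachment in the manner of Hilton).

Blocks: INT STE BAS0 DET CVR DST SIZ EVG HAL ODG ASY PER UNI. Final tool: `Stmt_GEN`, `Stmt_UNI`.
-/

namespace Pool.Agent.Work.MP_1ce445_low

open Finset Pool.Agent.Work.MP_1ce445_co_56 Pool.Agent.Work.MP_1ce445_lin

/-! ### Detachment -/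

/-- An outline: classes `C` of sizes `η`, `k` colours; `M i a b` = number of the edges of colour `i` between the classes
`a ≠ b`, `M i a a` = twice the number of the edges of colour `i` inside the class `a`. Every vertex has degree `1` in
every colour, and there are at most as many edges as in the complete graph. -/
structure Outline {C : Type} [Fintype C] [DecidableEq C] (k : ℕ) (η : C → ℕ) (M : Fin k → C → C → ℕ) : Prop where
  pos : ∀ a, 1 ≤ η a
  symm : ∀ i a b, M i a b = M i b a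
  even : ∀ i a, Even (M i a a)
  row : ∀ i a, ∑ b, M i a b = η a
  off : ∀ a b, a ≠ b → ∑ i, M i a b ≤ η a * η b
  diag : ∀ a, ∑ i, M i a a ≤ η a * (η a - 1)

/-- A realization of an outline: `k` perfect matchings `μ i` (fixed point free involutions) without common edges on a
vertex set `V` with a class map `cl`. -/
structure Realz {C : Type} [Fintype C] [DecidableEq C] {V : Type} [Fintype V] [DecidableEq V] (k : ℕ) (η : C → ℕ)
    (M : Fin k → C → C → ℕ) (cl : V → C) (μ : Fin k → V → V) : Prop where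
  card : ∀ a, (univ.filter (fun v => cl v = a)).card = η a
  inv : ∀ i v, μ i (μ i v) = v
  ne : ∀ i v, μ i v ≠ v
  dis : ∀ i j v, μ i v = μ j v → i = j
  cnt : ∀ a b, ∑ i, (univ.filter (fun v => cl v = a ∧ cl (μ i v) = b)).card = ∑ i, M i a b

/-- the sizes after one vertex (class `none`) has been split off the class `a` -/
def etaS {C : Type} [DecidableEq C] (a : C) (η : C → ℕ) : Option C → ℕ
  | none => 1
  | some b => if b = a then η a - 1 else η b

/-- the outline after one vertex has been split off the class `a`; `f i` = the class of its partner in colour `i` -/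
def MS {C : Type} [DecidableEq C] {k : ℕ} (a : C) (f : Fin k → C) (M : Fin k → C → C → ℕ) :
    Fin k → Option C → Option C → ℕ
  | _, none, none => 0
  | i, none, some b => if f i = b then 1 else 0
  | i, some b, none => if f i = b then 1 else 0
  | i, some b, some b' =>
      if b = a then
        (if b' = a then M i a a - 2 * (if f i = a then 1 else 0) else M i a b' - (if f i = b' then 1 else 0))
      else
        (if b' = a then M i b a - (if f i = b then 1 else 0) else M i b b')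

/-- INT (120 lines): integral choice with lower and upper bounds (Mendelsohn and Dulmage). `X = Fin k` (rows),
`S b = ∑ i, N i b`, relation `i ~ b` iff `0 < N i b`.
(1) Hall for the rows: `Y = Σ b, Fin ((S b + η - 1) / η)`, the row `i` may use every copy of every `b ~ i`. For a set `I`
of rows and `B` = the set of the `b ~ i`, `i ∈ I`: `η |I| = ∑_{i ∈ I} ∑_{b ∈ B} N i b ≤ ∑_{b ∈ B} S b ≤
η ∑_{b ∈ B} (S b + η - 1) / η`. So there is an injective `f1 : X → Y` (`Finset.all_card_le_biUnion_card_iff_exists_injective`).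
(2) Hall for `Y0 = Σ b, Fin (S b / η)` (the copies with a small number): for a set `J ⊆ Y0`, `B` = the classes which
occur in `J`, `I` = the rows `i ~ b` for some `b ∈ B`: `η |I| ≥ ∑_{i ∈ I} ∑_{b ∈ B} N i b = ∑_{b ∈ B} S b ≥
η ∑_{b ∈ B} S b / η ≥ η |J|`. So there is an injective `g1 : Y0 → X`.
(3) Both at once by `Function.Embedding.schroeder_bernstein_of_rel` (Mathlib) with `α = X ⊕ (Z × ℕ)`, `β = Y ⊕ (Z × ℕ)`,
`Z = Y \ Y0`; relation: `inl i ~ inl y` iff `i ~ class of y`; `inr (z, n) ~ inl y` iff `y = z`; `inr (z, n) ~ inr (z', n')`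
iff `z = z'`; `inl i ~ inr _` never. `α → β`: `inl i ↦ inl (f1 i)`, `inr p ↦ inr p`; `β → α`: `inl y ↦ inl (g1 y)` for
`y ∈ Y0`, `inl y ↦ inr (y, 0)` for `y ∈ Z`, `inr (z, n) ↦ inr (z, n + 1)`. The bijection `h : α → β` maps `X` into `Y`
injectively, and every `y ∈ Y0` is the image of some `i ∈ X`. Take `f i` = class of `h i`. -/
def Stmt_INT : Prop :=
  ∀ (C : Type) [Fintype C] [DecidableEq C] (k η : ℕ) (N : Fin k → C → ℕ), 0 < η → (∀ i, ∑ b, N i b = η) →
    ∃ f : Fin k → C, (∀ i, 0 < N i (f i)) ∧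
      ∀ b, (∑ i, N i b) / η ≤ (univ.filter (fun i => f i = b)).card ∧
        (univ.filter (fun i => f i = b)).card ≤ (∑ i, N i b + η - 1) / η

/-- STE (200 lines; uses INT). One step: take `f` from INT for `N i b = M i a b`, `η = η a`. `0 < M i a (f i)`; if `f i = a`
then `2 ≤ M i a a` because it is even. Fields of the new outline: `pos` (`η a ≥ 2`), `symm`, `even` clear; `row`: class
`none`: `∑ b, [f i = b] = 1`; class `a`: `∑ b, M i a b - (number 1 if f i ≠ a, 2 if f i = a) + (1 if f i = a) = η a - 1`;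
class `b ≠ a`: `M i b a` decreases by `[f i = b]` and `MS i (some b) none = [f i = b]`. `off`: `Z b = #{i | f i = b}`,
`S b = ∑ i, M i a b ≤ η a η b` for `b ≠ a`, `S a ≤ η a (η a - 1)`. (none, some b), `b ≠ a`: `Z b ≤ ⌈S b / η a⌉ ≤ η b`;
(none, some a): `Z a ≤ ⌈S a / η a⌉ ≤ η a - 1`; (some a, some b): `S b - Z b ≤ (η a - 1) η b` because
`Z b ≥ ⌊S b / η a⌋ ≥ S b - (η a - 1) η b` (`η a (S b - (η a - 1) η b) ≤ S b`). `diag` at `a`: `S a - 2 Z a ≤
(η a - 1) (η a - 2)`: `S a = 2 s` is even (a sum of even numbers), `Z a ≥ ⌊2 s / η a⌋ ≥ s - (η a - 1) (η a - 2) / 2` because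
`η a (2 s - (η a - 1) (η a - 2)) ≤ 4 s`, i.e. `2 s (η a - 2) ≤ η a (η a - 1) (η a - 2)`. -/
def Stmt_STE : Prop :=
  ∀ (C : Type) [Fintype C] [DecidableEq C] (k : ℕ) (η : C → ℕ) (M : Fin k → C → C → ℕ) (a : C),
    Outline k η M → 2 ≤ η a →
    ∃ f : Fin k → C, Outline k (etaS a η) (MS a f M) ∧ (∀ i, 1 ≤ M i a (f i)) ∧ (∀ i, f i = a → 2 ≤ M i a a)

/-- BAS0 (60 lines). All classes are single vertices: `V = C`, `cl = id`, `∑ b, M i a b = 1`, so for all `i`, `a` there is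
exactly one `b` with `M i a b = 1` (the others are `0`), `b ≠ a` because `∑ i, M i a a ≤ 0`; `μ i a` = this `b`.
`inv` by symmetry; `dis`: `∑ i, M i a b ≤ 1`; `cnt`: both sides count the `i` with `M i a b = 1`. -/
def Stmt_BAS0 : Prop :=
  ∀ (C : Type) [Fintype C] [DecidableEq C] (k : ℕ) (η : C → ℕ) (M : Fin k → C → C → ℕ),
    Outline k η M → (∀ a, η a = 1) → ∃ μ : Fin k → C → C, Realz k η M (id : C → C) μ

/-- DET (150 lines; uses STE BAS0). Every outline has a realization. Induction on `∑ a, (η a - 1)` (for all types `C`);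
if it is `0` use BAS0 (`η a ≥ 1`). Otherwise some `η a ≥ 2`; STE; the sum for `Option C` and `etaS` is smaller by `1`.
Realization `V, cl', μ` of the new outline; `cl v = (cl' v).getD a` (that is `none ↦ a`, `some b ↦ b`). `card`: the fibre of
`a` is the union of the fibres of `none` and `some a`: `1 + (η a - 1)`. `cnt`: for `b, b' ≠ a` the same sets; `(a, b')`:
`[f i = b'] + (M i a b' - [f i = b']) = M i a b'` as `1 ≤ M i a (f i)`; `(b, a)` in the same way; `(a, a)`: the four sets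
`(none, none), (none, some a), (some a, none), (some a, some a)`: `0 + [f i = a] + [f i = a] + (M i a a - 2 [f i = a])`,
`2 ≤ M i a a` if `f i = a`. (Sum over `i` on both sides.) -/
def Stmt_DET : Prop :=
  ∀ (C : Type) [Fintype C] [DecidableEq C] (k : ℕ) (η : C → ℕ) (M : Fin k → C → C → ℕ), Outline k η M →
    ∃ (V : Type) (_ : Fintype V) (_ : DecidableEq V) (cl : V → C) (μ : Fin k → V → V), Realz k η M cl μ

/-- CVR (60 lines). If the total number of the edges between `a ≠ b` is `η a η b` then every pair is matched: the map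
`(i, v) ↦ (v, μ i v)` from `{(i, v) | cl v = a, cl (μ i v) = b}` to `{v | cl v = a} × {w | cl w = b}` is injective (`dis`),
both sets have `η a η b` elements. -/
def Stmt_CVR : Prop :=
  ∀ (C V : Type) [Fintype C] [DecidableEq C] [Fintype V] [DecidableEq V] (k : ℕ) (η : C → ℕ)
    (M : Fin k → C → C → ℕ) (cl : V → C) (μ : Fin k → V → V), Realz k η M cl μ →
    ∀ a b, ∑ i, M i a b = η a * η b → ∀ v w, cl v = a → cl w = b → ∃ i, μ i v = w

/-- DST (200 lines). Distribution of the totals `Y a b` (`a ≠ b`) among the `k` colours, with the right parity. The sizes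
`η a` and the totals are even. If `C` is empty: trivial. Fix `s : C`. `B i a b = Y a b / k + (if i < Y a b % k then 1 else 0)`
for `a ≠ b`: symmetric, `≥ 1`, `∑ i, B i a b = Y a b`. For `a ≠ s` let `F a = {i | ∑_{b ≠ a} B i a b is odd}`;
`∑ i, ∑_{b ≠ a} B i a b = ∑_{b ≠ a} Y a b` is even, so `|F a|` is even; choose `P a ⊆ F a` with `2 |P a| = |F a|`
(`Finset.exists_subset_card_eq`). `M i a s = M i s a = B i a s + 1` for `i ∈ P a`, `B i a s - 1` for `i ∈ F a \ P a`,
`B i a s` otherwise; `M i a b = B i a b` for the other pairs. Then `∑ i, M i a b = Y a b`; `∑_{b ≠ a} M i a b` is even for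
`a ≠ s`, and also for `a = s` because `∑_{a ≠ s} ∑_{b ≠ a} M i a b = ∑_{a ≠ s} M i a s + 2 (…)`. Put
`M i a a = η a - ∑_{b ≠ a} M i a b`: it is even, and `∑_{b ≠ a} M i a b ≤ ∑_{b ≠ a} (Y a b / k + 2) ≤ η a` by the
hypothesis (multiply by `k`). `diag`: `∑ i, M i a a = k η a - ∑_{b ≠ a} Y a b`. -/
def Stmt_DST : Prop :=
  ∀ (C : Type) [Fintype C] [DecidableEq C] (k : ℕ) (η : C → ℕ) (Y : C → C → ℕ), 0 < k →
    (∀ a, 1 ≤ η a) → (∀ a, Even (η a)) → (∀ a b, Y a b = Y b a) → (∀ a b, a ≠ b → Even (Y a b)) →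
    (∀ a b, a ≠ b → k ≤ Y a b) → (∀ a b, a ≠ b → Y a b ≤ η a * η b) →
    (∀ a, ∑ b ∈ univ.erase a, Y a b + 2 * k * Fintype.card C ≤ k * η a) →
    (∀ a, k * η a ≤ ∑ b ∈ univ.erase a, Y a b + η a * (η a - 1)) →
    ∃ M : Fin k → C → C → ℕ, Outline k η M ∧ ∀ a b, a ≠ b → ∑ i, M i a b = Y a b

/-! ### Factorizations from matchings -/

/-- number of the vertices whose type contains `x` -/
def PP {ι : Type} [Fintype ι] {q : ℕ} (T : ι → Finset (Fin q)) (η : ι → ℕ) (x : Fin q) : ℕ :=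
  ∑ s, if x ∈ T s then η s else 0

/-- EVG (180 lines; uses DET CVR). `V, cl, μ` from DET, `|V| = ∑ η = n`. Call `{v, w}`, `v ≠ w`, unused if `μ i v ≠ w` for
all `i`. For unused `{v, w}` the set `T (cl v) ∩ T (cl w)` is nonempty (`cl v = cl w`: `ne`; otherwise CVR and the last
hypothesis); `el v w` = its least element (symmetric). `G i` (`i : Fin k`): `v ≠ w` and (`μ i v = w`, or `{v, w}` is unused and
`(el v w).val = i.val`). `IsFactorization.of_adj`. For `i.val ≥ q` the only neighbour of `v` is `μ i v`: `n ≤ gammaT`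
(`card_le_gammaT` with `f = id`, `g = μ i`). For `i.val = x.val`, `x : Fin q`: the vertices `v` with `x ∉ T (cl v)` have the only
neighbour `μ i v`: `n - PP x ≤ gammaT` (`card_le_gammaT` for this subtype). Then `le_P`. -/
def Stmt_EVG : Prop :=
  ∀ (ι : Type) [Fintype ι] [DecidableEq ι] (q k : ℕ) (T : ι → Finset (Fin q)) (η : ι → ℕ)
    (M : Fin k → ι → ι → ℕ), q ≤ k → (∀ s, (T s).Nonempty) → Outline k η M →
    (∀ s t, s ≠ t → Disjoint (T s) (T t) → ∑ i, M i s t = η s * η t) →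
    (∑ s, η s) ^ (k - q) * ∏ x : Fin q, (∑ s, η s - PP T η x) ≤ P (∑ s, η s) k

/-- HAL (100 lines). `k` perfect matchings without common edges on `V`, `k + 3 ≤ |V|`, `y0 : V`. Every vertex
`x i = μ i y0` has `|V| - 1 - k ≥ 2` unused neighbours `w` (`w ≠ x i`, `μ j (x i) ≠ w` for all `j`). Hall
(`Finset.all_card_le_biUnion_card_iff_exists_injective`) for `t i = {s(x i, w) : w unused neighbour of x i} ⊆ Sym2 V`: for a
set `I` of indices `2 |I| ≤ ∑_{i ∈ I} |t i| ≤ 2 |⋃ t i|` because the `x i` are different (`dis`) and an element of `Sym2 V`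
contains at most two of them. So there are different pairs `s(x i, z i)`. -/
def Stmt_HAL : Prop :=
  ∀ (V : Type) [Fintype V] [DecidableEq V] (k : ℕ) (μ : Fin k → V → V) (y0 : V),
    (∀ i v, μ i (μ i v) = v) → (∀ i v, μ i v ≠ v) → (∀ i j v, μ i v = μ j v → i = j) →
    k + 3 ≤ Fintype.card V →
    ∃ z : Fin k → V, (∀ i, z i ≠ μ i y0) ∧ (∀ i j, μ j (μ i y0) ≠ z i) ∧
      Function.Injective (fun i => s(μ i y0, z i))

/-- ODG (250 lines; uses DET CVR HAL; model `Stmt_ODD2`, file `ODD2.lean` in MP_1ce445_lin). `n' = ∑ η`, `V, cl, μ` from DET,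
delete one vertex `y0`: `W = {v // v ≠ y0}`, `n = n' - 1`. `x i = μ i y0`, `z i` from HAL; `z i ≠ y0` because `μ i (x i) = y0`.
`G i`: `v ≠ w` and (`μ i v = w`, or `s(v, w) = s(x i, z i)`, or: `{v, w}` is unused, `s(v, w) ≠ s(x j, z j)` for all `j`, and
`(el v w).val = i.val`). `IsFactorization.of_adj`; `minDeg`: `μ i v` for `v ≠ x i`, and `z i` for `v = x i`. For `i.val ≥ q`:
`GAM_sub_one` (in MP_1ce445_lin/GAM.lean) with `x0 = z i`, `v = x i`: `n ≤ gammaT + 1`, so `n' - 2 ≤ gammaT`. For `i.val = x.val`: the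
vertices `v ∈ W`, `v ≠ x i`, `v ≠ z i`, `x ∉ T (cl v)` have the only neighbour `μ i v`: at least `n' - PP x - 3` vertices. -/
def Stmt_ODG : Prop :=
  ∀ (ι : Type) [Fintype ι] [DecidableEq ι] (q k : ℕ) (T : ι → Finset (Fin q)) (η : ι → ℕ)
    (M : Fin k → ι → ι → ℕ), q ≤ k → k + 3 ≤ ∑ s, η s → (∀ s, (T s).Nonempty) → Outline k η M →
    (∀ s t, s ≠ t → Disjoint (T s) (T t) → ∑ i, M i s t = η s * η t) →
    (∑ s, η s - 2) ^ (k - q) * ∏ x : Fin q, (∑ s, η s - PP T η x - 3) ≤ P (∑ s, η s - 1) k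

/-! ### Type systems -/

/-- A type system: types `T s` with weights `w s`, elements `Fin q`, and a symmetric weighted graph `x` between
intersecting types, `D`-regular. -/
structure TSys (ι : Type) [Fintype ι] [DecidableEq ι] (q : ℕ) (D : ℝ) where
  T : ι → Finset (Fin q)
  w : ι → ℝ
  x : ι → ι → ℝ
  ne : ∀ s, (T s).Nonempty
  w_pos : ∀ s, 0 < w s
  w_sum : ∑ s, w s = 1
  symm : ∀ s t, x s t = x t s
  nonneg : ∀ s t, 0 ≤ x s t
  le : ∀ s t, x s t ≤ w s * w t
  zero : ∀ s t, Disjoint (T s) (T t) → x s t = 0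
  row : ∀ s, ∑ t, x s t = D * w s

/-- the frequency of an element -/
def TSys.p {ι : Type} [Fintype ι] [DecidableEq ι] {q : ℕ} {D : ℝ} (S : TSys ι q D) (a : Fin q) : ℝ :=
  ∑ s, if a ∈ S.T s then S.w s else 0

/-- the value of a type system -/
def TSys.val {ι : Type} [Fintype ι] [DecidableEq ι] {q : ℕ} {D : ℝ} (S : TSys ι q D) : ℝ :=
  ∏ a : Fin q, (1 - S.p a)

/-- strict systems: some but not all pairs inside each class are in the graph -/
def TSys.Strict {ι : Type} [Fintype ι] [DecidableEq ι] {q : ℕ} {D : ℝ} (S : TSys ι q D) : Prop :=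
  ∀ s, 0 < S.x s s ∧ S.x s s < S.w s * S.w s

/-- SIZ (250 lines; uses DST). Rounding. `c = 1 - D`, `y s t = w s w t - x s t` (so `∑ t, y s t = c w s`), `0 < y s s < w s ^ 2`
(`Strict`), `0 < c < 1`. Choose `δ ≤ c / 2` with `δ w s ≤ min (y s s) (w s ^ 2 - y s s) / 4` for all `s`. Let `n` be large and
even, `|k - c n| ≤ δ n`. Fix `s0 : ι`. Sizes: `η s = 2 ⌊w s n / 2⌋` for `s ≠ s0`, `η s0 = n - ∑_{s ≠ s0} η s`: even,
`|η s - w s n| ≤ 2 |ι| ≤ K`. Totals for `s ≠ t`: `Y s t = η s η t` if `T s`, `T t` are disjoint, otherwise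
`Y s t = min (η s η t) (2 ⌊y s t n ^ 2 / 2⌋ + 2 k)`: even, symmetric, `k ≤ Y s t ≤ η s η t`, `|Y s t - y s t n ^ 2| ≤ K' n`
(as `y s t ≤ w s w t`, with equality for disjoint types). Then `k η s - ∑_{t ≠ s} Y s t` differs from
`c w s n ^ 2 - ∑_{t ≠ s} y s t n ^ 2 = y s s n ^ 2` by at most `δ w s n ^ 2 + K'' n`, so it lies between `y s s n ^ 2 / 2` and
`(w s ^ 2 + y s s) n ^ 2 / 2`, hence between `2 k |ι|` and `η s (η s - 1)` for large `n`: the last two hypotheses of DST. -/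
def Stmt_SIZ : Prop :=
  ∀ (ι : Type) [Fintype ι] [DecidableEq ι] (q : ℕ) (D : ℝ) (S : TSys ι q D), S.Strict →
    ∃ (δ K : ℝ) (n0 : ℕ), 0 < δ ∧ 0 ≤ K ∧ ∀ n k : ℕ, n0 ≤ n → Even n → |(k : ℝ) - (1 - D) * n| ≤ δ * n →
      ∃ (η : ι → ℕ) (M : Fin k → ι → ι → ℕ), Outline k η M ∧ ∑ s, η s = n ∧
        (∀ s, |(η s : ℝ) - S.w s * n| ≤ K) ∧
        ∀ s t, s ≠ t → Disjoint (S.T s) (S.T t) → ∑ i, M i s t = η s * η t

/-- ASY (200 lines; uses SIZ EVG ODG). Strict systems. `0 < D < 1` (`∑ t, x s t ≤ w s`, with a strict inequality for the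
diagonal). `n` even: SIZ, EVG: `P n k ≥ n ^ (k - q) ∏ (n - PP x)`, `PP x ≤ p x n + |ι| K`, so
`P n k ≥ n ^ k ∏ (1 - p x - |ι| K / n) ≥ (val - ε) n ^ k` for large `n`, `NN n = n`. (Each `1 - p x ≥ 0`; if
`1 - p x - |ι| K / n < 0` truncated subtraction gives `0`: use `max 0`.) `n` odd: `n' = n + 1`, ODG: `P n k ≥
(n' - 2) ^ (k - q) ∏ (n' - PP x - 3)`, `NN n = n - 1 = n' - 2`. `|k - c n'| ≤ δ n' / 1` follows from `|k - c n| ≤ δ n / 2` and
large `n`; `q ≤ k`, `k + 3 ≤ n'` as `δ < c`, `c + δ < 1` without loss. -/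
def Stmt_ASY : Prop :=
  ∀ (ι : Type) [Fintype ι] [DecidableEq ι] (q : ℕ) (D : ℝ) (S : TSys ι q D), S.Strict →
    ∀ ε : ℝ, 0 < ε → ∃ (δ : ℝ) (n0 : ℕ), 0 < δ ∧ ∀ n k : ℕ, n0 ≤ n → |(k : ℝ) - (1 - D) * n| ≤ δ * n →
      (S.val - ε) * (NN n : ℝ) ^ k ≤ (P n k : ℝ)

/-- PER (250 lines). Every type system with `0 < D < 1` can be approximated by strict ones, with the same `D` or any smaller
`D'`. First (scaling) `x' = x D' / D` is a type system for `D'`; so let `D' = D`. New index set `Option ι`, `none` = universal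
type `univ` (`q ≥ 1` because the types are not empty), weights `e` and `(1 - e) w s`. `0 < e < 1 / 2`, `0 < θ < D e ^ 2 / 4`,
`θ ≤ e (1 - D) / 2`. `A s t = (1 - θ) x s t + [s = t] θ D (w s) ^ 2`, row sums `D_s w s`, `D_s = D (1 - θ (1 - w s))`.
`x' (some s) (some t) = (1 - e) ^ 2 A s t`, `x' (some s) none = (1 - e) w s e β s`, `β s = (D - (1 - e) D_s) / e =
D_s + (D - D_s) / e ∈ (0, 1)`, `x' none none = e (D - (1 - e) β)`, `β = ∑ w s β s = (D - (1 - e) D1) / e`, `D1 = ∑ w s D_s ∈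
[D (1 - θ), D]`; `D - (1 - e) β = ((1 - e) ^ 2 D1 - (1 - 2 e) D) / e = D1 e - (1 - 2 e) (D - D1) / e ∈ (0, e)` as
`D - D1 ≤ D θ`. Rows are `D`-regular. Strict: `0 < (1 - e) ^ 2 θ D (w s) ^ 2 ≤ x' s s < (1 - e) ^ 2 (w s) ^ 2`.
Value: `1 - p' a = (1 - e) (1 - p a)`, so `val' = (1 - e) ^ q val ≥ val - q e` (`0 ≤ val ≤ 1`). -/
def Stmt_PER : Prop :=
  ∀ (ι : Type) [Fintype ι] [DecidableEq ι] (q : ℕ) (D D' ε : ℝ) (S : TSys ι q D), 0 < D' → D' ≤ D → D < 1 → 0 < ε →
    ∃ S' : TSys (Option ι) q D', S'.Strict ∧ S.val - ε ≤ S'.val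

/-- GEN (30 lines; uses ASY PER): the lower bound for an arbitrary type system, for all `k / n` near any `c ≥ 1 - D`. -/
def Stmt_GEN : Prop :=
  ∀ (ι : Type) [Fintype ι] [DecidableEq ι] (q : ℕ) (D c : ℝ) (S : TSys ι q D), D < 1 → 1 - D ≤ c → c < 1 →
    ∀ ε : ℝ, 0 < ε → ∃ (δ : ℝ) (n0 : ℕ), 0 < δ ∧ ∀ n k : ℕ, n0 ≤ n → |(k : ℝ) - c * n| ≤ δ * n →
      (S.val - ε) * (NN n : ℝ) ^ k ≤ (P n k : ℝ)

/-- UNI (150 lines; uses GEN): uniformity on an interval. `f` continuous on `[a, b]`, `0 < a`, `b < 1`, and for every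
`c ∈ [a, b]` and `ε > 0` there is a type system for some `D ≥ 1 - c`, `D < 1`, with value at least `f c - ε`. Compactness of
`[a, b]` (`isCompact_Icc.elim_nhds_subcover` or `elim_finite_subcover`): for every `c` there are `δ`, `n0` from GEN (for `ε / 3`,
system with value `≥ f c - ε / 3`), and `δ' ≤ δ` with `|f c' - f c| ≤ ε / 3` for `|c' - c| < δ'` in `[a, b]`; finitely many of
the intervals cover `[a, b]`, `k / n` is in one of them, `n0` = maximum (and `n ≥ 1`). -/
def Stmt_UNI : Prop :=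
  ∀ (a b : ℝ) (f : ℝ → ℝ), 0 < a → b < 1 → ContinuousOn f (Set.Icc a b) →
    (∀ c ∈ Set.Icc a b, ∀ ε : ℝ, 0 < ε → ∃ (ι : Type) (_ : Fintype ι) (_ : DecidableEq ι) (q : ℕ) (D : ℝ)
      (S : TSys ι q D), D < 1 ∧ 1 - D ≤ c ∧ f c - ε ≤ S.val) →
    ∀ ε : ℝ, 0 < ε → ∃ n0 : ℕ, ∀ n k : ℕ, n0 ≤ n → a * n ≤ k → (k : ℝ) ≤ b * n →
      (f ((k : ℝ) / n) - ε) * (NN n : ℝ) ^ k ≤ (P n k : ℝ)

end Pool.Agent.Work.MP_1ce445_low
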