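import Pool.Agent.Work.MP_1ce445_low.Interface

/-!
Explicit type systems for the general lower bound (MP_1ce445_co). Blocks: EQM A27 SQ K4A K4 PH HUB HUB2.
All proofs: write down the weights, check the rows. Suggested index types: `Fin 6 ⊕ Fin 4` or `Fin n` with tables, sums by
`Fin.sum_univ_succ` / `Fintype.sum_sum_type`, disjointness by `decide`.
-/

namespace Pool.Agent.Work.MP_1ce445_low

open Finset Pool.Agent.Work.MP_1ce445_co_56 Pool.Agent.Work.MP_1ce445_lin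

/-- `v` is the value of a type system with parameter `D` -/
def HasVal (D v : ℝ) : Prop :=
  ∃ (ι : Type) (_ : Fintype ι) (_ : DecidableEq ι) (q : ℕ) (S : TSys ι q D), S.val = v

/-- EQM (60 lines): `m` types `{j}` of weight `1 / m`, `D = 1 / m`, `x s s = (1 / m) ^ 2`, `x s t = 0` for `s ≠ t`. -/
def Stmt_EQM : Prop := ∀ m : ℕ, 2 ≤ m → HasVal (1 / (m : ℝ)) ((1 - 1 / (m : ℝ)) ^ m)

/-- A27 (60 lines): types `{0,1}, {0,2}, {1,2}` of weight `1 / 3`, `x s t = D / 9` for all `s, t`; `p = 2 / 3`. -/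
def Stmt_A27 : Prop := ∀ D : ℝ, 0 < D → D < 1 → HasVal D (1 / 27)

/-- SQ (80 lines): types `{0}` and `{1}` of weight `c`, `{0,1}` of weight `1 - 2c`, `D = 1 - c`; `x` full between `{i}` and
`{i}`, `{i}` and `{0,1}`; `x = (1 - 3c)(1 - 2c)` inside `{0,1}`. `1 - p = c` for both elements. -/
def Stmt_SQ : Prop := ∀ c : ℝ, 0 < c → c ≤ 1 / 3 → HasVal (1 - c) (c ^ 2)

/-- K4A (80 lines): the six 2-sets of `Fin 4` with weight `1 / 6`, `D = 5 / 6`, `x s t = 1 / 36` if `s`, `t` intersect;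
`p = 1 / 2`. -/
def Stmt_K4A : Prop := HasVal (5 / 6) (1 / 16)

/-- K4 (200 lines): the six 2-sets of `Fin 4` with weight `x`, the four 3-sets with weight `(1 - 6x)/4`. Graph: full between
intersecting 2-sets; between 2-sets and 3-sets (they always intersect) the constant density `ξ = (D - 5x)/(1 - 6x)`;
between 3-sets the constant density `κ = (D - 6xξ)/(1 - 6x)`. Rows: `5x + ξ(1 - 6x) = D`, `6xξ + κ(1 - 6x) = D`.
`0 ≤ ξ ≤ 1` since `5x ≤ D` and `x ≤ 1 - D`. `0 ≤ κ` is the last hypothesis; `κ ≤ 1`: `6x(1 - ξ) ≤ 1 - D`, that is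
`6x(c - x) ≤ c(1 - 6x)` with `c = 1 - D`, `12xc - 6x² ≤ c`, true because `6x(2c - x) ≤ 6c² ≤ c` (`c ≤ 1/6`).
`p = 3x + 3(1 - 6x)/4`, `1 - p = 1/4 + 3x/2`. -/
def Stmt_K4 : Prop := ∀ x D : ℝ, 0 < x → x < 1 / 6 → 5 / 6 ≤ D → D < 1 → x ≤ 1 - D →
  6 * x * (D - 5 * x) ≤ (1 - 6 * x) * D → HasVal D ((1 / 4 + 3 * x / 2) ^ 4)

/-- PH (180 lines): elements `a, b, c', d'` (`Fin 4`), `D = 1 - c`; types `{a,b}` of weight `1/2 - c`; `{a,c'}, {a,d'},
{b,c'}, {b,d'}` of weight `c` (outer types); `{a,c',d'}, {b,c',d'}` of weight `(1 - 6c)/4`. Graph: full between an outer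
type and every type which meets it (an outer type is disjoint from exactly one type, an outer one of weight `c`: row
`1 - c`); between the three other types (they meet each other, total weight `1 - 4c`) the constant density
`(1 - 5c)/(1 - 4c)`: row `4c + 1 - 5c`. `1 - p a = 1/4 + c/2` (two elements), `1 - p c' = 1/2 + c` (two elements):
product `(1 + 2c)^4/64`. -/
def Stmt_PH : Prop := ∀ c : ℝ, 0 < c → c < 1 / 6 → HasVal (1 - c) ((1 + 2 * c) ^ 4 / 64)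

/-- HUB (200 lines): `δ = (m+1)D - 1`, `D - δ = 1 - mD`, `z = √(δ (D - δ))`, `δ ≤ z` (`δ ≤ D/2`), `z ≤ D/2 < D`. Index type
`Fin (m - 1) ⊕ Fin 3`, elements `Fin (m + 1)`: types `{0}` of weight `D - δ`, `{1}` of weight `D - z`, `{0,1}` of weight
`z`, `{j + 2}` of weight `D` for `j : Fin (m - 1)`; total `(m+1)D - δ = 1`. Graph: full inside each of the singleton types;
`x {1} {0,1} = (D - z) z` (full), `x {0} {0,1} = (D - δ) δ` (`≤ (D - δ) z`), `x {0,1} {0,1} = 0`. Rows: `{0}`: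
`(D - δ)² + (D - δ) δ = D (D - δ)`; `{1}`: `(D - z)² + (D - z) z`; `{0,1}`: `(D - δ) δ + (D - z) z = z² + (D - z) z = D z`.
`1 - p 0 = 1 - (D - δ + z) = mD - z`, `1 - p = 1 - D` for the `m` other elements. -/
def Stmt_HUB : Prop := ∀ (m : ℕ) (D : ℝ), 1 ≤ m → D < 1 → 0 < ((m : ℝ) + 1) * D - 1 → ((m : ℝ) + 1) * D - 1 ≤ D / 2 →
  HasVal D ((1 - D) ^ m * (m * D - √((((m : ℝ) + 1) * D - 1) * (1 - m * D))))

/-- HUB2 (220 lines): `δ = (m+1)D - 1`, `z = √(δ D - δ²/m)`, `δ ≤ z < D`. Index type `Option (Fin m × Bool)`, elements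
`Fin (m + 1)`: `{0}` of weight `D - z`, `{i+1}` of weight `D - δ/m` and `{0,i+1}` of weight `z/m` for `i : Fin m`. Graph:
full inside `{0}`, inside `{i+1}`, between `{0}` and `{0,i+1}`; `x {i+1} {0,i+1} = (D - δ/m) δ/m`; nothing else. Rows:
`{0}`: `D - z + z`; `{i+1}`: `D - δ/m + δ/m`; `{0,i+1}`: `(D - z) z/m + (D - δ/m) δ/m = D z/m` as `z² = δ D - δ²/m`.
`1 - p 0 = 1 - D`, `1 - p (i+1) = 1 - D - (z - δ)/m`. -/
def Stmt_HUB2 : Prop := ∀ (m : ℕ) (D : ℝ), 1 ≤ m → D < 1 → 0 < ((m : ℝ) + 1) * D - 1 → ((m : ℝ) + 1) * D - 1 ≤ D / 2 →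
  HasVal D ((1 - D) * (1 - D - (√((((m : ℝ) + 1) * D - 1) * D - (((m : ℝ) + 1) * D - 1) ^ 2 / m) -
    (((m : ℝ) + 1) * D - 1)) / m) ^ m)

end Pool.Agent.Work.MP_1ce445_low
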