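import Pool.Agent.Work.MP_1ce445_low.Interface

/-!
Block PER: approximation of a type system by strict ones.
-/

namespace Pool.Agent.Work.MP_1ce445_low

open Finset Pool.Agent.Work.MP_1ce445_co_56 Pool.Agent.Work.MP_1ce445_lin

section PER

variable {ι : Type} [Fintype ι] [DecidableEq ι] {q : ℕ} {D : ℝ}

theorem PER_p_nonneg (S : TSys ι q D) (a : Fin q) : 0 ≤ S.p a := by
  unfold TSys.p
  refine Finset.sum_nonneg fun s _ => ?_
  split_ifs
  · exact (S.w_pos s).le
  · exact le_rfl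

theorem PER_p_le (S : TSys ι q D) (a : Fin q) : S.p a ≤ 1 := by
  rw [← S.w_sum]
  unfold TSys.p
  refine Finset.sum_le_sum fun s _ => ?_
  split_ifs
  · exact le_rfl
  · exact (S.w_pos s).le

theorem PER_val_nonneg (S : TSys ι q D) : 0 ≤ S.val :=
  Finset.prod_nonneg fun a _ => sub_nonneg.2 (PER_p_le S a)

theorem PER_val_le (S : TSys ι q D) : S.val ≤ 1 := by
  unfold TSys.val
  refine Finset.prod_le_one (fun a _ => sub_nonneg.2 (PER_p_le S a)) fun a _ => ?_
  have := PER_p_nonneg S a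
  linarith

/-- the types of the strict system -/
def PER_T (T : ι → Finset (Fin q)) : Option ι → Finset (Fin q)
  | none => univ
  | some s => T s

/-- the weights of the strict system -/
noncomputable def PER_w (e : ℝ) (w : ι → ℝ) : Option ι → ℝ
  | none => e
  | some s => (1 - e) * w s

/-- the graph between the old types -/
noncomputable def PER_A (D θ : ℝ) (w : ι → ℝ) (x : ι → ι → ℝ) (s t : ι) : ℝ :=
  (1 - θ) * x s t + (if s = t then θ * D * (w s) ^ 2 else 0)

/-- the row sums of `PER_A`, divided by the weights -/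
noncomputable def PER_D (D θ : ℝ) (w : ι → ℝ) (s : ι) : ℝ := D * (1 - θ * (1 - w s))

/-- the densities to the new type -/
noncomputable def PER_b (D e θ : ℝ) (w : ι → ℝ) (s : ι) : ℝ := (D - (1 - e) * PER_D D θ w s) / e

/-- the graph of the strict system -/
noncomputable def PER_x (D e θ : ℝ) (w : ι → ℝ) (x : ι → ι → ℝ) : Option ι → Option ι → ℝ
  | some s, some t => (1 - e) ^ 2 * PER_A D θ w x s t
  | some s, none => (1 - e) * w s * e * PER_b D e θ w s
  | none, some s => (1 - e) * w s * e * PER_b D e θ w s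
  | none, none => e * (D - (1 - e) * ∑ s, w s * PER_b D e θ w s)

theorem PER_w_le (S : TSys ι q D) (s : ι) : S.w s ≤ 1 := by
  rw [← S.w_sum]
  exact Finset.single_le_sum (f := S.w) (fun t _ => (S.w_pos t).le) (Finset.mem_univ s)

theorem PER_D_bd (S : TSys ι q D) (hD0 : 0 < D) {θ : ℝ} (hθ : 0 < θ) (s : ι) :
    D * (1 - θ) ≤ PER_D D θ S.w s ∧ PER_D D θ S.w s ≤ D := by
  have h0 := S.w_pos s
  have h1 := PER_w_le S s
  unfold PER_D
  constructor
  · apply mul_le_mul_of_nonneg_left _ hD0.le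
    nlinarith
  · have : 0 ≤ D * (θ * (1 - S.w s)) := mul_nonneg hD0.le (mul_nonneg hθ.le (by linarith))
    nlinarith

theorem PER_A_row (S : TSys ι q D) (θ : ℝ) (s : ι) :
    ∑ t, PER_A D θ S.w S.x s t = S.w s * PER_D D θ S.w s := by
  unfold PER_A PER_D
  rw [Finset.sum_add_distrib, ← Finset.mul_sum, S.row s, Finset.sum_ite_eq]
  simp only [Finset.mem_univ, if_true]
  ring

theorem PER_A_nonneg (S : TSys ι q D) (hD0 : 0 < D) {θ : ℝ} (hθ : 0 < θ) (hθ1 : θ < 1) (s t : ι) :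
    0 ≤ PER_A D θ S.w S.x s t := by
  unfold PER_A
  have h1 : 0 ≤ (1 - θ) * S.x s t := mul_nonneg (by linarith) (S.nonneg s t)
  split_ifs
  · have : 0 ≤ θ * D * (S.w s) ^ 2 := by positivity
    linarith
  · linarith

theorem PER_A_diag (S : TSys ι q D) (hD0 : 0 < D) (hD1 : D < 1) {θ : ℝ} (hθ : 0 < θ) (hθ1 : θ < 1)
    (s : ι) : 0 < PER_A D θ S.w S.x s s ∧ PER_A D θ S.w S.x s s < S.w s * S.w s := by
  have hw := S.w_pos s
  have hn := S.nonneg s s
  have hl := S.le s s
  have e1 : PER_A D θ S.w S.x s s = (1 - θ) * S.x s s + θ * D * (S.w s) ^ 2 := by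
    unfold PER_A
    rw [if_pos rfl]
  have hw2 : 0 < (S.w s) ^ 2 := by positivity
  rw [e1]
  constructor
  · have h1 : 0 ≤ (1 - θ) * S.x s s := mul_nonneg (by linarith) hn
    have h2 : 0 < θ * D * (S.w s) ^ 2 := by positivity
    linarith
  · have h1 : (1 - θ) * S.x s s ≤ (1 - θ) * (S.w s * S.w s) :=
      mul_le_mul_of_nonneg_left hl (by linarith)
    have h2 : θ * D * (S.w s) ^ 2 < θ * (S.w s) ^ 2 := by
      have : θ * D < θ * 1 := mul_lt_mul_of_pos_left hD1 hθ
      nlinarith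
    nlinarith

theorem PER_A_le (S : TSys ι q D) (hD0 : 0 < D) (hD1 : D < 1) {θ : ℝ} (hθ : 0 < θ) (hθ1 : θ < 1)
    (s t : ι) : PER_A D θ S.w S.x s t ≤ S.w s * S.w t := by
  by_cases h : s = t
  · subst h
    exact (PER_A_diag S hD0 hD1 hθ hθ1 s).2.le
  · unfold PER_A
    rw [if_neg h, add_zero]
    have h1 := S.le s t
    have h2 := S.nonneg s t
    have h3 : (1 - θ) * S.x s t ≤ 1 * S.x s t := mul_le_mul_of_nonneg_right (by linarith) h2
    linarith

theorem PER_A_symm (S : TSys ι q D) (θ : ℝ) (s t : ι) :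
    PER_A D θ S.w S.x s t = PER_A D θ S.w S.x t s := by
  by_cases h : s = t
  · subst h; rfl
  · unfold PER_A
    rw [if_neg h, if_neg (fun h' => h h'.symm), S.symm s t]

theorem PER_b_bd (S : TSys ι q D) (hD0 : 0 < D) (hD1 : D < 1) {e θ : ℝ} (he : 0 < e) (he1 : e < 1)
    (hθ : 0 < θ) (_hθ1 : θ < 1) (hθ2 : θ ≤ e * (1 - D) / 2) (s : ι) :
    0 < PER_b D e θ S.w s ∧ PER_b D e θ S.w s < 1 := by
  obtain ⟨h1, h2⟩ := PER_D_bd S hD0 hθ s
  unfold PER_b
  constructor
  · apply div_pos _ he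
    have h3 : (1 - e) * PER_D D θ S.w s ≤ (1 - e) * D := mul_le_mul_of_nonneg_left h2 (by linarith)
    nlinarith
  · rw [div_lt_one he]
    have h3 : (1 - e) * (D * (1 - θ)) ≤ (1 - e) * PER_D D θ S.w s :=
      mul_le_mul_of_nonneg_left h1 (by linarith)
    have h4 : (1 - e) * (D * θ) ≤ 1 * (1 * θ) := by
      apply mul_le_mul (by linarith) _ (by positivity) (by norm_num)
      exact mul_le_mul_of_nonneg_right hD1.le hθ.le
    nlinarith

theorem PER_B_bd (S : TSys ι q D) (hD0 : 0 < D) (hD1 : D < 1) {e θ : ℝ} (he : 0 < e) (he1 : e < 1)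
    (hθ : 0 < θ) (hθ3 : θ < e ^ 2) :
    0 < e * (D - (1 - e) * ∑ s, S.w s * PER_b D e θ S.w s) ∧
      e * (D - (1 - e) * ∑ s, S.w s * PER_b D e θ S.w s) < e * e := by
  obtain ⟨B, hB⟩ : ∃ B, B = ∑ s, S.w s * PER_b D e θ S.w s := ⟨_, rfl⟩
  obtain ⟨D1, hD⟩ : ∃ D1, D1 = ∑ s, S.w s * PER_D D θ S.w s := ⟨_, rfl⟩
  have heB : e * B = D - (1 - e) * D1 := by
    rw [hB, hD, Finset.mul_sum, Finset.mul_sum]
    have h1 : ∀ s, e * (S.w s * PER_b D e θ S.w s) =
        D * S.w s - (1 - e) * (S.w s * PER_D D θ S.w s) := by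
      intro s
      unfold PER_b
      field_simp
    rw [Finset.sum_congr rfl fun s _ => h1 s, Finset.sum_sub_distrib, ← Finset.mul_sum, S.w_sum,
      mul_one]
  have hlo : D * (1 - θ) ≤ D1 := by
    have : ∑ s, S.w s * (D * (1 - θ)) ≤ ∑ s, S.w s * PER_D D θ S.w s :=
      Finset.sum_le_sum fun s _ => mul_le_mul_of_nonneg_left (PER_D_bd S hD0 hθ s).1 (S.w_pos s).le
    rw [← Finset.sum_mul, S.w_sum, one_mul, ← hD] at this
    exact this
  have hhi : D1 ≤ D := by
    have : ∑ s, S.w s * PER_D D θ S.w s ≤ ∑ s, S.w s * D :=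
      Finset.sum_le_sum fun s _ => mul_le_mul_of_nonneg_left (PER_D_bd S hD0 hθ s).2 (S.w_pos s).le
    rw [← Finset.sum_mul, S.w_sum, one_mul, ← hD] at this
    exact this
  rw [← hB]
  have hkey : e * (D - (1 - e) * B) = e ^ 2 * D - (1 - e) ^ 2 * (D - D1) := by
    have : e * (D - (1 - e) * B) = e * D - (1 - e) * (e * B) := by ring
    rw [this, heB]
    ring
  have hsq : (1 - e) ^ 2 ≤ 1 := by nlinarith
  have hsq0 : 0 ≤ (1 - e) ^ 2 := by positivity
  have hμ0 : 0 ≤ D - D1 := by linarith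
  have hμ1 : D - D1 ≤ D * θ := by linarith
  have h5 : (1 - e) ^ 2 * (D - D1) ≤ 1 * (D * θ) := mul_le_mul hsq hμ1 hμ0 (by norm_num)
  have h6 : D * θ < D * e ^ 2 := mul_lt_mul_of_pos_left hθ3 hD0
  have h7 : 0 ≤ (1 - e) ^ 2 * (D - D1) := mul_nonneg hsq0 hμ0
  have h8 : e ^ 2 * D < e ^ 2 * 1 := mul_lt_mul_of_pos_left hD1 (by positivity)
  rw [hkey]
  constructor <;> nlinarith

theorem PER_core (S : TSys ι q D) (hD0 : 0 < D) (hD1 : D < 1) {e θ : ℝ} (he : 0 < e) (he1 : e < 1)
    (hθ : 0 < θ) (hθ1 : θ < 1) (hθ2 : θ ≤ e * (1 - D) / 2) (hθ3 : θ < e ^ 2) :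
    ∃ S' : TSys (Option ι) q D, S'.Strict ∧ S'.val = (1 - e) ^ q * S.val := by
  have hι : Nonempty ι := by
    by_contra h
    rw [not_nonempty_iff] at h
    have := S.w_sum
    rw [Finset.univ_eq_empty, Finset.sum_empty] at this
    exact zero_ne_one this
  obtain ⟨s0⟩ := hι
  obtain ⟨a0, -⟩ := S.ne s0
  have huniv : (univ : Finset (Fin q)).Nonempty := ⟨a0, mem_univ a0⟩
  have he' : 0 < 1 - e := by linarith
  have hb := PER_b_bd S hD0 hD1 he he1 hθ hθ1 hθ2
  have hB := PER_B_bd S hD0 hD1 he he1 hθ hθ3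
  refine ⟨{
    T := PER_T S.T
    w := PER_w e S.w
    x := PER_x D e θ S.w S.x
    ne := ?_
    w_pos := ?_
    w_sum := ?_
    symm := ?_
    nonneg := ?_
    le := ?_
    zero := ?_
    row := ?_ }, ?_, ?_⟩
  · rintro (_ | s)
    · exact huniv
    · exact S.ne s
  · rintro (_ | s)
    · exact he
    · exact mul_pos he' (S.w_pos s)
  · rw [Fintype.sum_option]
    change e + ∑ s, (1 - e) * S.w s = 1
    rw [← Finset.mul_sum, S.w_sum]
    ring
  · rintro (_ | s) (_ | t)
    · rfl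
    · rfl
    · rfl
    · change (1 - e) ^ 2 * PER_A D θ S.w S.x s t = (1 - e) ^ 2 * PER_A D θ S.w S.x t s
      rw [PER_A_symm]
  · rintro (_ | s) (_ | t)
    · exact hB.1.le
    · exact mul_nonneg (mul_nonneg (mul_nonneg he'.le (S.w_pos t).le) he.le) (hb t).1.le
    · exact mul_nonneg (mul_nonneg (mul_nonneg he'.le (S.w_pos s).le) he.le) (hb s).1.le
    · exact mul_nonneg (by positivity) (PER_A_nonneg S hD0 hθ hθ1 s t)
  · rintro (_ | s) (_ | t)
    · exact hB.2.le
    · change (1 - e) * S.w t * e * PER_b D e θ S.w t ≤ e * ((1 - e) * S.w t)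
      have h1 : 0 ≤ (1 - e) * S.w t * e := mul_nonneg (mul_nonneg he'.le (S.w_pos t).le) he.le
      have h2 := mul_le_mul_of_nonneg_left (hb t).2.le h1
      linarith
    · change (1 - e) * S.w s * e * PER_b D e θ S.w s ≤ (1 - e) * S.w s * e
      have h1 : 0 ≤ (1 - e) * S.w s * e := mul_nonneg (mul_nonneg he'.le (S.w_pos s).le) he.le
      have h2 := mul_le_mul_of_nonneg_left (hb s).2.le h1
      linarith
    · change (1 - e) ^ 2 * PER_A D θ S.w S.x s t ≤ (1 - e) * S.w s * ((1 - e) * S.w t)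
      have h1 := mul_le_mul_of_nonneg_left (PER_A_le S hD0 hD1 hθ hθ1 s t)
        (show (0 : ℝ) ≤ (1 - e) ^ 2 by positivity)
      calc (1 - e) ^ 2 * PER_A D θ S.w S.x s t ≤ (1 - e) ^ 2 * (S.w s * S.w t) := h1
        _ = (1 - e) * S.w s * ((1 - e) * S.w t) := by ring
  · rintro (_ | s) (_ | t) h
    · exfalso
      have h' : Disjoint (univ : Finset (Fin q)) univ := h
      exact Finset.disjoint_left.1 h' (mem_univ a0) (mem_univ a0)
    · exfalso
      have h' : Disjoint (univ : Finset (Fin q)) (S.T t) := h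
      obtain ⟨a, ha⟩ := S.ne t
      exact Finset.disjoint_left.1 h' (mem_univ a) ha
    · exfalso
      have h' : Disjoint (S.T s) (univ : Finset (Fin q)) := h
      obtain ⟨a, ha⟩ := S.ne s
      exact Finset.disjoint_left.1 h' ha (mem_univ a)
    · have h' : Disjoint (S.T s) (S.T t) := h
      have hst : s ≠ t := by
        rintro rfl
        obtain ⟨a, ha⟩ := S.ne s
        exact Finset.disjoint_left.1 h' ha ha
      change (1 - e) ^ 2 * PER_A D θ S.w S.x s t = 0
      unfold PER_A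
      rw [if_neg hst, S.zero s t h']
      ring
  · rintro (_ | s)
    · rw [Fintype.sum_option]
      change e * (D - (1 - e) * ∑ s, S.w s * PER_b D e θ S.w s) +
        ∑ t, (1 - e) * S.w t * e * PER_b D e θ S.w t = D * e
      have h1 : ∑ t, (1 - e) * S.w t * e * PER_b D e θ S.w t =
          (1 - e) * e * ∑ s, S.w s * PER_b D e θ S.w s := by
        rw [Finset.mul_sum]
        exact Finset.sum_congr rfl fun t _ => by ring
      rw [h1]
      ring
    · rw [Fintype.sum_option]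
      change (1 - e) * S.w s * e * PER_b D e θ S.w s +
        ∑ t, (1 - e) ^ 2 * PER_A D θ S.w S.x s t = D * ((1 - e) * S.w s)
      rw [← Finset.mul_sum, PER_A_row S θ s]
      have h1 : e * PER_b D e θ S.w s = D - (1 - e) * PER_D D θ S.w s := by
        unfold PER_b
        field_simp
      have h2 : (1 - e) * S.w s * e * PER_b D e θ S.w s =
          (1 - e) * S.w s * (e * PER_b D e θ S.w s) := by ring
      rw [h2, h1]
      ring
  · rintro (_ | s)
    · exact hB
    · obtain ⟨h1, h2⟩ := PER_A_diag S hD0 hD1 hθ hθ1 s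
      change 0 < (1 - e) ^ 2 * PER_A D θ S.w S.x s s ∧
        (1 - e) ^ 2 * PER_A D θ S.w S.x s s < (1 - e) * S.w s * ((1 - e) * S.w s)
      have h3 : 0 < (1 - e) ^ 2 := by positivity
      refine ⟨mul_pos h3 h1, ?_⟩
      calc (1 - e) ^ 2 * PER_A D θ S.w S.x s s < (1 - e) ^ 2 * (S.w s * S.w s) :=
            mul_lt_mul_of_pos_left h2 h3
        _ = (1 - e) * S.w s * ((1 - e) * S.w s) := by ring
  · have hp : ∀ a : Fin q, 1 - ∑ s : Option ι, (if a ∈ PER_T S.T s then PER_w e S.w s else 0) =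
        (1 - e) * (1 - S.p a) := by
      intro a
      rw [Fintype.sum_option]
      change 1 - ((if a ∈ (univ : Finset (Fin q)) then e else 0) +
        ∑ s, (if a ∈ S.T s then (1 - e) * S.w s else 0)) = (1 - e) * (1 - S.p a)
      rw [if_pos (mem_univ a)]
      have h1 : ∑ s, (if a ∈ S.T s then (1 - e) * S.w s else 0) = (1 - e) * S.p a := by
        unfold TSys.p
        rw [Finset.mul_sum]
        refine Finset.sum_congr rfl fun s _ => ?_
        split_ifs
        · rfl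
        · ring
      rw [h1]
      ring
    change ∏ a : Fin q, (1 - ∑ s : Option ι, (if a ∈ PER_T S.T s then PER_w e S.w s else 0)) =
      (1 - e) ^ q * ∏ a : Fin q, (1 - S.p a)
    rw [Finset.prod_congr rfl fun a _ => hp a, Finset.prod_mul_distrib, Finset.prod_const,
      Finset.card_univ, Fintype.card_fin]

/-- scaling of a type system -/
theorem PER_scale (S : TSys ι q D) {D' : ℝ} (hD' : 0 < D') (h : D' ≤ D) :
    ∃ S' : TSys ι q D', S'.val = S.val := by
  have hD : 0 < D := lt_of_lt_of_le hD' h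
  have hr0 : 0 ≤ D' / D := by positivity
  have hr1 : D' / D ≤ 1 := (div_le_one hD).2 h
  refine ⟨{
    T := S.T
    w := S.w
    x := fun s t => D' / D * S.x s t
    ne := S.ne
    w_pos := S.w_pos
    w_sum := S.w_sum
    symm := ?_
    nonneg := ?_
    le := ?_
    zero := ?_
    row := ?_ }, rfl⟩
  · intro s t
    rw [S.symm s t]
  · intro s t
    exact mul_nonneg hr0 (S.nonneg s t)
  · intro s t
    have h1 := mul_le_mul_of_nonneg_right hr1 (S.nonneg s t)
    have h2 := S.le s t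
    linarith
  · intro s t hst
    rw [S.zero s t hst, mul_zero]
  · intro s
    rw [← Finset.mul_sum, S.row s]
    field_simp

end PER

theorem stmt_PER : Stmt_PER := by
  intro ι _ _ q D D' ε S hD' hDD' hD1 hε
  obtain ⟨S1, hS1⟩ := PER_scale S hD' hDD'
  have hD'1 : D' < 1 := lt_of_le_of_lt hDD' hD1
  obtain ⟨e, he⟩ : ∃ e, e = min (1 / 4 : ℝ) (ε / ((q : ℝ) + 1)) := ⟨_, rfl⟩
  have hq : (0 : ℝ) < (q : ℝ) + 1 := by positivity
  have he0 : 0 < e := by
    rw [he]
    exact lt_min (by norm_num) (div_pos hε hq)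
  have he1 : e ≤ 1 / 4 := by
    rw [he]
    exact min_le_left _ _
  have he2 : (q : ℝ) * e ≤ ε := by
    have h1 : e ≤ ε / ((q : ℝ) + 1) := by
      rw [he]
      exact min_le_right _ _
    have h2 : ((q : ℝ) + 1) * e ≤ ε := by
      have := mul_le_mul_of_nonneg_left h1 hq.le
      rwa [mul_div_cancel₀ _ hq.ne'] at this
    nlinarith
  obtain ⟨θ, hθ⟩ : ∃ θ, θ = min (e ^ 2 / 2) (e * (1 - D') / 2) := ⟨_, rfl⟩
  have hθ0 : 0 < θ := by
    rw [hθ]
    refine lt_min (by positivity) ?_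
    have : 0 < 1 - D' := by linarith
    positivity
  have hθ2 : θ ≤ e * (1 - D') / 2 := by
    rw [hθ]
    exact min_le_right _ _
  have hθ4 : θ ≤ e ^ 2 / 2 := by
    rw [hθ]
    exact min_le_left _ _
  have hθ3 : θ < e ^ 2 := by
    have : 0 < e ^ 2 := by positivity
    linarith
  have hθ1 : θ < 1 := by nlinarith
  obtain ⟨S', hS', hv⟩ := PER_core S1 hD' hD'1 he0 (by linarith) hθ0 hθ1 hθ2 hθ3
  refine ⟨S', hS', ?_⟩
  rw [hv, hS1]
  have hber : 1 + (q : ℝ) * (-e) ≤ (1 + (-e)) ^ q := one_add_mul_le_pow (by linarith) q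
  have h0 := PER_val_nonneg S
  have h1 := PER_val_le S
  have h2 : (1 + (q : ℝ) * (-e)) * S.val ≤ (1 + (-e)) ^ q * S.val := mul_le_mul_of_nonneg_right hber h0
  have h3 : (1 + -e) = 1 - e := by ring
  rw [h3] at h2
  have h4 : (q : ℝ) * e * S.val ≤ (q : ℝ) * e * 1 :=
    mul_le_mul_of_nonneg_left h1 (by positivity)
  nlinarith

end Pool.Agent.Work.MP_1ce445_low
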