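import Pool.Agent.Work.MP_1ce445_low.Interface3

/-!
Block UNF of theorem LIM for MP_1ce445_co: uniform convergence of the leading constant on compact intervals.
-/

namespace Pool.Agent.Work.MP_1ce445_low

open Finset Pool.Agent.Work.MP_1ce445_co_56 Pool.Agent.Work.MP_1ce445_lin

/-- the property proved by compactness, for a set of values of `k / n` -/
def UNF_Good (ε : ℝ) (S : Set ℝ) : Prop :=
  ∃ n0 : ℕ, ∀ n k : ℕ, n0 ≤ n → ((k : ℝ) / n) ∈ S →
    |(P n k : ℝ) - FF ((k : ℝ) / n) * (NN n : ℝ) ^ k| ≤ ε * (NN n : ℝ) ^ k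

theorem UNF_empty (ε : ℝ) : UNF_Good ε ∅ := ⟨0, fun _ _ _ h => absurd h (Set.notMem_empty _)⟩

theorem UNF_mono (ε : ℝ) (S T : Set ℝ) (h : S ⊆ T) (hT : UNF_Good ε T) : UNF_Good ε S := by
  obtain ⟨n0, h0⟩ := hT
  exact ⟨n0, fun n k hn hk => h0 n k hn (h hk)⟩

theorem UNF_union (ε : ℝ) (S T : Set ℝ) (hS : UNF_Good ε S) (hT : UNF_Good ε T) : UNF_Good ε (S ∪ T) := by
  obtain ⟨n1, h1⟩ := hS
  obtain ⟨n2, h2⟩ := hT
  refine ⟨max n1 n2, fun n k hn hk => ?_⟩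
  rcases hk with hk | hk
  · exact h1 n k (le_trans (le_max_left _ _) hn) hk
  · exact h2 n k (le_trans (le_max_right _ _) hn) hk

theorem UNF_local (h1 : Stmt_LIMU) (h2 : Stmt_LIML) (h3 : Stmt_CNT) (ε x : ℝ) (hε : 0 < ε) (hx0 : 0 < x)
    (hx1 : x < 1) : ∃ t ∈ nhds x, UNF_Good ε t := by
  obtain ⟨δ1, n1, hδ1, hu⟩ := h1 x (ε / 2) hx0 hx1 (by positivity)
  obtain ⟨δ2, n2, hδ2, hl⟩ := h2 x (ε / 2) hx0 hx1 (by positivity)
  have hc : ContinuousAt FF x := h3.2.continuousAt (Ioo_mem_nhds hx0 hx1)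
  have hF : {y : ℝ | |FF y - FF x| < ε / 2} ∈ nhds x := by
    have := (Metric.continuousAt_iff.mp hc) (ε / 2) (by positivity)
    obtain ⟨r, hr, hr'⟩ := this
    refine Filter.mem_of_superset (Metric.ball_mem_nhds x hr) ?_
    intro y hy
    have h := hr' (Metric.mem_ball.mp hy)
    rw [Real.dist_eq] at h
    exact h
  have hD : {y : ℝ | |y - x| < min δ1 δ2} ∈ nhds x := by
    refine Filter.mem_of_superset (Metric.ball_mem_nhds x (lt_min hδ1 hδ2)) ?_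
    intro y hy
    have h := Metric.mem_ball.mp hy
    rw [Real.dist_eq] at h
    exact h
  refine ⟨_, Filter.inter_mem hF hD, max 1 (max n1 n2), fun n k hn hk => ?_⟩
  have hn1 : n1 ≤ n := le_trans (le_trans (le_max_left _ _) (le_max_right _ _)) hn
  have hn2 : n2 ≤ n := le_trans (le_trans (le_max_right _ _) (le_max_right _ _)) hn
  have hn0 : 1 ≤ n := le_trans (le_max_left _ _) hn
  have hnR : (0 : ℝ) < n := by exact_mod_cast hn0
  have hkF : |FF ((k : ℝ) / n) - FF x| < ε / 2 := hk.1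
  have hkD : |(k : ℝ) / n - x| < min δ1 δ2 := hk.2
  have hkx : |(k : ℝ) - x * n| = |(k : ℝ) / n - x| * n := by
    rw [← abs_of_pos hnR, ← abs_mul, abs_of_pos hnR]
    congr 1
    field_simp
  have hk1 : |(k : ℝ) - x * n| ≤ δ1 * n := by
    rw [hkx]
    exact mul_le_mul_of_nonneg_right (le_trans hkD.le (min_le_left _ _)) hnR.le
  have hk2 : |(k : ℝ) - x * n| ≤ δ2 * n := by
    rw [hkx]
    exact mul_le_mul_of_nonneg_right (le_trans hkD.le (min_le_right _ _)) hnR.le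
  have hU := hu n k hn1 hk1
  have hL := hl n k hn2 hk2
  have hN : (0 : ℝ) ≤ (NN n : ℝ) ^ k := by positivity
  obtain ⟨hF1, hF2⟩ := abs_lt.mp hkF
  have hA : (FF x - FF ((k : ℝ) / n)) * (NN n : ℝ) ^ k ≤ (ε / 2) * (NN n : ℝ) ^ k :=
    mul_le_mul_of_nonneg_right (by linarith) hN
  have hB : (FF ((k : ℝ) / n) - FF x) * (NN n : ℝ) ^ k ≤ (ε / 2) * (NN n : ℝ) ^ k :=
    mul_le_mul_of_nonneg_right (by linarith) hN
  rw [abs_le]
  constructor <;> nlinarith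

/-- UNF: uniform convergence on compact intervals -/
theorem stmt_UNF (h1 : Stmt_LIMU) (h2 : Stmt_LIML) (h3 : Stmt_CNT) : Stmt_UNF := by
  intro a b ε ha hb hε
  have hmain : UNF_Good ε (Set.Icc a b) := by
    refine isCompact_Icc.induction_on (UNF_empty ε) (fun {S T} h hT => UNF_mono ε S T h hT)
      (fun {S T} hS hT => UNF_union ε S T hS hT) ?_
    intro x hx
    obtain ⟨t, ht, hg⟩ := UNF_local h1 h2 h3 ε x hε (lt_of_lt_of_le ha hx.1) (lt_of_le_of_lt hx.2 hb)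
    exact ⟨t, mem_nhdsWithin_of_mem_nhds ht, hg⟩
  obtain ⟨n0, h0⟩ := hmain
  refine ⟨max 1 n0, fun n k hn hk1 hk2 => ?_⟩
  have hn1 : 1 ≤ n := le_trans (le_max_left _ _) hn
  have hnR : (0 : ℝ) < n := by exact_mod_cast hn1
  refine h0 n k (le_trans (le_max_right _ _) hn) ⟨?_, ?_⟩
  · rw [le_div_iff₀ hnR]; exact hk1
  · rw [div_le_iff₀ hnR]; exact hk2

end Pool.Agent.Work.MP_1ce445_low
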